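import Pool.Agent.BEX.ACyc
import Pool.Agent.BEX.ACapRt
import Pool.Agent.BEX.AFix3

/-!
# CYL, part P: crossing and mirror symmetry of the transfer matrix

`Tt_crossing`: `T(v; U)` with the lines in the order `l` is `T(3λ - v; -U)` with the lines in the reversed order.
(Crossing symmetry at the cup for one line after the other, then the two ends of the auxiliary line are exchanged.)
-/

namespace Pool.Agent.CYL

open Pool.Agent.BEX

variable {ι : Type*} [DecidableEq ι]

/-- The product of the R-matrices along the other end of the auxiliary line. -/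
noncomputable def Foo (l : List ι) (v : ℂ) (U : ι → ℂ) (G : St (Option (Option ι)) → ℂ) :
    St (Option (Option ι)) → ℂ :=
  l.foldr (fun i G => Rt ax' (lb i) (v - U i) G) G

theorem Foo_append (l₁ l₂ : List ι) (v : ℂ) (U : ι → ℂ) (G : St (Option (Option ι)) → ℂ) :
    Foo (l₁ ++ l₂) v U G = Foo l₁ v U (Foo l₂ v U G) := by
  unfold Foo
  rw [List.foldr_append]

theorem cupF_Fo (l : List ι) (hl : l.Nodup) (v : ℂ) (U : ι → ℂ) (H : St (Option (Option ι)) → ℂ) :
    cupF (Fo l v U H) = cupF (Foo l.reverse (3 * lam - v) (-U) H) := by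
  induction l generalizing H with
  | nil => rfl
  | cons i l ih =>
    rw [List.nodup_cons] at hl
    rw [Fo_cons, cupF_cross, List.reverse_cons, Foo_append]
    have h1 : Rt ax' (lb i) (3 * lam - (v - U i)) (Fo l v U H) =
        Fo l v U (Rt ax' (lb i) (3 * lam - (v - U i)) H) := foldr_far i _ v U l hl.1 H
    rw [h1, ih hl.2]
    congr 2
    simp only [Foo, List.foldr_cons, List.foldr_nil, Pi.neg_apply]
    congr 1
    ring

/-- Exchange of the two ends of the auxiliary line. -/
def sx (ι : Type*) [DecidableEq ι] : Option (Option ι) ≃ Option (Option ι) := Equiv.swap ax ax'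

theorem sx_ax : sx ι ax = ax' := Equiv.swap_apply_left _ _

theorem sx_ax' : sx ι ax' = ax := Equiv.swap_apply_right _ _

theorem sx_lb (i : ι) : sx ι (lb i) = lb i := Equiv.swap_apply_of_ne_of_ne (by simp [lb, ax]) (by simp [lb, ax'])

theorem sx_symm : (sx ι).symm = sx ι := Equiv.symm_swap _ _

theorem rl_sx_ext0 (m : St ι) : rl (sx ι) (ext0 m) = ext0 m := by
  apply St.ext'
  intro j
  rw [rl_apply, sx_symm]
  rcases j with _ | _ | j
  · change sx ι (ext0 m (sx ι ax)) = ax
    rw [sx_ax]
    exact sx_ax'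
  · change sx ι (ext0 m (sx ι ax')) = ax'
    rw [sx_ax']
    exact sx_ax
  · change sx ι (ext0 m (sx ι (lb j))) = lb (m j)
    rw [sx_lb]
    exact sx_lb _

theorem rl_sx_ext1 (m : St ι) : rl (sx ι) (ext1 m) = ext1 m := by
  unfold ext1
  rw [rl_jn, rl_sx_ext0, sx_ax, sx_ax']
  apply St.ext'
  intro x
  rw [St.jn_apply _ _ _ _ rfl rfl, St.jn_apply _ _ _ _ rfl rfl]
  have h : (ax : Option (Option ι)) ≠ ax' := by simp [ax, ax']
  grind

theorem Foo_sx (l : List ι) (v : ℂ) (U : ι → ℂ) (G : St (Option (Option ι)) → ℂ) (m : St (Option (Option ι))) :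
    Foo l v U G (rl (sx ι) m) = Fo l v U (fun n => G (rl (sx ι) n)) m := by
  induction l generalizing m with
  | nil => rfl
  | cons i l ih =>
    have h : Foo (i :: l) v U G = Rt (sx ι ax) (sx ι (lb i)) (v - U i) (Foo l v U G) := by
      rw [sx_ax, sx_lb]
      rfl
    rw [h, Rt_rl, Fo_cons]
    congr 1
    funext n
    exact ih n

theorem resf_sx (m : St (Option (Option ι))) (i : ι) : resf (rl (sx ι) m) i = resf m i := by
  unfold resf
  have h1 : (rl (sx ι) m) (lb i) = sx ι (m (lb i)) := by rw [rl_apply, sx_symm, sx_lb]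
  rw [h1]
  rcases hm : m (lb i) with _ | _ | j
  · change (match sx ι ax with
      | some (some j) => j
      | _ => i) = i
    rw [sx_ax]
    rfl
  · change (match sx ι ax' with
      | some (some j) => j
      | _ => i) = i
    rw [sx_ax']
    rfl
  · change (match sx ι (lb j) with
      | some (some j) => j
      | _ => i) = j
    rw [sx_lb]
    rfl

theorem res_sx [Fintype ι] (m : St (Option (Option ι))) : res (rl (sx ι) m) = res m := by
  unfold res
  simp only [resf_sx]
  by_cases h : ∀ i, resf m (resf m i) = i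
  · rw [dif_pos h, dif_pos h]
    apply St.ext'
    intro i
    exact resf_sx m i
  · rw [dif_neg h, dif_neg h]

theorem rl_sx_apply_ax (m : St (Option (Option ι))) : (rl (sx ι) m) ax = sx ι (m ax') := by
  rw [rl_apply, sx_symm, sx_ax]

theorem rl_sx_apply_ax' (m : St (Option (Option ι))) : (rl (sx ι) m) ax' = sx ι (m ax) := by
  rw [rl_apply, sx_symm, sx_ax']

theorem sx_eq_ax (z : Option (Option ι)) : (sx ι z = ax) = (z = ax') := by
  rw [← sx_ax' (ι := ι), EmbeddingLike.apply_eq_iff_eq]

theorem sx_eq_ax' (z : Option (Option ι)) : (sx ι z = ax') = (z = ax) := by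
  rw [← sx_ax (ι := ι), EmbeddingLike.apply_eq_iff_eq]

theorem capF_sx [Fintype ι] (F : St ι → ℂ) (m : St (Option (Option ι))) : capF F (rl (sx ι) m) = capF F m := by
  have hp : ((rl (sx ι) m) ax = ax) = (m ax' = ax') := by rw [rl_sx_apply_ax, sx_eq_ax]
  have hq : ((rl (sx ι) m) ax' = ax') = (m ax = ax) := by rw [rl_sx_apply_ax', sx_eq_ax']
  have hr : ((rl (sx ι) m) ax = ax') = (m ax = ax') := by
    rw [rl_sx_apply_ax, sx_eq_ax']
    refine propext ⟨fun h => ?_, fun h => ?_⟩
    · rw [← h, m.inv]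
    · rw [← h, m.inv]
  have hc : (rl (sx ι) m).cp ax ax' = rl (sx ι) (m.cp ax ax') := by
    rw [cp_comm m, rl_cp, sx_ax, sx_ax']
  have hs : ∀ n : St (Option (Option ι)), F (res (rl (sx ι) n)) = F (res n) := fun n => by rw [res_sx]
  simp only [capF, hp, hq, hr, hc, hs]
  by_cases h1 : m ax = ax <;> by_cases h2 : m ax' = ax' <;> simp [h1, h2]

/-- Crossing symmetry of the transfer matrix. -/
theorem Tt_crossing [Fintype ι] (l : List ι) (hl : l.Nodup) (v : ℂ) (U : ι → ℂ) (F : St ι → ℂ) :
    Tt l v U F = Tt l.reverse (3 * lam - v) (-U) F := by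
  rw [Tt_eq, Tt_eq, cupF_Fo l hl]
  funext m
  have h1 : ∀ G : St (Option (Option ι)) → ℂ, cupF G m = cupF (fun n => G (rl (sx ι) n)) m := by
    intro G
    simp only [cupF, rl_sx_ext0, rl_sx_ext1]
  rw [h1]
  congr 1
  funext n
  rw [Foo_sx]
  congr 1
  funext k
  exact capF_sx F k

end Pool.Agent.CYL
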