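import Pool.Agent.BEX.ACyc
import Pool.Agent.BEX.ACapRt
import Pool.Agent.BEX.AFix3

/-!
# CYL, part P: factorisation of the transfer matrix at a special point (general form)

Lines in the order `q₀, r₀, q₁, r₁, ...` with `U q_k = v` (the auxiliary line is exchanged with `q_k`) and `v - U r_k = X`:
`T(v; U) F = (sin 2λ sin 3λ)^p R_{q₀ r₀}(X) R_{q₁ r₁}(X) ... (F ∘ relabelling by the cycle (q₀ q₁ ...))`.
-/

namespace Pool.Agent.CYL

open Pool.Agent.BEX Complex

section

variable {ι κ μ : Type*}

theorem rl_trans (e : ι ≃ κ) (f : κ ≃ μ) (m : St ι) : rl f (rl e m) = rl (e.trans f) m := by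
  apply St.ext'
  intro j
  simp

theorem rl_refl (m : St ι) : rl (Equiv.refl ι) m = m := by
  apply St.ext'
  intro j
  simp

variable [DecidableEq ι]

theorem sw_eq_rl (p q : ι) (m : St ι) : m.sw p q = rl (Equiv.swap p q) m := by
  apply St.ext'
  intro i
  rw [rl_apply, Equiv.symm_swap]
  rfl

theorem Rt_zero (p q : ι) (F : St ι → ℂ) (m : St ι) :
    Rt p q 0 F m = sin (2 * lam) * sin (3 * lam) * F (m.sw p q) := by
  have h1 : kk 0 = sin (2 * lam) * sin (3 * lam) := by unfold kk; rw [add_zero, add_zero]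
  have h2 : w2 0 = sin (2 * lam) * sin (3 * lam) := by unfold w2; rw [sub_zero]
  have h3 : w4 0 = 0 := by unfold w4; rw [sin_zero, mul_zero]
  have h4 : w6 0 = 0 := by unfold w6; rw [sin_zero, zero_mul]
  have h5 : w8 0 = sin (2 * lam) * sin (3 * lam) := by unfold w8; rw [sub_zero, sub_zero]
  have h6 : w9 0 = 0 := by unfold w9; rw [sin_zero, zero_mul, neg_zero]
  unfold Rt
  rw [h1, h2, h3, h4, h5, h6]
  by_cases hp : m p = p
  · by_cases hq : m q = q
    · have hs : m.sw p q = m := by
        apply St.ext'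
        intro x
        rw [St.sw_apply, Equiv.swap_apply_def, Equiv.swap_apply_def]
        have := m.inv' x
        grind
      rw [if_pos hp, if_pos hq, hs]
      ring
    · rw [if_pos hp, if_neg hq]
      ring
  · by_cases hq : m q = q
    · rw [if_neg hp, if_pos hq]
      ring
    · by_cases hr : m p = q
      · have hs : m.sw p q = m := by
          apply St.ext'
          intro x
          rw [St.sw_apply, Equiv.swap_apply_def, Equiv.swap_apply_def]
          have := m.inv' x
          have := m.inv' p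
          grind
        rw [if_neg hp, if_neg hq, if_pos hr, hs]
      · rw [if_neg hp, if_neg hq, if_neg hr]
        ring

theorem Rt_sw {a q r : ι} (hra : r ≠ a) (hrq : r ≠ q) (X : ℂ) (H : St ι → ℂ) (m : St ι) :
    Rt a r X H (m.sw a q) = Rt q r X (fun n => H (n.sw a q)) m := by
  have h := Rt_rl (Equiv.swap a q) q r X H m
  rw [Equiv.swap_apply_right, Equiv.swap_apply_of_ne_of_ne hra hrq, ← sw_eq_rl] at h
  rw [h]
  simp only [sw_eq_rl]

/-- The layer of the R-operators of the pairs. -/
noncomputable def Lay (ps : List (ι × ι)) (X : ℂ) (G : St ι → ℂ) : St ι → ℂ :=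
  ps.foldr (fun pr H => Rt pr.1 pr.2 X H) G

@[simp] theorem Lay_nil (X : ℂ) (G : St ι → ℂ) : Lay [] X G = G := rfl

@[simp] theorem Lay_cons (pr : ι × ι) (ps : List (ι × ι)) (X : ℂ) (G : St ι → ℂ) :
    Lay (pr :: ps) X G = Rt pr.1 pr.2 X (Lay ps X G) := rfl

theorem Lay_smul (ps : List (ι × ι)) (X c : ℂ) (G : St ι → ℂ) : Lay ps X (c • G) = c • Lay ps X G := by
  induction ps with
  | nil => rfl
  | cons pr ps ih => rw [Lay_cons, Lay_cons, ih, Rt_smul]

theorem Lay_rl (e : Equiv.Perm ι) (ps : List (ι × ι)) (h : ∀ pr ∈ ps, e pr.1 = pr.1 ∧ e pr.2 = pr.2) (X : ℂ)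
    (G : St ι → ℂ) (m : St ι) : Lay ps X G (rl e m) = Lay ps X (fun n => G (rl e n)) m := by
  induction ps generalizing m with
  | nil => rfl
  | cons pr ps ih =>
    have h1 := h pr List.mem_cons_self
    have h2 := Rt_rl e pr.1 pr.2 X (Lay ps X G) m
    rw [h1.1, h1.2] at h2
    rw [Lay_cons, Lay_cons, h2]
    congr 1
    funext n
    exact ih (fun pr' h' => h pr' (List.mem_cons_of_mem _ h')) n

/-- The list of the lines of the pairs. -/
def fl : List (ι × ι) → List ι
  | [] => []
  | pr :: ps => pr.1 :: pr.2 :: fl ps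

/-- The pairs of the extended labels. -/
def lp (ps : List (ι × ι)) : List (Option (Option ι) × Option (Option ι)) :=
  ps.map fun pr => (lb pr.1, lb pr.2)

/-- Product of the exchanges with the auxiliary line. -/
def sg {κ : Type*} [DecidableEq κ] (a : κ) : List κ → Equiv.Perm κ
  | [] => Equiv.refl κ
  | q :: qs => (Equiv.swap a q).trans (sg a qs)

theorem cupF_Lay (ps : List (ι × ι)) (X : ℂ) (G : St (Option (Option ι)) → ℂ) :
    cupF (Lay (lp ps) X G) = Lay ps X (cupF G) := by
  induction ps with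
  | nil => rfl
  | cons pr ps ih =>
    change cupF (Rt (lb pr.1) (lb pr.2) X (Lay (lp ps) X G)) = _
    rw [cupF_Rt, ih, Lay_cons]

omit [DecidableEq ι] in
theorem mem_fl {ps : List (ι × ι)} {pr : ι × ι} (h : pr ∈ ps) : pr.1 ∈ fl ps ∧ pr.2 ∈ fl ps := by
  induction ps with
  | nil => simp at h
  | cons pr' ps ih =>
    rcases List.mem_cons.1 h with rfl | h
    · simp [fl]
    · have := ih h
      simp [fl, this.1, this.2]

omit [DecidableEq ι] in
theorem fst_mem_fl {ps : List (ι × ι)} {x : ι} (h : x ∈ ps.map Prod.fst) : x ∈ fl ps := by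
  obtain ⟨pr, hpr, rfl⟩ := List.mem_map.1 h
  exact (mem_fl hpr).1

omit [DecidableEq ι] in
theorem nodup_fst {ps : List (ι × ι)} (hn : (fl ps).Nodup) : (ps.map Prod.fst).Nodup := by
  induction ps with
  | nil => exact List.nodup_nil
  | cons pr ps ih =>
    simp only [fl, List.nodup_cons, List.mem_cons, not_or] at hn
    rw [List.map_cons, List.nodup_cons]
    exact ⟨fun h => hn.1.2 (fst_mem_fl h), ih hn.2.2⟩

theorem Fo_pairs (ps : List (ι × ι)) (hn : (fl ps).Nodup) (v : ℂ) (U : ι → ℂ) (X : ℂ)
    (h0 : ∀ pr ∈ ps, U pr.1 = v) (hX : ∀ pr ∈ ps, v - U pr.2 = X) (G : St (Option (Option ι)) → ℂ) :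
    Fo (fl ps) v U G = (sin (2 * lam) * sin (3 * lam)) ^ ps.length •
      Lay (lp ps) X (fun M => G (rl (sg ax (ps.map fun pr => (lb pr.1 : Option (Option ι)))) M)) := by
  induction ps with
  | nil =>
    funext M
    simp only [fl, Fo_nil, List.length_nil, pow_zero, one_smul, lp, List.map_nil, Lay_nil, sg]
    rw [rl_refl]
  | cons pr ps ih =>
    obtain ⟨q, r⟩ := pr
    have hn' := hn
    simp only [fl, List.nodup_cons, List.mem_cons, not_or] at hn'
    obtain ⟨⟨hqr, hq⟩, hr, hn2⟩ := hn'
    have ih' := ih hn2 (fun pr h => h0 pr (List.mem_cons_of_mem _ h)) (fun pr h => hX pr (List.mem_cons_of_mem _ h))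
    funext M
    have e0 : v - U q = 0 := by rw [h0 (q, r) List.mem_cons_self, sub_self]
    have e1 : v - U r = X := hX (q, r) List.mem_cons_self
    simp only [fl, Fo_cons]
    rw [e0, e1, Rt_zero, Rt_sw (by simp) (fun h => hqr (lb_inj h).symm), ih']
    have h2 : (fun n : St (Option (Option ι)) => ((sin (2 * lam) * sin (3 * lam)) ^ ps.length •
        Lay (lp ps) X (fun M => G (rl (sg ax (ps.map fun pr => (lb pr.1 : Option (Option ι)))) M)))
          (n.sw ax (lb q))) = (sin (2 * lam) * sin (3 * lam)) ^ ps.length •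
        Lay (lp ps) X (fun M => G (rl (sg ax (((q, r) :: ps).map fun pr => (lb pr.1 : Option (Option ι)))) M)) := by
      funext n
      rw [Pi.smul_apply, Pi.smul_apply, sw_eq_rl, Lay_rl]
      · simp only [rl_trans]
        rfl
      · intro pr' h'
        obtain ⟨pr, hpr, rfl⟩ := List.mem_map.1 h'
        obtain ⟨m1, m2⟩ := mem_fl hpr
        constructor
        · refine Equiv.swap_apply_of_ne_of_ne (by simp) fun h => ?_
          exact hq ((lb_inj h) ▸ m1)
        · refine Equiv.swap_apply_of_ne_of_ne (by simp) fun h => ?_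
          exact hq ((lb_inj h) ▸ m2)
    rw [h2, Rt_smul, Pi.smul_apply, smul_eq_mul, Pi.smul_apply, smul_eq_mul, List.length_cons, pow_succ]
    change _ = _ * Rt (lb q) (lb r) X (Lay (lp ps) X _) M
    ring

omit [DecidableEq ι] in
theorem oc_mul (e f : Equiv.Perm ι) (x : Option (Option ι)) : oc (e * f) x = oc e (oc f x) := by
  rcases x with _ | _ | i <;> rfl

omit [DecidableEq ι] in
theorem oc_one (x : Option (Option ι)) : oc (1 : Equiv.Perm ι) x = x := by
  rcases x with _ | _ | i <;> rfl

omit [DecidableEq ι] in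
theorem oo_cases' (x : Option (Option ι)) : x = ax ∨ x = ax' ∨ ∃ i, x = lb i := by
  rcases x with _ | _ | i
  · exact Or.inl rfl
  · exact Or.inr (Or.inl rfl)
  · exact Or.inr (Or.inr ⟨i, rfl⟩)

theorem sg_formPerm (q : ι) (qs : List ι) (hn : (q :: qs).Nodup) :
    sg ax ((q :: qs).map fun i => (lb i : Option (Option ι))) =
      (oc (List.formPerm (q :: qs))).trans (Equiv.swap ax (lb q)) := by
  induction qs generalizing q with
  | nil =>
    ext1 x
    simp only [List.map_cons, List.map_nil, sg, List.formPerm_singleton, Equiv.trans_apply, Equiv.refl_apply]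
    rw [oc_one]
  | cons q1 rest ih =>
    rw [List.nodup_cons] at hn
    have ih' := ih q1 hn.2
    have hq : List.formPerm (q1 :: rest) q = q := List.formPerm_apply_of_notMem hn.1
    have hqq : q ≠ q1 := fun h => hn.1 (h ▸ List.mem_cons_self)
    ext1 x
    rw [List.map_cons, sg, Equiv.trans_apply, ih', Equiv.trans_apply, Equiv.trans_apply,
      List.formPerm_cons_cons, oc_mul]
    generalize List.formPerm (q1 :: rest) = f at hq
    have hax : ∀ i : ι, (ax : Option (Option ι)) ≠ lb i := fun i => ax_ne i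
    have hax' : ∀ i : ι, (ax' : Option (Option ι)) ≠ lb i := fun i => by simp
    have haa : (ax : Option (Option ι)) ≠ ax' := by simp
    have hlb : ∀ {i j : ι}, i ≠ j → (lb i : Option (Option ι)) ≠ lb j := fun h h' => h (lb_inj h')
    rcases oo_cases' x with rfl | rfl | ⟨i, rfl⟩
    · rw [Equiv.swap_apply_left, oc_lb, hq, Equiv.swap_apply_of_ne_of_ne (hax q).symm (hlb hqq), oc_ax, oc_ax,
        Equiv.swap_apply_left]
    · rw [Equiv.swap_apply_of_ne_of_ne haa.symm (hax' q), oc_ax', oc_ax', Equiv.swap_apply_of_ne_of_ne haa.symm (hax' q1),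
        Equiv.swap_apply_of_ne_of_ne haa.symm (hax' q)]
    · by_cases hi : i = q
      · subst hi
        rw [Equiv.swap_apply_right, oc_ax, Equiv.swap_apply_left, oc_lb, hq, oc_lb, Equiv.swap_apply_left,
          Equiv.swap_apply_of_ne_of_ne (hax q1).symm (hlb hqq.symm)]
      · have hfi : f i ≠ q := fun h => hi (f.injective (h.trans hq.symm))
        rw [Equiv.swap_apply_of_ne_of_ne (hax i).symm (hlb hi), oc_lb, oc_lb]
        by_cases hf : f i = q1
        · rw [hf, Equiv.swap_apply_right, Equiv.swap_apply_right, Equiv.swap_apply_right]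
        · rw [Equiv.swap_apply_of_ne_of_ne (hax _).symm (hlb hf), Equiv.swap_apply_of_ne_of_ne hfi hf,
            Equiv.swap_apply_of_ne_of_ne (hax _).symm (hlb hfi)]

end

section

variable {ι : Type*} [DecidableEq ι] [Fintype ι]

/-- A line with the rapidity of the auxiliary line is invisible. -/
theorem cup_sw_cap (q : ι) (F : St ι → ℂ) (m : St ι) : cupF (fun M => capF F (M.sw ax (lb q))) m = F m := by
  have e0 : (ext0 m) ax = ax := rfl
  have e0' : (ext0 m) ax' = ax' := rfl
  have e1 : (ext1 m) ax = ax' := by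
    unfold ext1
    rw [St.jn_apply _ _ _ _ e0 e0', if_pos rfl]
  have e1' : (ext1 m) ax' = ax := by
    unfold ext1
    rw [St.jn_apply _ _ _ _ e0 e0', if_neg (by simp), if_pos rfl]
  have elb : ∀ i, (ext0 m) (lb i) = lb (m i) := fun i => rfl
  have elb1 : ∀ i, (ext1 m) (lb i) = lb (m i) := by
    intro i
    unfold ext1
    rw [St.jn_apply _ _ _ _ e0 e0', if_neg (by simp), if_neg (by simp)]
    rfl
  have hax : ∀ i : ι, (lb i : Option (Option ι)) ≠ ax := fun i => (ax_ne i).symm
  have hax' : ∀ i : ι, (lb i : Option (Option ι)) ≠ ax' := fun i => by simp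
  have haa : (ax' : Option (Option ι)) ≠ ax := by simp
  have s1 : ∀ n : St (Option (Option ι)), (n.sw ax (lb q)) ax = Equiv.swap ax (lb q) (n (lb q)) := by
    intro n
    rw [St.sw_apply, Equiv.swap_apply_left]
  have s2 : ∀ n : St (Option (Option ι)), (n.sw ax (lb q)) ax' = Equiv.swap ax (lb q) (n ax') := by
    intro n
    rw [St.sw_apply, Equiv.swap_apply_of_ne_of_ne haa (hax' q).symm]
  have s3 : ∀ n : St (Option (Option ι)), (n.sw ax (lb q)) (lb q) = Equiv.swap ax (lb q) (n ax) := by
    intro n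
    rw [St.sw_apply, Equiv.swap_apply_right]
  change capF F ((ext0 m).sw ax (lb q)) + capF F ((ext1 m).sw ax (lb q)) = F m
  by_cases hq : m q = q
  · have h1 : (ext0 m).sw ax (lb q) = ext0 m := by
      apply St.ext'
      intro x
      rw [St.sw_apply]
      have h2 := elb q
      rw [hq] at h2
      rcases oo_cases' x with rfl | rfl | ⟨i, rfl⟩
      · rw [Equiv.swap_apply_left, h2, Equiv.swap_apply_right, e0]
      · rw [Equiv.swap_apply_of_ne_of_ne haa (hax' q).symm, e0', Equiv.swap_apply_of_ne_of_ne haa (hax' q).symm]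
      · by_cases hi : i = q
        · subst hi
          rw [Equiv.swap_apply_right, e0, Equiv.swap_apply_left, h2]
        · have hmi : m i ≠ q := fun h => hi (m.inj (h.trans hq.symm))
          rw [Equiv.swap_apply_of_ne_of_ne (hax i) (fun h => hi (lb_inj h)), elb,
            Equiv.swap_apply_of_ne_of_ne (hax _) (fun h => hmi (lb_inj h))]
    have h3 : capF F ((ext1 m).sw ax (lb q)) = 0 := by
      refine capF_zero F _ (Or.inl ?_) ?_
      · rw [s1, elb1, hq, Equiv.swap_apply_right]
      · rintro ⟨-, h⟩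
        rw [s2, e1', Equiv.swap_apply_left] at h
        exact hax' q h
    rw [h1, h3, capF_ext0, add_zero]
  · have h3 : capF F ((ext0 m).sw ax (lb q)) = 0 := by
      refine capF_zero F _ (Or.inr ?_) ?_
      · rw [s2, e0', Equiv.swap_apply_of_ne_of_ne haa (hax' q).symm]
      · rintro ⟨h, -⟩
        rw [s1, elb, Equiv.swap_apply_of_ne_of_ne (hax _) (fun h => hq (lb_inj h))] at h
        exact hax _ h
    have m1 : ((ext1 m).sw ax (lb q)) ax = lb (m q) := by
      rw [s1, elb1, Equiv.swap_apply_of_ne_of_ne (hax _) (fun h => hq (lb_inj h))]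
    have m2 : ((ext1 m).sw ax (lb q)) ax' = lb q := by rw [s2, e1', Equiv.swap_apply_left]
    have n1 : ((ext1 m).sw ax (lb q)) ax ≠ ax := by rw [m1]; exact hax _
    have n2 : ((ext1 m).sw ax (lb q)) ax' ≠ ax' := by rw [m2]; exact hax' _
    have n3 : ((ext1 m).sw ax (lb q)) ax ≠ ax' := by rw [m1]; exact hax' _
    have h4 : ((ext1 m).sw ax (lb q)).cp ax ax' = ext0 m := by
      apply St.ext'
      intro x
      rw [St.cp_apply _ _ _ _ n1 n2, m1, m2]
      rcases oo_cases' x with rfl | rfl | ⟨i, rfl⟩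
      · rw [if_pos rfl, e0]
      · rw [if_neg haa, if_pos rfl, e0']
      · rw [if_neg (hax i), if_neg (hax' i), elb]
        by_cases h5 : i = m q
        · rw [if_pos (by rw [h5]), h5, m.inv]
        · rw [if_neg (fun h => h5 (lb_inj h))]
          by_cases h6 : i = q
          · rw [if_pos (by rw [h6]), h6]
          · rw [if_neg (fun h => h6 (lb_inj h)), St.sw_apply,
              Equiv.swap_apply_of_ne_of_ne (hax i) (fun h => h6 (lb_inj h)), elb1,
              Equiv.swap_apply_of_ne_of_ne (hax _) (fun h => h5 (by rw [← lb_inj h, m.inv]))]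
    rw [h3, capF_cp F _ n1 n2 n3, h4, res_ext0, zero_add]

/-- The factorisation. -/
theorem Tt_pairs (q r : ι) (ps : List (ι × ι)) (hn : (fl ((q, r) :: ps)).Nodup) (v : ℂ) (U : ι → ℂ) (X : ℂ)
    (h0 : ∀ pr ∈ (q, r) :: ps, U pr.1 = v) (hX : ∀ pr ∈ (q, r) :: ps, v - U pr.2 = X) (F : St ι → ℂ) :
    Tt (fl ((q, r) :: ps)) v U F = (sin (2 * lam) * sin (3 * lam)) ^ (ps.length + 1) •
      Lay ((q, r) :: ps) X (fun m => F (rl (List.formPerm (((q, r) :: ps).map Prod.fst)) m)) := by
  rw [Tt_eq, Fo_pairs _ hn v U X h0 hX, cupF_smul, cupF_Lay, List.length_cons]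
  congr 2
  funext m
  have hq : (((q, r) :: ps).map fun pr => (lb pr.1 : Option (Option ι))) =
      (((q, r) :: ps).map Prod.fst).map (fun i => (lb i : Option (Option ι))) := by
    rw [List.map_map]
    rfl
  have hnd : (((q, r) :: ps).map Prod.fst).Nodup := nodup_fst hn
  rw [hq, List.map_cons (f := Prod.fst), sg_formPerm q _ hnd]
  have h1 : ∀ M : St (Option (Option ι)), capF F (rl ((oc (List.formPerm (q :: ps.map Prod.fst))).trans
      (Equiv.swap ax (lb q))) M) =
        (fun M' => capF F (M'.sw ax (lb q))) (rl (oc (List.formPerm (q :: ps.map Prod.fst))) M) := by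
    intro M
    simp only []
    rw [sw_eq_rl, rl_trans]
  rw [show (fun M => capF F (rl ((oc (List.formPerm (q :: ps.map Prod.fst))).trans
      (Equiv.swap ax (lb q))) M)) = fun M => (fun M' => capF F (M'.sw ax (lb q)))
        (rl (oc (List.formPerm (q :: ps.map Prod.fst))) M) from funext h1]
  exact (cupF_rl (List.formPerm (q :: ps.map Prod.fst)) (fun M' => capF F (M'.sw ax (lb q))) m).symm.trans
    (cup_sw_cap q F _)

end

end Pool.Agent.CYL
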