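import Mathlib

/-!
# Abstract Perron-Frobenius theorem for primitive nonnegative matrices (CYL, part P, item P4)

`Matrix.IsPrimitive A`: `A` has nonnegative entries and `A ^ k` has positive entries for some
`k > 0`.
-/

set_option autoImplicit false

namespace Pool.Agent.CYL

open Matrix Finset

set_option linter.unusedSectionVars false

variable {ι : Type*} [Fintype ι] [DecidableEq ι]

theorem pow_mulVec_eig {A : Matrix ι ι ℝ} {r : ℝ} {v : ι → ℝ} (h : A *ᵥ v = r • v) (k : ℕ) :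
    (A ^ k) *ᵥ v = r ^ k • v := by
  induction k with
  | zero => simp
  | succ k ih => rw [pow_succ, ← mulVec_mulVec, h, mulVec_smul, ih, smul_smul, pow_succ, mul_comm]

theorem mulVec_nonneg {A : Matrix ι ι ℝ} (hA : ∀ i j, 0 ≤ A i j) {u : ι → ℝ} (hu : ∀ i, 0 ≤ u i)
    (i : ι) : 0 ≤ (A *ᵥ u) i :=
  Finset.sum_nonneg fun j _ => mul_nonneg (hA i j) (hu j)

theorem mulVec_mono {A : Matrix ι ι ℝ} (hA : ∀ i j, 0 ≤ A i j) {u v : ι → ℝ} (h : ∀ i, u i ≤ v i)
    (i : ι) : (A *ᵥ u) i ≤ (A *ᵥ v) i :=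
  Finset.sum_le_sum fun j _ => mul_le_mul_of_nonneg_left (h j) (hA i j)

theorem mulVec_pos {A : Matrix ι ι ℝ} (hA : ∀ i j, 0 < A i j) {u : ι → ℝ} (hu : ∀ i, 0 ≤ u i)
    (hne : u ≠ 0) (i : ι) : 0 < (A *ᵥ u) i := by
  obtain ⟨j, hj⟩ : ∃ j, u j ≠ 0 := by
    by_contra h
    push Not at h
    exact hne (funext h)
  refine Finset.sum_pos' (fun j _ => mul_nonneg (hA i j).le (hu j)) ⟨j, Finset.mem_univ j, ?_⟩
  exact mul_pos (hA i j) (lt_of_le_of_ne (hu j) (Ne.symm hj))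

theorem pow_nonneg_entry {A : Matrix ι ι ℝ} (hA : ∀ i j, 0 ≤ A i j) (k : ℕ) (i j : ι) :
    0 ≤ (A ^ k) i j := pow_apply_nonneg hA k i j

/-- a primitive matrix maps nonzero nonnegative vectors eventually to positive ones -/
theorem IsPrimitive.pow_mulVec_pos {A : Matrix ι ι ℝ} (hA : A.IsPrimitive) {u : ι → ℝ}
    (hu : ∀ i, 0 ≤ u i) (hne : u ≠ 0) : ∃ k > 0, ∀ i, 0 < ((A ^ k) *ᵥ u) i := by
  obtain ⟨k, hk, h⟩ := hA.exists_pos_pow
  exact ⟨k, hk, fun i => mulVec_pos h hu hne i⟩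

/-- existence of the Perron-Frobenius eigenvector -/
theorem pf_exists [Nonempty ι] {A : Matrix ι ι ℝ} (hA : A.IsPrimitive) :
    ∃ (r : ℝ) (v : ι → ℝ), 0 < r ∧ (∀ i, 0 < v i) ∧ ∑ i, v i = 1 ∧ A *ᵥ v = r • v := by
  classical
  obtain ⟨S, hS⟩ : ∃ S : ℝ, S = ∑ i, ∑ j, A i j := ⟨_, rfl⟩
  have hS0 : 0 ≤ S := by
    rw [hS]
    exact Finset.sum_nonneg fun i _ => Finset.sum_nonneg fun j _ => hA.nonneg i j
  let K : Set (ℝ × (ι → ℝ)) :=
    {p | p.1 ∈ Set.Icc 0 S ∧ p.2 ∈ stdSimplex ℝ ι ∧ ∀ i, p.1 * p.2 i ≤ (A *ᵥ p.2) i}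
  have hKc : IsCompact K := by
    have h1 : K = (Set.Icc 0 S ×ˢ stdSimplex ℝ ι) ∩
        {p | ∀ i, p.1 * p.2 i ≤ (A *ᵥ p.2) i} := by
      ext p
      simp only [K, Set.mem_ofPred_eq, Set.mem_inter_iff, Set.mem_prod, and_assoc]
    rw [h1]
    refine (isCompact_Icc.prod (isCompact_stdSimplex ℝ ι)).inter_right ?_
    rw [Set.ofPred_forall]
    refine isClosed_iInter fun i => isClosed_le ?_ ?_
    · fun_prop
    · simp only [mulVec, dotProduct]
      fun_prop
  have hKne : K.Nonempty := by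
    obtain ⟨i₀⟩ := ‹Nonempty ι›
    refine ⟨(0, Pi.single i₀ 1), ⟨le_refl _, hS0⟩, single_mem_stdSimplex ℝ i₀, ?_⟩
    intro i
    simp only [zero_mul]
    exact mulVec_nonneg hA.nonneg (single_mem_stdSimplex ℝ i₀).1 i
  obtain ⟨⟨c, x⟩, hcx, hmax⟩ := hKc.exists_isMaxOn hKne continuous_fst.continuousOn
  obtain ⟨⟨hc0, hcS⟩, ⟨hx0, hx1⟩, hle⟩ := hcx
  simp only at hc0 hcS hx0 hx1 hle
  have hxne : x ≠ 0 := by
    rintro rfl
    simp at hx1
  obtain ⟨k, hk, hpow⟩ := hA.exists_pos_pow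
  -- any simplex vector `y` with `c y i < (A y) i` for all `i` contradicts maximality
  have hno : ∀ y : ι → ℝ, (∀ i, 0 < y i) → ¬ ∀ i, c * y i < (A *ᵥ y) i := by
    intro y hy hlt
    obtain ⟨T, hT⟩ : ∃ T : ℝ, T = ∑ i, y i := ⟨_, rfl⟩
    have hTpos : 0 < T := by
      rw [hT]
      exact Finset.sum_pos (fun i _ => hy i) Finset.univ_nonempty
    obtain ⟨i₀, hi₀⟩ := Finite.exists_min fun i => (A *ᵥ y) i / y i
    obtain ⟨d, hd⟩ : ∃ d : ℝ, d = (A *ᵥ y) i₀ / y i₀ := ⟨_, rfl⟩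
    have hcd : c < d := by
      rw [hd, lt_div_iff₀ (hy i₀)]
      exact hlt i₀
    have hd' : ∀ i, d * y i ≤ (A *ᵥ y) i := by
      intro i
      have := hi₀ i
      rw [← hd, le_div_iff₀ (hy i)] at this
      exact this
    have hmem : (d, T⁻¹ • y) ∈ K := by
      have hsimp : T⁻¹ • y ∈ stdSimplex ℝ ι := by
        refine ⟨fun i => ?_, ?_⟩
        · simp only [Pi.smul_apply, smul_eq_mul]
          exact mul_nonneg (inv_nonneg.2 hTpos.le) (hy i).le
        · simp only [Pi.smul_apply, smul_eq_mul]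
          rw [← Finset.mul_sum, ← hT, inv_mul_cancel₀ hTpos.ne']
      have hineq : ∀ i, d * (T⁻¹ • y) i ≤ (A *ᵥ (T⁻¹ • y)) i := by
        intro i
        rw [mulVec_smul]
        simp only [Pi.smul_apply, smul_eq_mul]
        have := mul_le_mul_of_nonneg_left (hd' i) (inv_nonneg.2 hTpos.le)
        linarith
      refine ⟨⟨hc0.trans hcd.le, ?_⟩, hsimp, hineq⟩
      have h2 : ∑ i, d * (T⁻¹ • y) i ≤ ∑ i, (A *ᵥ (T⁻¹ • y)) i :=
        Finset.sum_le_sum fun i _ => hineq i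
      rw [← Finset.mul_sum, hsimp.2, mul_one] at h2
      refine h2.trans ?_
      rw [hS]
      refine Finset.sum_le_sum fun i _ => ?_
      refine Finset.sum_le_sum fun j _ => ?_
      have h3 : (T⁻¹ • y) j ≤ 1 := by
        rw [← hsimp.2]
        exact Finset.single_le_sum (f := fun j => (T⁻¹ • y) j) (fun j _ => hsimp.1 j)
          (Finset.mem_univ j)
      have h4 := mul_le_mul_of_nonneg_left h3 (hA.nonneg i j)
      linarith
    have := hmax hmem
    simp only [Set.mem_ofPred_eq] at this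
    exact absurd (lt_of_lt_of_le hcd this) (lt_irrefl _)
  -- `A x = c x`
  have heq : A *ᵥ x = c • x := by
    by_contra hne
    have h1 : A *ᵥ x - c • x ≠ 0 := sub_ne_zero.2 hne
    have h2 : ∀ i, 0 ≤ (A *ᵥ x - c • x) i := by
      intro i
      simp only [Pi.sub_apply, Pi.smul_apply, smul_eq_mul]
      linarith [hle i]
    have h3 := mulVec_pos hpow h2 h1
    refine hno ((A ^ k) *ᵥ x) (mulVec_pos hpow hx0 hxne) fun i => ?_
    have h4 := h3 i
    rw [mulVec_sub, mulVec_smul] at h4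
    simp only [Pi.sub_apply, Pi.smul_apply, smul_eq_mul] at h4
    have h5 : A *ᵥ ((A ^ k) *ᵥ x) = (A ^ k) *ᵥ (A *ᵥ x) := by
      rw [mulVec_mulVec, mulVec_mulVec, ← pow_succ, ← pow_succ']
    rw [h5]
    linarith
  have hpos : ∀ i, 0 < c ^ k * x i := by
    intro i
    have h1 := mulVec_pos hpow hx0 hxne i
    rw [pow_mulVec_eig heq] at h1
    simpa using h1
  have hc : 0 < c := by
    obtain ⟨i₀⟩ := ‹Nonempty ι›
    rcases hc0.lt_or_eq with h | h
    · exact h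
    · exfalso
      have := hpos i₀
      rw [← h, zero_pow hk.ne', zero_mul] at this
      exact lt_irrefl _ this
  refine ⟨c, x, hc, fun i => ?_, hx1, heq⟩
  exact (mul_pos_iff_of_pos_left (pow_pos hc k)).1 (hpos i)

/-- the eigenspace of the Perron-Frobenius eigenvalue is one dimensional -/
theorem pf_unique {A : Matrix ι ι ℝ} (hA : A.IsPrimitive) {r : ℝ} {v u : ι → ℝ}
    (hv : ∀ i, 0 < v i) (hAv : A *ᵥ v = r • v) (hAu : A *ᵥ u = r • u) :
    ∃ c : ℝ, u = c • v := by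
  rcases isEmpty_or_nonempty ι with he | hne
  · exact ⟨0, funext fun i => he.elim i⟩
  obtain ⟨k, hk, hpow⟩ := hA.exists_pos_pow
  obtain ⟨i₀, hi₀⟩ := Finite.exists_min fun i => u i / v i
  obtain ⟨c, hc⟩ : ∃ c : ℝ, c = u i₀ / v i₀ := ⟨_, rfl⟩
  have h0 : ∀ i, 0 ≤ (u - c • v) i := by
    intro i
    have h1 := hi₀ i
    rw [← hc, le_div_iff₀ (hv i)] at h1
    simp only [Pi.sub_apply, Pi.smul_apply, smul_eq_mul]
    linarith
  have h1 : (u - c • v) i₀ = 0 := by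
    simp only [Pi.sub_apply, Pi.smul_apply, smul_eq_mul]
    rw [hc, div_mul_cancel₀ _ (hv i₀).ne', sub_self]
  have h2 : A *ᵥ (u - c • v) = r • (u - c • v) := by
    rw [mulVec_sub, mulVec_smul, hAu, hAv, smul_sub, smul_comm]
  refine ⟨c, ?_⟩
  by_contra hne'
  have h3 := mulVec_pos hpow h0 (sub_ne_zero.2 hne') i₀
  rw [pow_mulVec_eig h2, Pi.smul_apply, h1, smul_zero] at h3
  exact lt_irrefl _ h3

/-- nonnegative nonzero eigenvectors are positive, with positive eigenvalue -/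
theorem pf_pos {A : Matrix ι ι ℝ} (hA : A.IsPrimitive) {s : ℝ} {u : ι → ℝ}
    (hu : ∀ i, 0 ≤ u i) (hne : u ≠ 0) (hAu : A *ᵥ u = s • u) : 0 < s ∧ ∀ i, 0 < u i := by
  obtain ⟨k, hk, hpow⟩ := hA.exists_pos_pow
  have h1 := mulVec_pos hpow hu hne
  rw [pow_mulVec_eig hAu] at h1
  simp only [Pi.smul_apply, smul_eq_mul] at h1
  have hupos : ∀ i, 0 < u i := by
    intro i
    refine lt_of_le_of_ne (hu i) fun h => ?_
    have := h1 i
    rw [← h, mul_zero] at this
    exact lt_irrefl _ this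
  obtain ⟨i, -⟩ : ∃ i, u i ≠ 0 := by
    by_contra h
    push Not at h
    exact hne (funext h)
  have h2 : 0 ≤ s * u i := by
    have := mulVec_nonneg hA.nonneg hu i
    rwa [hAu, Pi.smul_apply, smul_eq_mul] at this
  have h3 : 0 ≤ s := nonneg_of_mul_nonneg_left h2 (hupos i)
  refine ⟨lt_of_le_of_ne h3 fun h => ?_, hupos⟩
  have := h1 i
  rw [← h, zero_pow hk.ne', zero_mul] at this
  exact lt_irrefl _ this

/-- comparison of eigenvalues -/
theorem pf_le {A : Matrix ι ι ℝ} (hA : ∀ i j, 0 ≤ A i j) [Nonempty ι] {r s : ℝ} {v u : ι → ℝ}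
    (hv : ∀ i, 0 < v i) (hu : ∀ i, 0 < u i) (hAv : A *ᵥ v = r • v) (hAu : A *ᵥ u = s • u) :
    r ≤ s := by
  obtain ⟨i₀, hi₀⟩ := Finite.exists_min fun i => u i / v i
  obtain ⟨c, hc⟩ : ∃ c : ℝ, c = u i₀ / v i₀ := ⟨_, rfl⟩
  have h0 : ∀ i, (c • v) i ≤ u i := by
    intro i
    have h1 := hi₀ i
    rw [← hc, le_div_iff₀ (hv i)] at h1
    simpa using h1
  have h1 : c * v i₀ = u i₀ := by rw [hc, div_mul_cancel₀ _ (hv i₀).ne']
  have h2 := mulVec_mono hA h0 i₀
  rw [mulVec_smul, hAv, hAu] at h2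
  simp only [Pi.smul_apply, smul_eq_mul] at h2
  have h3 : r * u i₀ ≤ s * u i₀ := by
    calc r * u i₀ = c * (r * v i₀) := by rw [← h1]; ring
      _ ≤ s * u i₀ := h2
  exact le_of_mul_le_mul_right h3 (hu i₀)

/-- every nonzero nonnegative eigenvector is the Perron-Frobenius eigenvector -/
theorem pf_eig {A : Matrix ι ι ℝ} (hA : A.IsPrimitive) {r s : ℝ} {v u : ι → ℝ}
    (hv : ∀ i, 0 < v i) (hAv : A *ᵥ v = r • v) (hu : ∀ i, 0 ≤ u i) (hne : u ≠ 0)
    (hAu : A *ᵥ u = s • u) : s = r ∧ ∃ c : ℝ, 0 < c ∧ u = c • v := by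
  obtain ⟨i, -⟩ : ∃ i, u i ≠ 0 := by
    by_contra h
    push Not at h
    exact hne (funext h)
  have : Nonempty ι := ⟨i⟩
  obtain ⟨hs, hu'⟩ := pf_pos hA hu hne hAu
  have hsr : s = r := le_antisymm (pf_le hA.nonneg hu' hv hAu hAv) (pf_le hA.nonneg hv hu' hAv hAu)
  refine ⟨hsr, ?_⟩
  obtain ⟨c, hc⟩ := pf_unique hA hv hAv (hsr ▸ hAu)
  refine ⟨c, ?_, hc⟩
  have := hu' i
  rw [hc] at this
  simp only [Pi.smul_apply, smul_eq_mul] at this
  exact pos_of_mul_pos_left this (hv i).le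

/-- complex eigenvectors of the Perron-Frobenius eigenvalue -/
theorem pf_unique_complex {A : Matrix ι ι ℝ} (hA : A.IsPrimitive) {r : ℝ} {v : ι → ℝ}
    {u : ι → ℂ} (hv : ∀ i, 0 < v i) (hAv : A *ᵥ v = r • v)
    (hAu : A.map (Complex.ofReal) *ᵥ u = (r : ℂ) • u) :
    ∃ c : ℂ, u = c • fun i => (v i : ℂ) := by
  have hre : A *ᵥ (fun i => (u i).re) = r • fun i => (u i).re := by
    funext i
    have h := congrArg Complex.re (congrFun hAu i)
    simpa [mulVec, dotProduct] using h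
  have him : A *ᵥ (fun i => (u i).im) = r • fun i => (u i).im := by
    funext i
    have h := congrArg Complex.im (congrFun hAu i)
    simpa [mulVec, dotProduct] using h
  obtain ⟨a, ha⟩ := pf_unique hA hv hAv hre
  obtain ⟨b, hb⟩ := pf_unique hA hv hAv him
  refine ⟨⟨a, b⟩, funext fun i => ?_⟩
  have h1 := congrFun ha i
  have h2 := congrFun hb i
  simp only [Pi.smul_apply, smul_eq_mul] at h1 h2 ⊢
  apply Complex.ext
  · simpa using h1
  · simpa using h2

/-- a complex matrix commuting with a primitive real matrix has the Perron-Frobenius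
eigenvector as an eigenvector -/
theorem pf_comm {A : Matrix ι ι ℝ} (hA : A.IsPrimitive) {r : ℝ} {v : ι → ℝ}
    (hv : ∀ i, 0 < v i) (hAv : A *ᵥ v = r • v) {B : Matrix ι ι ℂ}
    (hB : B * A.map (Complex.ofReal) = A.map (Complex.ofReal) * B) :
    ∃ t : ℂ, B *ᵥ (fun i => (v i : ℂ)) = t • fun i => (v i : ℂ) := by
  apply pf_unique_complex hA hv hAv
  have h1 : A.map (Complex.ofReal) *ᵥ (fun i => (v i : ℂ)) = (r : ℂ) • fun i => (v i : ℂ) := by
    funext i
    have h := congrFun hAv i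
    simp only [mulVec, dotProduct, Pi.smul_apply, smul_eq_mul, Matrix.map_apply] at h ⊢
    exact_mod_cast h
  rw [mulVec_mulVec, ← hB, ← mulVec_mulVec, h1, mulVec_smul]

/-- upper bound for the entries of the powers -/
theorem pf_entry_le {A : Matrix ι ι ℝ} (hA : ∀ i j, 0 ≤ A i j) {r : ℝ} {v : ι → ℝ}
    (hv : ∀ i, 0 < v i) (hAv : A *ᵥ v = r • v) (N : ℕ) (i j : ι) :
    (A ^ N) i j ≤ r ^ N * (v i / v j) := by
  have h1 := congrFun (pow_mulVec_eig hAv N) i
  simp only [Pi.smul_apply, smul_eq_mul] at h1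
  have h2 : (A ^ N) i j * v j ≤ ((A ^ N) *ᵥ v) i :=
    Finset.single_le_sum (f := fun j => (A ^ N) i j * v j)
      (fun l _ => mul_nonneg (pow_nonneg_entry hA N i l) (hv l).le) (Finset.mem_univ j)
  rw [h1] at h2
  rw [← mul_div_assoc, le_div_iff₀ (hv j)]
  exact h2

/-- two sided bound for the entries of the powers of a primitive matrix -/
theorem pf_growth [Nonempty ι] {A : Matrix ι ι ℝ} (hA : A.IsPrimitive) {r : ℝ} {v : ι → ℝ}
    (hr : 0 < r) (hv : ∀ i, 0 < v i) (hAv : A *ᵥ v = r • v) :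
    ∃ (N₀ : ℕ) (c C : ℝ), 0 < c ∧ 0 < C ∧
      (∀ N i j, (A ^ N) i j ≤ C * r ^ N) ∧ ∀ N, N₀ ≤ N → ∀ i j, c * r ^ N ≤ (A ^ N) i j := by
  obtain ⟨k, hk, hpow⟩ := hA.exists_pos_pow
  -- smallest entry of `A ^ k`
  obtain ⟨⟨a, b⟩, hab⟩ := Finite.exists_min fun p : ι × ι => (A ^ k) p.1 p.2
  obtain ⟨d, hd⟩ : ∃ d : ℝ, d = (A ^ k) a b := ⟨_, rfl⟩
  have hd0 : 0 < d := hd ▸ hpow a b
  have hdle : ∀ i j, d ≤ (A ^ k) i j := fun i j => hd ▸ hab (i, j)
  obtain ⟨m, hm⟩ := Finite.exists_max v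
  obtain ⟨n, hn⟩ := Finite.exists_min v
  refine ⟨2 * k, d * d * (r ^ (2 * k))⁻¹, v m / v n, ?_, div_pos (hv m) (hv n), ?_, ?_⟩
  · positivity
  · intro N i j
    refine (pf_entry_le hA.nonneg hv hAv N i j).trans ?_
    rw [mul_comm (v m / v n)]
    refine mul_le_mul_of_nonneg_left ?_ (pow_pos hr N).le
    exact div_le_div₀ (hv m).le (hm i) (hv n) (hn j)
  · intro N hN i j
    obtain ⟨M, rfl⟩ := Nat.exists_eq_add_of_le hN
    have h1 : A ^ (2 * k + M) = A ^ k * (A ^ M * A ^ k) := by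
      rw [← pow_add, ← pow_add]
      congr 1
      omega
    rw [h1, mul_apply]
    have h2 : ∀ l, ∑ l', (A ^ M) l l' * d ≤ (A ^ M * A ^ k) l j := by
      intro l
      rw [mul_apply]
      exact Finset.sum_le_sum fun l' _ =>
        mul_le_mul_of_nonneg_left (hdle l' j) (pow_nonneg_entry hA.nonneg M l l')
    have h3 : r ^ M ≤ ∑ l', (A ^ M) m l' := by
      have h4 := congrFun (pow_mulVec_eig hAv M) m
      simp only [Pi.smul_apply, smul_eq_mul] at h4
      have h5 : ((A ^ M) *ᵥ v) m ≤ (∑ l', (A ^ M) m l') * v m := by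
        rw [Finset.sum_mul]
        exact Finset.sum_le_sum fun l' _ =>
          mul_le_mul_of_nonneg_left (hm l') (pow_nonneg_entry hA.nonneg M m l')
      rw [h4] at h5
      exact le_of_mul_le_mul_right h5 (hv m)
    have h6 : (A ^ k) i m * (A ^ M * A ^ k) m j ≤ ∑ l, (A ^ k) i l * (A ^ M * A ^ k) l j :=
      Finset.single_le_sum (f := fun l => (A ^ k) i l * (A ^ M * A ^ k) l j)
        (fun l _ => mul_nonneg (pow_nonneg_entry hA.nonneg k i l) (by
          refine le_trans ?_ (h2 l)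
          exact Finset.sum_nonneg fun l' _ =>
            mul_nonneg (pow_nonneg_entry hA.nonneg M l l') hd0.le)) (Finset.mem_univ m)
    refine le_trans ?_ h6
    have h7 : d * r ^ M ≤ (A ^ M * A ^ k) m j := by
      refine le_trans ?_ (h2 m)
      rw [← Finset.sum_mul, mul_comm d]
      exact mul_le_mul_of_nonneg_right h3 hd0.le
    calc d * d * (r ^ (2 * k))⁻¹ * r ^ (2 * k + M) = d * (d * r ^ M) := by
          rw [pow_add]
          field_simp
      _ ≤ (A ^ k) i m * (A ^ M * A ^ k) m j :=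
          mul_le_mul (hdle i m) h7 (by positivity) (hpow i m).le

/-- the exponential growth rate of (sums of) entries of the powers -/
theorem pf_limit [Nonempty ι] {A : Matrix ι ι ℝ} (hA : A.IsPrimitive) {r : ℝ} {v : ι → ℝ}
    (hr : 0 < r) (hv : ∀ i, 0 < v i) (hAv : A *ᵥ v = r • v) {a : ℕ → ℝ} {S T : Finset ι}
    (hS : S.Nonempty) (hT : T.Nonempty) (ha : ∀ N, a N = ∑ i ∈ S, ∑ j ∈ T, (A ^ N) i j) :
    ∃ (N₀ : ℕ) (c C : ℝ), 0 < c ∧ 0 < C ∧ (∀ N, a N ≤ C * r ^ N) ∧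
      ∀ N, N₀ ≤ N → c * r ^ N ≤ a N := by
  obtain ⟨N₀, c, C, hc, hC, h1, h2⟩ := pf_growth hA hr hv hAv
  refine ⟨N₀, c, (S.card : ℝ) * (T.card * C), hc, ?_, fun N => ?_, fun N hN => ?_⟩
  · have := hS.card_pos
    have := hT.card_pos
    positivity
  · rw [ha]
    calc ∑ i ∈ S, ∑ j ∈ T, (A ^ N) i j ≤ ∑ i ∈ S, ∑ j ∈ T, C * r ^ N :=
          Finset.sum_le_sum fun i _ => Finset.sum_le_sum fun j _ => h1 N i j
      _ = (S.card : ℝ) * (T.card * C) * r ^ N := by
          simp only [Finset.sum_const, nsmul_eq_mul]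
          ring
  · rw [ha]
    obtain ⟨i, hi⟩ := hS
    obtain ⟨j, hj⟩ := hT
    calc c * r ^ N ≤ (A ^ N) i j := h2 N hN i j
      _ ≤ ∑ j ∈ T, (A ^ N) i j :=
          Finset.single_le_sum (f := fun j => (A ^ N) i j)
            (fun l _ => pow_nonneg_entry hA.nonneg N i l) hj
      _ ≤ ∑ i ∈ S, ∑ j ∈ T, (A ^ N) i j :=
          Finset.single_le_sum (f := fun i => ∑ j ∈ T, (A ^ N) i j)
            (fun l _ => Finset.sum_nonneg fun l' _ => pow_nonneg_entry hA.nonneg N l l') hi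

/-! ### the normalised eigenvector as a function of the matrix -/

open Classical in
/-- the normalised Perron-Frobenius eigenvector (junk value `0` if `A` is not primitive) -/
noncomputable def pfVec (A : Matrix ι ι ℝ) : ι → ℝ :=
  if h : Nonempty ι ∧ A.IsPrimitive then
    haveI := h.1
    (pf_exists h.2).choose_spec.choose
  else 0

/-- the Perron-Frobenius eigenvalue: the sum of the entries of `A v`, `v` normalised -/
noncomputable def pfVal (A : Matrix ι ι ℝ) : ℝ := ∑ i, (A *ᵥ pfVec A) i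

section
variable [Nonempty ι] {A : Matrix ι ι ℝ}

theorem pfVec_spec (hA : A.IsPrimitive) :
    0 < pfVal A ∧ (∀ i, 0 < pfVec A i) ∧ ∑ i, pfVec A i = 1 ∧ A *ᵥ pfVec A = pfVal A • pfVec A := by
  have h1 : pfVec A = (pf_exists hA).choose_spec.choose := by
    unfold pfVec
    rw [dif_pos ⟨‹_›, hA⟩]
  have h2 := (pf_exists hA).choose_spec.choose_spec
  rw [← h1] at h2
  obtain ⟨h3, h4, h5, h6⟩ := h2
  have h7 : pfVal A = (pf_exists hA).choose := by
    unfold pfVal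
    rw [h6]
    simp only [Pi.smul_apply, smul_eq_mul]
    rw [← Finset.mul_sum, h5, mul_one]
  rw [h7]
  exact ⟨h3, h4, h5, h6⟩

theorem pfVal_pos (hA : A.IsPrimitive) : 0 < pfVal A := (pfVec_spec hA).1

theorem pfVec_pos (hA : A.IsPrimitive) (i : ι) : 0 < pfVec A i := (pfVec_spec hA).2.1 i

theorem sum_pfVec (hA : A.IsPrimitive) : ∑ i, pfVec A i = 1 := (pfVec_spec hA).2.2.1

theorem mulVec_pfVec (hA : A.IsPrimitive) : A *ᵥ pfVec A = pfVal A • pfVec A :=
  (pfVec_spec hA).2.2.2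

/-- a nonnegative eigenvector with sum `1` is `pfVec A` -/
theorem eq_pfVec (hA : A.IsPrimitive) {s : ℝ} {u : ι → ℝ} (hu : ∀ i, 0 ≤ u i)
    (hsum : ∑ i, u i = 1) (hAu : A *ᵥ u = s • u) : u = pfVec A ∧ s = pfVal A := by
  have hne : u ≠ 0 := by
    rintro rfl
    simp at hsum
  obtain ⟨h1, c, -, h2⟩ := pf_eig hA (pfVec_pos hA) (mulVec_pfVec hA) hu hne hAu
  refine ⟨?_, h1⟩
  have h3 : c = 1 := by
    have h4 := hsum
    rw [h2] at h4
    simp only [Pi.smul_apply, smul_eq_mul] at h4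
    rw [← Finset.mul_sum, sum_pfVec hA, mul_one] at h4
    exact h4
  rw [h2, h3, one_smul]

/-- invariance of the eigenvector under a symmetry of the matrix -/
theorem pfVec_comp (hA : A.IsPrimitive) (σ : ι ≃ ι) (hσ : ∀ i j, A (σ i) (σ j) = A i j) (i : ι) :
    pfVec A (σ i) = pfVec A i := by
  have h1 : A *ᵥ (fun i => pfVec A (σ i)) = pfVal A • fun i => pfVec A (σ i) := by
    funext i
    have h2 := congrFun (mulVec_pfVec hA) (σ i)
    simp only [mulVec, dotProduct, Pi.smul_apply, smul_eq_mul] at h2 ⊢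
    rw [← h2, ← Equiv.sum_comp σ (fun j => A (σ i) j * pfVec A j)]
    exact Finset.sum_congr rfl fun j _ => by rw [hσ]
  have h3 := (eq_pfVec hA (fun i => (pfVec_pos hA (σ i)).le)
    (by rw [Equiv.sum_comp σ (pfVec A)]; exact sum_pfVec hA) h1).1
  exact congrFun h3 i

end

/-- a family of maps into a compact set with closed graph is continuous -/
theorem continuous_of_graph {X Y : Type*} [TopologicalSpace X] [TopologicalSpace Y]
    {K : Set Y} (hK : IsCompact K) {f : X → Y} (hf : ∀ x, f x ∈ K)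
    (hgr : IsClosed {p : X × Y | p.2 = f p.1}) : Continuous f := by
  rw [continuous_iff_isClosed]
  intro F hF
  have : CompactSpace K := isCompact_iff_compactSpace.1 hK
  have h1 : IsClosed {p : X × K | (p.2 : Y) = f p.1 ∧ (p.2 : Y) ∈ F} := by
    have h2 : Continuous fun p : X × K => ((p.1, (p.2 : Y)) : X × Y) := by fun_prop
    exact (hgr.preimage h2).inter (hF.preimage (by fun_prop))
  have h3 := isClosedMap_fst_of_compactSpace (X := X) (Y := K) _ h1
  convert h3 using 1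
  ext x
  simp only [Set.mem_preimage, Set.mem_image]
  constructor
  · intro hx
    exact ⟨(x, ⟨f x, hf x⟩), ⟨rfl, hx⟩, rfl⟩
  · rintro ⟨⟨x', y⟩, ⟨h4, h5⟩, rfl⟩
    simp only at h4 h5 ⊢
    rwa [← h4]

/-- the normalised eigenvector depends continuously on the matrix -/
theorem continuous_pfVec [Nonempty ι] {X : Type*} [TopologicalSpace X] {A : X → Matrix ι ι ℝ}
    (hc : Continuous A) (hA : ∀ x, (A x).IsPrimitive) : Continuous fun x => pfVec (A x) := by
  refine continuous_of_graph (isCompact_stdSimplex ℝ ι)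
    (fun x => ⟨fun i => (pfVec_pos (hA x) i).le, sum_pfVec (hA x)⟩) ?_
  have h1 : {p : X × (ι → ℝ) | p.2 = pfVec (A p.1)} =
      {p : X × (ι → ℝ) | p.2 ∈ stdSimplex ℝ ι} ∩
        {p | A p.1 *ᵥ p.2 = (∑ i, (A p.1 *ᵥ p.2) i) • p.2} := by
    ext p
    simp only [Set.mem_ofPred_eq, Set.mem_inter_iff]
    constructor
    · intro h
      refine ⟨?_, ?_⟩
      · rw [h]
        exact ⟨fun i => (pfVec_pos (hA p.1) i).le, sum_pfVec (hA p.1)⟩
      · rw [h]
        exact mulVec_pfVec (hA p.1)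
    · rintro ⟨h, h'⟩
      exact (eq_pfVec (hA p.1) h.1 h.2 h').1
  rw [h1]
  refine IsClosed.inter ?_ ?_
  · have h2 : IsClosed (stdSimplex ℝ ι) := (isCompact_stdSimplex ℝ ι).isClosed
    exact h2.preimage (continuous_snd : Continuous (Prod.snd : X × (ι → ℝ) → ι → ℝ))
  · have h2 : Continuous fun p : X × (ι → ℝ) => A p.1 *ᵥ p.2 :=
      (hc.comp continuous_fst).matrix_mulVec continuous_snd
    refine isClosed_eq h2 ?_
    have h3 : Continuous fun p : X × (ι → ℝ) => ∑ i, (A p.1 *ᵥ p.2) i :=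
      continuous_finsetSum _ fun i _ => (continuous_apply i).comp h2
    exact h3.smul continuous_snd

theorem continuous_pfVal [Nonempty ι] {X : Type*} [TopologicalSpace X] {A : X → Matrix ι ι ℝ}
    (hc : Continuous A) (hA : ∀ x, (A x).IsPrimitive) : Continuous fun x => pfVal (A x) := by
  have h2 : Continuous fun x => A x *ᵥ pfVec (A x) :=
    hc.matrix_mulVec (continuous_pfVec hc hA)
  exact continuous_finsetSum _ fun i _ => (continuous_apply i).comp h2

theorem continuousOn_pfVec [Nonempty ι] {X : Type*} [TopologicalSpace X] {s : Set X}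
    {A : X → Matrix ι ι ℝ} (hc : ContinuousOn A s) (hA : ∀ x ∈ s, (A x).IsPrimitive) :
    ContinuousOn (fun x => pfVec (A x)) s := by
  rw [continuousOn_iff_continuous_domRestrict] at hc ⊢
  exact continuous_pfVec hc fun x => hA x.1 x.2

theorem continuousOn_pfVal [Nonempty ι] {X : Type*} [TopologicalSpace X] {s : Set X}
    {A : X → Matrix ι ι ℝ} (hc : ContinuousOn A s) (hA : ∀ x ∈ s, (A x).IsPrimitive) :
    ContinuousOn (fun x => pfVal (A x)) s := by
  rw [continuousOn_iff_continuous_domRestrict] at hc ⊢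
  exact continuous_pfVal hc fun x => hA x.1 x.2

/-- limits of eigenvectors: if `A x → A₀` along a filter, `u x` is a nonnegative eigenvector of
`A x` with sum `1`, then some cluster point `u₀` of `u` is a nonnegative eigenvector of `A₀` with
sum `1` (sequence form) -/
theorem pf_subseq {A : ℕ → Matrix ι ι ℝ} {A₀ : Matrix ι ι ℝ}
    (hlim : Filter.Tendsto A Filter.atTop (nhds A₀)) {u : ℕ → ι → ℝ} {s : ℕ → ℝ}
    (hu : ∀ n i, 0 ≤ u n i) (hsum : ∀ n, ∑ i, u n i = 1) (hA : ∀ n, A n *ᵥ u n = s n • u n) :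
    ∃ (φ : ℕ → ℕ) (u₀ : ι → ℝ) (s₀ : ℝ), StrictMono φ ∧
      Filter.Tendsto (fun n => u (φ n)) Filter.atTop (nhds u₀) ∧
      Filter.Tendsto (fun n => s (φ n)) Filter.atTop (nhds s₀) ∧
      (∀ i, 0 ≤ u₀ i) ∧ ∑ i, u₀ i = 1 ∧ A₀ *ᵥ u₀ = s₀ • u₀ := by
  obtain ⟨u₀, hu₀, φ, hφ, hφu⟩ := (isCompact_stdSimplex ℝ ι).tendsto_subseq
    (x := u) (fun n => ⟨hu n, hsum n⟩)
  have h1 : Filter.Tendsto (fun n => A (φ n) *ᵥ u (φ n)) Filter.atTop (nhds (A₀ *ᵥ u₀)) := by
    have h2 : Continuous fun p : Matrix ι ι ℝ × (ι → ℝ) => p.1 *ᵥ p.2 :=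
      continuous_fst.matrix_mulVec continuous_snd
    exact (h2.tendsto (A₀, u₀)).comp ((hlim.comp hφ.tendsto_atTop).prodMk_nhds hφu)
  have hs : ∀ n, s n = ∑ i, (A n *ᵥ u n) i := by
    intro n
    rw [hA]
    simp only [Pi.smul_apply, smul_eq_mul]
    rw [← Finset.mul_sum, hsum, mul_one]
  have h3 : Filter.Tendsto (fun n => s (φ n)) Filter.atTop (nhds (∑ i, (A₀ *ᵥ u₀) i)) := by
    have h4 : (fun n => s (φ n)) = fun n => ∑ i, (A (φ n) *ᵥ u (φ n)) i := by
      funext n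
      exact hs _
    rw [h4]
    exact tendsto_finsetSum _ fun i _ => (tendsto_pi_nhds.1 h1) i
  refine ⟨φ, u₀, _, hφ, hφu, h3, hu₀.1, hu₀.2, ?_⟩
  refine tendsto_nhds_unique h1 ?_
  have h5 : (fun n => A (φ n) *ᵥ u (φ n)) = fun n => s (φ n) • u (φ n) := by
    funext n
    exact hA _
  rw [h5]
  exact h3.smul hφu

end Pool.Agent.CYL
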