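import Pool.Agent.CYL.P.Cl

/-!
# CYL, part PF: arcless states

`Arcless m` implies `NC m` for `l ≤ 3`; there is an arcless state for `l ≤ L`; so the class is not
empty.
-/

set_option autoImplicit false

namespace Pool.Agent.CYL

open Pool.Agent.BEX

variable {L l : ℕ}

/-- in an arcless state an occupied site is joined to a point at infinity -/
theorem Arcless.inr_of {m : Sts L l} (h : Arcless m) {i : Fin L}
    (hi : m (Sum.inl i) ≠ Sum.inl i) : ∃ j, m (Sum.inl i) = Sum.inr j := by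
  rcases hx : m (Sum.inl i) with k | j
  · have h1 := h.2 i k hx
    rw [← h1] at hx
    exact absurd hx hi
  · exact ⟨j, rfl⟩

theorem Arcless.jnd {m : Sts L l} (h : Arcless m) {i k : Fin L} (hj : Jnd m i k) :
    i ≠ k ∧ (∃ j, m (Sum.inl i) = Sum.inr j) ∧ ∃ j, m (Sum.inl k) = Sum.inr j := by
  obtain ⟨h1, h2 | ⟨j, j', -, h3, h4⟩⟩ := hj
  · exact absurd (h.2 i k h2) h1
  · exact ⟨h1, ⟨j, h3⟩, ⟨j', h4⟩⟩

theorem Arcless.nc {m : Sts L l} (h : Arcless m) (hl : l ≤ 3) : NC m := by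
  intro i j k n hij hjk hkn ⟨h1, h2⟩
  obtain ⟨-, ⟨a, ha⟩, ⟨c, hc⟩⟩ := h.jnd h1
  obtain ⟨-, ⟨b, hb⟩, ⟨d, hd⟩⟩ := h.jnd h2
  -- the map `![i,j,k,n] ↦ ![a,b,c,d]` is injective
  have key : ∀ {x y : Fin L} {u w : Fin l}, m (Sum.inl x) = Sum.inr u → m (Sum.inl y) = Sum.inr w →
      x ≠ y → u ≠ w := by
    intro x y u w hx hy hne huw
    rw [huw] at hx
    exact hne (Sum.inl_injective (m.inj (hx.trans hy.symm)))
  have hab := key ha hb hij.ne
  have hac := key ha hc (hij.trans hjk).ne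
  have had := key ha hd ((hij.trans hjk).trans hkn).ne
  have hbc := key hb hc hjk.ne
  have hbd := key hb hd (hjk.trans hkn).ne
  have hcd := key hc hd hkn.ne
  have e := a.isLt
  have e2 := b.isLt
  have e3 := c.isLt
  have e4 := d.isLt
  have f1 : a.val ≠ b.val := fun h => hab (Fin.ext h)
  have f2 : a.val ≠ c.val := fun h => hac (Fin.ext h)
  have f3 : a.val ≠ d.val := fun h => had (Fin.ext h)
  have f4 : b.val ≠ c.val := fun h => hbc (Fin.ext h)
  have f5 : b.val ≠ d.val := fun h => hbd (Fin.ext h)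
  have f6 : c.val ≠ d.val := fun h => hcd (Fin.ext h)
  omega

theorem Arcless.cls {m : Sts L l} (h : Arcless m) (hl : l ≤ 3) : Cls m := ⟨h.1, h.nc hl⟩

/-- underlying function of the standard arcless state -/
def stdf (h : l ≤ L) : Lb L l → Lb L l
  | Sum.inl i => if hi : i.val < l then Sum.inr ⟨i.val, hi⟩ else Sum.inl i
  | Sum.inr j => Sum.inl (Fin.castLE h j)

/-- the standard arcless state: the through-legs are at the sites `0, .., l-1` -/
def stdm (h : l ≤ L) : Sts L l := ⟨stdf h, by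
  rintro (i | j)
  · by_cases hi : i.val < l
    · simp [stdf, hi]
    · simp [stdf, hi]
  · simp [stdf]⟩

theorem stdm_inr (h : l ≤ L) (j : Fin l) : stdm h (Sum.inr j) = Sum.inl (Fin.castLE h j) := rfl

theorem stdm_inl_lt (h : l ≤ L) {i : Fin L} (hi : i.val < l) :
    stdm h (Sum.inl i) = Sum.inr ⟨i.val, hi⟩ := dif_pos hi

theorem stdm_inl_ge (h : l ≤ L) {i : Fin L} (hi : ¬ i.val < l) :
    stdm h (Sum.inl i) = Sum.inl i := dif_neg hi

theorem arcless_stdm (h : l ≤ L) : Arcless (stdm h) := by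
  refine ⟨fun j => ⟨Fin.castLE h j, stdm_inr h j⟩, fun i k hik => ?_⟩
  by_cases hi : i.val < l
  · rw [stdm_inl_lt h hi] at hik
    exact absurd hik (by simp)
  · rw [stdm_inl_ge h hi] at hik
    exact Sum.inl_injective hik

theorem exists_arcless (h : l ≤ L) (hl : l ≤ 3) : ∃ m : Sts L l, Arcless m ∧ Cls m :=
  ⟨stdm h, arcless_stdm h, (arcless_stdm h).cls hl⟩

theorem nonempty_Kc (h : l ≤ L) (hl : l ≤ 3) : Nonempty (Kc L l) :=
  ⟨⟨stdm h, (arcless_stdm h).cls hl⟩⟩

end Pool.Agent.CYL
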