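import Pool.Agent.CYL.P.Nc
import Pool.Agent.CYL.P.Cl

set_option autoImplicit false

/-!
# CYL, part P, item P2: planarity of the class of the `l`-leg sector, `l ≤ 2`

`pla`: `T(v; U)` preserves the functions supported on the `Chi`-states, and those which vanish on the class.
-/

namespace Pool.Agent.CYL.Pn

open Pool.Agent.BEX Pool.Agent.BEX.Far

section Chi

variable {κ : Type*} [DecidableEq κ]

/-- some point at infinity is not joined to a site -/
def NCh (O : κ → Prop) (m : St κ) : Prop := ∃ o, O o ∧ (m o = o ∨ O (m o))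

theorem NCh.sw {O : κ → Prop} {m : St κ} {p q : κ} (hp : ¬ O p) (hq : ¬ O q) (h : NCh O m) :
    NCh O (m.sw p q) := by
  obtain ⟨o, h1, h2⟩ := h
  have n1 : o ≠ p := fun e => hp (e ▸ h1)
  have n2 : o ≠ q := fun e => hq (e ▸ h1)
  have n3 : m o ≠ p := by
    intro e
    rcases h2 with h2 | h2
    · exact n1 (h2.symm.trans e)
    · exact hp (e ▸ h2)
  have n4 : m o ≠ q := by
    intro e
    rcases h2 with h2 | h2
    · exact n2 (h2.symm.trans e)
    · exact hq (e ▸ h2)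
  refine ⟨o, h1, ?_⟩
  rw [sw_ap', if_neg n1, if_neg n2, if_neg n3, if_neg n4]
  exact h2

theorem NCh.jn {O : κ → Prop} {m : St κ} {p q : κ} (hp : ¬ O p) (hq : ¬ O q) (mp : m p = p) (mq : m q = q)
    (h : NCh O m) : NCh O (m.jn p q) := by
  obtain ⟨o, h1, h2⟩ := h
  have n1 : o ≠ p := fun e => hp (e ▸ h1)
  have n2 : o ≠ q := fun e => hq (e ▸ h1)
  refine ⟨o, h1, ?_⟩
  rw [jn_ap mp mq, if_neg n1, if_neg n2]
  exact h2

theorem NCh.cp {O : κ → Prop} {m : St κ} {p q : κ} (hp : ¬ O p) (hq : ¬ O q) (mp : m p ≠ p) (mq : m q ≠ q)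
    (h : NCh O m) : NCh O (m.cp p q) := by
  obtain ⟨o, h1, h2⟩ := h
  have n1 : o ≠ p := fun e => hp (e ▸ h1)
  have n2 : o ≠ q := fun e => hq (e ▸ h1)
  have n3 : o ≠ m p := by
    intro e
    rcases h2 with h2 | h2
    · rw [e, m.inv] at h2
      exact mp h2.symm
    · rw [e, m.inv] at h2
      exact hp h2
  have n4 : o ≠ m q := by
    intro e
    rcases h2 with h2 | h2
    · rw [e, m.inv] at h2
      exact mq h2.symm
    · rw [e, m.inv] at h2
      exact hq h2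
  refine ⟨o, h1, ?_⟩
  rw [cp_ap mp mq, if_neg n1, if_neg n2, if_neg n3, if_neg n4]
  exact h2

theorem Rt_ch {O : κ → Prop} {p q : κ} (hp : ¬ O p) (hq : ¬ O q) (w : ℂ) (G : St κ → ℂ)
    (hG : ∀ M, NCh O M → G M = 0) (M : St κ) (hM : NCh O M) : Rt p q w G M = 0 := by
  by_cases mp : M p = p
  · by_cases mq : M q = q
    · rw [AY.Rt_ee mp mq rfl, hG M hM, hG _ (hM.jn hp hq mp mq)]
      ring
    · rw [AY.Rt_eo mp mq rfl, hG M hM, hG _ (hM.sw hp hq)]
      ring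
  · by_cases mq : M q = q
    · rw [AY.Rt_oe mp mq rfl, hG M hM, hG _ (hM.sw hp hq)]
      ring
    · by_cases h : M p = q
      · rw [AY.Rt_jj mp mq h, hG M hM]
        ring
      · have c := hM.cp hp hq mp mq
        rw [AY.Rt_oo mp mq h rfl rfl rfl, hG _ (hM.sw hp hq), hG _ c,
          hG _ (c.jn hp hq (cp_p mp mq) (cp_q mp mq))]
        ring

variable {ι : Type*} [DecidableEq ι]

omit [DecidableEq ι] in
theorem NCh_ext0 {O : ι → Prop} {m : St ι} : NCh (Ox O) (ext0 m) ↔ NCh O m := by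
  constructor
  · rintro ⟨o, h1, h2⟩
    rcases o with _ | _ | i
    · exact absurd h1 id
    · exact absurd h1 id
    · refine ⟨i, h1, ?_⟩
      rcases h2 with h2 | h2
      · left
        have h3 : (some (some (m i)) : Option (Option ι)) = some (some i) := h2
        simpa using h3
      · right
        exact h2
  · rintro ⟨i, h1, h2⟩
    refine ⟨lb i, h1, ?_⟩
    rcases h2 with h2 | h2
    · left
      show (some (some (m i)) : Option (Option ι)) = some (some i)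
      rw [h2]
    · right
      exact h2

theorem Tt_ch [Fintype ι] {O : ι → Prop} (l : List ι) (hl : ∀ x ∈ l, ¬ O x) (v : ℂ) (U : ι → ℂ) (F : St ι → ℂ)
    (hF : ∀ m, NCh O m → F m = 0) (m : St ι) (hm : NCh O m) : Tt l v U F m = 0 := by
  have hax : ¬ Ox O (ax : Option (Option ι)) := id
  have hax' : ¬ Ox O (ax' : Option (Option ι)) := id
  have hcap : ∀ M, NCh (Ox O) M → capF F M = 0 := by
    intro M hM
    unfold capF
    by_cases h1 : M ax = ax
    · rw [if_pos h1]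
      by_cases h2 : M ax' = ax'
      · rw [if_pos h2]
        refine hF _ (NCh_ext0.1 ?_)
        rw [ext0_res M h1 h2]
        exact hM
      · rw [if_neg h2]
    · rw [if_neg h1]
      by_cases h2 : M ax' = ax'
      · rw [if_pos h2]
      · rw [if_neg h2]
        by_cases h3 : M ax = ax'
        · rw [if_pos h3]
        · rw [if_neg h3]
          refine hF _ (NCh_ext0.1 ?_)
          rw [ext0_res (M.cp ax ax') (cp_p h1 h2) (cp_q h1 h2)]
          exact hM.cp hax hax' h1 h2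
  have hFo : ∀ M, NCh (Ox O) M → Fo l v U (capF F) M = 0 := by
    induction l with
    | nil => exact hcap
    | cons i l ih =>
      rw [Fo_cons]
      have hi : ¬ Ox O (lb i) := hl i List.mem_cons_self
      exact Rt_ch hax hi _ _ (ih fun x hx => hl x (List.mem_cons_of_mem i hx))
  rw [Tt_eq]
  unfold cupF
  have e0 : NCh (Ox O) (ext0 m) := NCh_ext0.2 hm
  have e1 : NCh (Ox O) (ext1 m) := e0.jn hax hax' (ext0_ax m) (ext0_ax' m)
  rw [hFo _ e0, hFo _ e1, add_zero]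

end Chi

section Fin

variable {L l : ℕ}

/-- points at infinity -/
def Oi : Lb L l → Prop := fun x => ∃ j : Fin l, x = Sum.inr j

/-- sites -/
def Si : Lb L l → Prop := fun x => ∃ i : Fin L, x = Sum.inl i

/-- positions -/
def psPos : Lb L l → ℤ := Sum.elim (fun i => 2 * (i.val : ℤ)) fun _ => 0

theorem not_Chi_iff (m : Sts L l) : ¬ Chi m ↔ NCh Oi m := by
  unfold Chi NCh
  push Not
  constructor
  · rintro ⟨j, hj⟩
    refine ⟨Sum.inr j, ⟨j, rfl⟩, ?_⟩
    rcases h : m (Sum.inr j) with i | j'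
    · exact absurd h (hj i)
    · right
      exact ⟨j', rfl⟩
  · rintro ⟨o, ⟨j, rfl⟩, h⟩
    refine ⟨j, ?_⟩
    rcases h with h | ⟨j', h⟩
    · intro i
      rw [h]
      simp
    · intro i
      rw [h]
      simp

theorem Ed_iff_Jnd (m : Sts L l) (i k : Fin L) : Ed Oi m (Sum.inl i) (Sum.inl k) ↔ Jnd m i k := by
  unfold Ed Jnd Oi
  constructor
  · rintro ⟨h1, h2⟩
    refine ⟨fun e => h1 (by rw [e]), ?_⟩
    rcases h2 with h2 | ⟨⟨j, hj⟩, ⟨j', hj'⟩⟩
    · left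
      exact h2
    · right
      refine ⟨j, j', ?_, hj, hj'⟩
      intro e
      subst e
      exact h1 (m.inj (hj.trans hj'.symm))
  · rintro ⟨h1, h2⟩
    refine ⟨fun e => h1 (Sum.inl_injective e), ?_⟩
    rcases h2 with h2 | ⟨j, j', -, hj, hj'⟩
    · left
      exact h2
    · right
      exact ⟨⟨j, hj⟩, ⟨j', hj'⟩⟩

theorem NC_iff_Ncr (m : Sts L l) : NC m ↔ Ncr Si psPos (Ed Oi m) := by
  unfold NC Ncr
  constructor
  · rintro h _ _ _ _ ⟨a, rfl⟩ ⟨b, rfl⟩ ⟨c, rfl⟩ ⟨d, rfl⟩ h1 h2 h3 e1 e2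
    have g1 : (2 * (a.val : ℤ)) < 2 * (b.val : ℤ) := h1
    have g2 : (2 * (b.val : ℤ)) < 2 * (c.val : ℤ) := h2
    have g3 : (2 * (c.val : ℤ)) < 2 * (d.val : ℤ) := h3
    exact h a b c d (by rw [Fin.lt_def]; omega) (by rw [Fin.lt_def]; omega) (by rw [Fin.lt_def]; omega)
      ⟨(Ed_iff_Jnd m a c).1 e1, (Ed_iff_Jnd m b d).1 e2⟩
  · rintro h a b c d h1 h2 h3 ⟨e1, e2⟩
    rw [Fin.lt_def] at h1 h2 h3
    refine h (Sum.inl a) (Sum.inl b) (Sum.inl c) (Sum.inl d) ⟨a, rfl⟩ ⟨b, rfl⟩ ⟨c, rfl⟩ ⟨d, rfl⟩ ?_ ?_ ?_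
      ((Ed_iff_Jnd m a c).2 e1) ((Ed_iff_Jnd m b d).2 e2)
    · show (2 * (a.val : ℤ)) < 2 * (b.val : ℤ)
      omega
    · show (2 * (b.val : ℤ)) < 2 * (c.val : ℤ)
      omega
    · show (2 * (c.val : ℤ)) < 2 * (d.val : ℤ)
      omega

theorem Sup_Tf (v : ℂ) (U : Fin L → ℂ) (F : Sts L l → ℂ) (hF : Sup F) : Sup (Tf v U F) := by
  intro m hm
  refine Tt_ch (O := Oi) (lns L l) ?_ v (rap U) F (fun n hn => hF n ((not_Chi_iff n).2 hn)) m
    ((not_Chi_iff m).1 hm)
  intro x hx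
  unfold lns at hx
  rw [List.mem_map] at hx
  obtain ⟨i, -, rfl⟩ := hx
  rintro ⟨j, hj⟩
  exact absurd hj (by simp)

/-- Non-crossing states, without the condition at infinity. -/
theorem NC_Tf (h2 : l ≤ 2) (v : ℂ) (U : Fin L → ℂ) (F : Sts L l → ℂ) (hF : ∀ m, NC m → F m = 0)
    (m : Sts L l) (hm : NC m) : Tf v U F m = 0 := by
  have hlen : (lns L l).length = L := by
    unfold lns
    simp
  refine Tt_nc (O := Oi) (S := Si) (ps := psPos) ?_ ?_ ?_ ?_ ?_ (lns L l) ?_ ?_ v (rap U) F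
    (fun n hn => hF n ((NC_iff_Ncr n).2 hn)) m ((NC_iff_Ncr m).1 hm)
  · rintro _ _ _ ⟨a, rfl⟩ ⟨b, rfl⟩ ⟨c, rfl⟩ n1 n2
    congr 1
    have m1 : a ≠ b := fun e => n1 (by rw [e])
    have m2 : a ≠ c := fun e => n2 (by rw [e])
    apply Fin.ext
    have := a.isLt
    have := b.isLt
    have := c.isLt
    have := Fin.val_ne_of_ne m1
    have := Fin.val_ne_of_ne m2
    omega
  · rintro _ ⟨i, rfl⟩ ⟨j, hj⟩
    exact absurd hj (by simp)
  · rintro _ _ ⟨i, rfl⟩ ⟨j, rfl⟩ h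
    have g : (2 * (i.val : ℤ)) = 2 * (j.val : ℤ) := h
    congr 1
    apply Fin.ext
    omega
  · rintro _ ⟨i, rfl⟩
    show (2 * (i.val : ℤ)) % 2 = 0
    omega
  · rintro _ ⟨i, rfl⟩
    show 0 ≤ 2 * (i.val : ℤ)
    omega
  · rintro _ ⟨i, rfl⟩
    rw [hlen]
    show 2 * (i.val : ℤ) < 2 * (L : ℤ)
    have := i.isLt
    omega
  · intro j hj
    have e : (lns L l)[j] = Sum.inl ⟨j, by rw [hlen] at hj; exact hj⟩ := by
      unfold lns
      simp
    rw [e]
    exact ⟨⟨_, rfl⟩, rfl⟩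

end Fin

end Pool.Agent.CYL.Pn

namespace Pool.Agent.CYL

open Pool.Agent.BEX Pn

variable {L l : ℕ}

/-- **P2.** -/
theorem pla (h2 : l ≤ 2) : Pla L l where
  sup := Sup_Tf
  cls := by
    intro v U F hF h0 m hm
    refine NC_Tf h2 v U F (fun n hn => ?_) m hm.2
    by_cases h : Chi n
    · exact h0 n ⟨h, hn⟩
    · exact hF n h

/-- Matrix form. -/
theorem pla_Tm (h2 : l ≤ 2) (U : Fin L → ℂ) (v : ℂ) (m m' : Sts L l) (hm : Cls m) (h1 : Chi m')
    (h3 : ¬ Cls m') : Tm v U m' m = 0 := by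
  show Tf v U (Pi.single m' 1) m = 0
  refine (pla h2).cls v U _ ?_ ?_ m hm
  · intro n hn
    refine Pi.single_eq_of_ne ?_ 1
    rintro rfl
    exact hn h1
  · intro n hn
    refine Pi.single_eq_of_ne ?_ 1
    rintro rfl
    exact h3 hn

/-- Matrix form of the stability of `Chi`. -/
theorem chi_Tm (U : Fin L → ℂ) (v : ℂ) (m m' : Sts L l) (hm : ¬ Chi m) (h1 : Chi m') : Tm v U m' m = 0 := by
  show Tf v U (Pi.single m' 1) m = 0
  refine Sup_Tf v U _ ?_ m hm
  intro n hn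
  refine Pi.single_eq_of_ne ?_ 1
  rintro rfl
  exact hn h1

end Pool.Agent.CYL
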