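import Pool.Agent.CYL.P.Mv

/-!
# CYL, part P, item P3: the states of the class are connected by the moves
-/

namespace Pool.Agent.CYL

open Pool.Agent.BEX Finset

section Ap

variable {κ : Type*} [DecidableEq κ]

theorem rch_jn_ap {p q : κ} {m : St κ} (hp : m p = p) (hq : m q = q) (i : κ) :
    (m.jn p q) i = if i = p then q else if i = q then p else m i := by
  unfold St.jn
  rw [dif_pos ⟨hp, hq⟩]
  rfl

theorem rch_cp_ap {p q : κ} {m : St κ} (hp : m p ≠ p) (hq : m q ≠ q) (i : κ) :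
    (m.cp p q) i = if i = p then p else if i = q then q else
    if i = m p then m q else if i = m q then m p else m i := by
  unfold St.cp
  rw [dif_pos ⟨hp, hq⟩]
  rfl

end Ap

variable {L l : ℕ}

/-- the sites which are ends of arcs between two sites -/
def AE (m : Sts L l) : Finset (Fin L) := univ.filter fun x => ∃ y, y ≠ x ∧ m (Sum.inl x) = Sum.inl y

theorem mem_AE {m : Sts L l} {x : Fin L} : x ∈ AE m ↔ ∃ y, y ≠ x ∧ m (Sum.inl x) = Sum.inl y := by
  simp [AE]

theorem tri (m : Sts L l) (x : Fin L) :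
    m (Sum.inl x) = Sum.inl x ∨ (∃ j, m (Sum.inl x) = Sum.inr j) ∨ x ∈ AE m := by
  rcases h : m (Sum.inl x) with y | j
  · by_cases hy : y = x
    · left; rw [hy]
    · right; right; exact mem_AE.2 ⟨y, hy, h⟩
  · right; left; exact ⟨j, rfl⟩

theorem arcless_of_AE {m : Sts L l} (hC : Chi m) (h : AE m = ∅) : Arcless m := by
  refine ⟨hC, fun i k hik => ?_⟩
  by_contra hne
  have : i ∈ AE m := mem_AE.2 ⟨k, fun e => hne e.symm, hik⟩
  rw [h] at this
  simp at this

section Slide

variable {m : Sts L l} {p q : Lb L l} {j1 : Fin l}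

theorem sl_q (hp : m p = Sum.inr j1) (hpl : p ≠ Sum.inr j1) (hq : q = p ∨ m q = q) :
    (m.sw p q) q = Sum.inr j1 := by
  rcases hq with rfl | hq
  · rw [sw_self, hp]
  · rw [sw_at_right (by rw [hp]; exact hpl.symm) hq, hp]

theorem sl_other (hq : q = p ∨ m q = q) {z : Lb L l} (h1 : z ≠ p) (h2 : z ≠ q) (h3 : m z ≠ p) :
    (m.sw p q) z = m z := by
  rcases hq with rfl | hq
  · rw [sw_self]
  · refine sw_at_ne' h1 h2 h3 ?_
    intro h
    exact h2 (m.inj (h.trans hq.symm))

end Slide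

/-- Step 1: every `Chi`-state can be connected to an arcless state. -/
theorem to_arcless (hl : 0 < l) (m : Sts L l) (hC : Chi m) :
    ∃ a, Arcless a ∧ Relation.ReflTransGen Stp m a := by
  classical
  induction hn : (AE m).card using Nat.strong_induction_on generalizing m with
  | _ n ih =>
  by_cases h0 : AE m = ∅
  · exact ⟨m, arcless_of_AE hC h0, Relation.ReflTransGen.refl⟩
  obtain ⟨x, hx⟩ := Finset.nonempty_iff_ne_empty.2 h0
  obtain ⟨t, ht⟩ := hC ⟨0, hl⟩
  have ht' : m (Sum.inl t) = Sum.inr ⟨0, hl⟩ := by rw [← ht]; simp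
  obtain ⟨d0, hd0L, hd0⟩ := exists_ad t x
  have hex : ∃ d, ∃ k, (∃ j, m (Sum.inl k) = Sum.inr j) ∧ ad k d ∈ AE m :=
    ⟨d0, t, ⟨_, ht'⟩, by rw [hd0]; exact hx⟩
  obtain ⟨k, ⟨j1, hk⟩, hd⟩ := Nat.find_spec hex
  have hmin : ∀ d' < Nat.find hex, ∀ k', (∃ j, m (Sum.inl k') = Sum.inr j) → ad k' d' ∉ AE m := by
    intro d' hd' k' hk' hmem
    exact Nat.find_min hex hd' ⟨k', hk', hmem⟩
  have hdL : Nat.find hex < L := lt_of_le_of_lt
    (Nat.find_min' hex ⟨t, ⟨_, ht'⟩, by rw [hd0]; exact hx⟩) hd0L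
  generalize Nat.find hex = d at hd hmin hdL
  have hdpos : 0 < d := by
    rcases Nat.eq_zero_or_pos d with h | h
    · subst h
      rw [ad_zero] at hd
      obtain ⟨y, -, hy⟩ := mem_AE.1 hd
      rw [hk] at hy
      exact absurd hy (by simp)
    · exact h
  have hemp : ∀ e : ℕ, 0 < e → e < d → m (Sum.inl (ad k e)) = Sum.inl (ad k e) := by
    intro e he hed
    rcases tri m (ad k e) with h | h | h
    · exact h
    · exfalso
      refine hmin (d - e) (by omega) (ad k e) h ?_
      rw [ad_ad, show e + (d - e) = d by omega]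
      exact hd
    · exact absurd h (hmin e hed k ⟨j1, hk⟩)
  -- slide
  have hkocc : m (Sum.inl k) ≠ Sum.inl k := by rw [hk]; simp
  have hsl := slide m k hkocc (d - 1) (by omega) fun e he he' => hemp e he (by omega)
  set s : Fin L := ad k (d - 1) with hs
  have hj : ad s 1 = ad k d := by rw [hs, ad_ad, show d - 1 + 1 = d by omega]
  set j : Fin L := ad k d with hjd
  have hq : (Sum.inl s : Lb L l) = Sum.inl k ∨ m (Sum.inl s) = Sum.inl s := by
    rcases Nat.eq_zero_or_pos (d - 1) with h | h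
    · left; rw [hs, h, ad_zero]
    · right; exact hemp (d - 1) h (by omega)
  set m1 : Sts L l := m.sw (Sum.inl k) (Sum.inl s) with hm1
  have f1 : m1 (Sum.inl s) = Sum.inr j1 := sl_q hk (by simp) hq
  have hkj : k ≠ j := (ad_ne_self hdL hdpos).symm
  have hsj : s ≠ j := ad_ne (by omega) hdL (by omega)
  obtain ⟨k', hk'j, hjk'⟩ := mem_AE.1 hd
  have f2 : m1 (Sum.inl j) = Sum.inl k' := by
    rw [hm1, sl_other hq (inl_ne hkj.symm) (inl_ne hsj.symm), hjk']
    intro h
    have := congrArg m.1 h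
    rw [show m.1 (m (Sum.inl j)) = Sum.inl j from m.inv _, show m.1 (Sum.inl k) = m (Sum.inl k) from rfl, hk] at this
    exact absurd this (by simp)
  have hL2 : 1 < L := by omega
  have hne1 : ad s 1 ≠ s := ad_ne_self hL2 (by omega)
  have g1 : m1 (Sum.inl s) ≠ Sum.inl s := by rw [f1]; simp
  have g2 : m1 (Sum.inl j) ≠ Sum.inl j := by rw [f2]; exact inl_ne hk'j
  have g3 : m1 (Sum.inl s) ≠ Sum.inl j := by rw [f1]; simp
  have hst : Stp m1 (m1.cp (Sum.inl s) (Sum.inl j)) := by
    have := Stp.cap (m := m1) s hne1 g1 (by rw [hj]; exact g2) (by rw [hj]; exact g3)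
    rwa [hj] at this
  set m2 : Sts L l := m1.cp (Sum.inl s) (Sum.inl j) with hm2
  -- arcs
  have hsub1 : ∀ x, x ∈ AE m1 → x ∈ AE m := by
    intro x hx
    obtain ⟨y, hy, hxy⟩ := mem_AE.1 hx
    have n1 : (Sum.inl x : Lb L l) ≠ Sum.inl s := by
      intro h; rw [h, f1] at hxy; exact absurd hxy (by simp)
    have n2 : (Sum.inl x : Lb L l) ≠ Sum.inl k := by
      intro h
      rcases hq with h' | h'
      · exact n1 (h.trans h'.symm)
      · rw [h, hm1, sw_at_left h'] at hxy
        apply hy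
        rw [← Sum.inl_injective hxy, Sum.inl_injective h]
    have n3 : m (Sum.inl x) ≠ Sum.inl k := by
      intro h
      have := congrArg m.1 h
      rw [show m.1 (m (Sum.inl x)) = Sum.inl x from m.inv _, show m.1 (Sum.inl k) = m (Sum.inl k) from rfl, hk] at this
      exact absurd this (by simp)
    rw [hm1, sl_other hq n2 n1 n3] at hxy
    exact mem_AE.2 ⟨y, hy, hxy⟩
  have hap2 : ∀ z, m2 z = if z = Sum.inl s then Sum.inl s else if z = Sum.inl j then Sum.inl j else
      if z = Sum.inr j1 then Sum.inl k' else if z = Sum.inl k' then Sum.inr j1 else m1 z := by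
    intro z
    rw [hm2, rch_cp_ap g1 g2, f1, f2]
  have hsub2 : AE m2 ⊂ AE m := by
    rw [Finset.ssubset_iff_of_subset]
    · refine ⟨j, hd, fun h => ?_⟩
      obtain ⟨y, hy, hjy⟩ := mem_AE.1 h
      rw [hap2, if_neg (inl_ne hsj.symm), if_pos rfl] at hjy
      exact hy (Sum.inl_injective hjy).symm
    · intro x hx
      obtain ⟨y, hy, hxy⟩ := mem_AE.1 hx
      apply hsub1
      rw [hap2] at hxy
      split_ifs at hxy with h1 h2 h3 h4
      · exfalso
        exact hy ((Sum.inl_injective hxy).symm.trans (Sum.inl_injective h1).symm)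
      · exfalso
        exact hy ((Sum.inl_injective hxy).symm.trans (Sum.inl_injective h2).symm)
      · exact absurd h3 (by simp)
      · exact mem_AE.2 ⟨y, hy, hxy⟩
  have hC1 : ∀ j', ∃ i', m1 (Sum.inr j') = Sum.inl i' := by
    intro j'
    obtain ⟨i', hi'⟩ := hC j'
    by_cases h : i' = k
    · subst h
      refine ⟨s, ?_⟩
      have e : (Sum.inr j' : Lb L l) = m (Sum.inl i') := by rw [← hi']; simp
      rw [e, hk, ← f1]
      simp
    · refine ⟨i', ?_⟩
      rw [hm1, sl_other hq (by simp) (by simp) (by rw [hi']; exact inl_ne h), hi']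
  have hC2 : Chi m2 := by
    intro j'
    obtain ⟨i', hi'⟩ := hC1 j'
    rw [hap2, if_neg (by simp), if_neg (by simp)]
    by_cases h : (Sum.inr j' : Lb L l) = Sum.inr j1
    · rw [if_pos h]; exact ⟨k', rfl⟩
    · rw [if_neg h, if_neg (by simp)]; exact ⟨i', hi'⟩
  obtain ⟨a, ha, hra⟩ := ih _ (by rw [← hn]; exact Finset.card_lt_card hsub2) m2 hC2 rfl
  exact ⟨a, ha, (hsl.tail hst).trans hra⟩

/-! ### Step 2: arcless states -/

theorem arcless_ext {a b : Sts L l} (ha : Arcless a) (hb : Arcless b)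
    (h : ∀ j, a (Sum.inr j) = b (Sum.inr j)) : a = b := by
  have key : ∀ {a b : Sts L l}, Arcless a → Arcless b → (∀ j, a (Sum.inr j) = b (Sum.inr j)) →
      ∀ x j, a (Sum.inl x) = Sum.inr j → b (Sum.inl x) = Sum.inr j := by
    intro a b _ _ h x j hx
    have : a (Sum.inr j) = Sum.inl x := by rw [← hx]; simp
    rw [h] at this
    rw [← this]; simp
  refine St.ext' fun z => ?_
  rcases z with x | j
  · rcases h1 : a (Sum.inl x) with y | j
    · have e1 := ha.2 x y h1
      subst e1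
      rcases h2 : b (Sum.inl x) with y' | j'
      · rw [hb.2 x y' h2]
      · have := key hb ha (fun j => (h j).symm) x j' h2
        rw [h1] at this
        exact absurd this (by simp)
    · exact (key ha hb h x j h1).symm
  · exact h j

theorem arcless_emp {a : Sts L l} (ha : Arcless a) {x : Fin L} (h : ∀ j, a (Sum.inr j) ≠ Sum.inl x) :
    a (Sum.inl x) = Sum.inl x := by
  rcases h1 : a (Sum.inl x) with y | j
  · rw [ha.2 x y h1]
  · exfalso
    apply h j
    rw [← h1]; simp

theorem hopA {a : Sts L l} (ha : Arcless a) {j0 : Fin l} {i : Fin L} (hi : a (Sum.inr j0) = Sum.inl i)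
    (n : ℕ) (hL : n < L) (hn : ∀ e : ℕ, 0 < e → e ≤ n → a (Sum.inl (ad i e)) = Sum.inl (ad i e)) :
    ∃ a', Arcless a' ∧ Relation.ReflTransGen Stp a a' ∧ a' (Sum.inr j0) = Sum.inl (ad i n) ∧
      ∀ j', j' ≠ j0 → a' (Sum.inr j') = a (Sum.inr j') := by
  have hi' : a (Sum.inl i) = Sum.inr j0 := by rw [← hi]; simp
  have hocc : a (Sum.inl i) ≠ Sum.inl i := by rw [hi']; simp
  have hq : (Sum.inl (ad i n) : Lb L l) = Sum.inl i ∨ a (Sum.inl (ad i n)) = Sum.inl (ad i n) := by
    rcases Nat.eq_zero_or_pos n with h | h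
    · left; rw [h, ad_zero]
    · right; exact hn n h le_rfl
  have h1 : (a.sw (Sum.inl i) (Sum.inl (ad i n))) (Sum.inl (ad i n)) = Sum.inr j0 := sl_q hi' (by simp) hq
  have h2 : (a.sw (Sum.inl i) (Sum.inl (ad i n))) (Sum.inr j0) = Sum.inl (ad i n) := by
    rw [← h1]; simp
  have h3 : ∀ j', j' ≠ j0 → (a.sw (Sum.inl i) (Sum.inl (ad i n))) (Sum.inr j') = a (Sum.inr j') := by
    intro j' hj'
    refine sl_other hq (by simp) (by simp) ?_
    intro h
    have := congrArg a.1 h
    rw [show a.1 (a (Sum.inr j')) = Sum.inr j' from a.inv _, show a.1 (Sum.inl i) = a (Sum.inl i) from rfl, hi'] at this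
    exact hj' (Sum.inr_injective this)
  refine ⟨_, ⟨?_, ?_⟩, slide a i hocc n hL hn, h2, h3⟩
  · intro j'
    by_cases hj' : j' = j0
    · subst hj'; exact ⟨_, h2⟩
    · obtain ⟨i', hi'⟩ := ha.1 j'
      exact ⟨i', by rw [h3 j' hj', hi']⟩
  · intro x y hxy
    by_cases e1 : (Sum.inl x : Lb L l) = Sum.inl (ad i n)
    · rw [e1, h1] at hxy
      exact absurd hxy (by simp)
    by_cases e2 : (Sum.inl x : Lb L l) = Sum.inl i
    · rcases hq with h' | h'
      · exact absurd (e2.trans h'.symm) e1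
      · rw [e2, sw_at_left h'] at hxy
        rw [← Sum.inl_injective hxy, Sum.inl_injective e2]
    · rw [sl_other hq e2 e1] at hxy
      · exact ha.2 x y hxy
      · intro h
        have := congrArg a.1 h
        rw [show a.1 (a (Sum.inl x)) = Sum.inl x from a.inv _, show a.1 (Sum.inl i) = a (Sum.inl i) from rfl, hi'] at this
        exact absurd this (by simp)

theorem arcless_one {a b : Sts L 1} (ha : Arcless a) (hb : Arcless b) :
    Relation.ReflTransGen Stp a b := by
  obtain ⟨i, hi⟩ := ha.1 0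
  obtain ⟨i', hi'⟩ := hb.1 0
  obtain ⟨n, hn, hin⟩ := exists_ad i i'
  obtain ⟨a', ha', hr, h0, -⟩ := hopA ha hi n hn (by
    intro e he hen
    refine arcless_emp ha fun j => ?_
    have hj : j = 0 := Subsingleton.elim _ _
    subst hj
    rw [hi]
    exact inl_ne (ad_ne_self (by omega) he).symm)
  have : a' = b := by
    refine arcless_ext ha' hb fun j => ?_
    have hj : j = 0 := Subsingleton.elim _ _
    subst hj
    rw [h0, hi', hin]
  rwa [← this]

/-- the two legs of an arcless state are at `i` and `j` -/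
def PP (a : Sts L 2) (i j : Fin L) : Prop :=
  Arcless a ∧ a (Sum.inr 0) = Sum.inl i ∧ a (Sum.inr 1) = Sum.inl j

theorem PP.ne {a : Sts L 2} {i j : Fin L} (h : PP a i j) : i ≠ j := by
  intro e
  have := h.2.1.trans ((congrArg Sum.inl e).trans h.2.2.symm)
  exact absurd (a.inj this) (by simp)

theorem PP.emp {a : Sts L 2} {i j x : Fin L} (h : PP a i j) (h1 : x ≠ i) (h2 : x ≠ j) :
    a (Sum.inl x) = Sum.inl x := by
  refine arcless_emp h.1 fun k => ?_
  fin_cases k
  · show a (Sum.inr 0) ≠ _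
    rw [h.2.1]; exact inl_ne h1.symm
  · show a (Sum.inr 1) ≠ _
    rw [h.2.2]; exact inl_ne h2.symm

theorem PP.ext {a b : Sts L 2} {i j : Fin L} (ha : PP a i j) (hb : PP b i j) : a = b := by
  refine arcless_ext ha.1 hb.1 fun k => ?_
  fin_cases k
  · exact ha.2.1.trans hb.2.1.symm
  · exact ha.2.2.trans hb.2.2.symm

theorem PP.mv0 {a : Sts L 2} {i j : Fin L} (h : PP a i j) (n : ℕ) (hL : n < L)
    (hn : ∀ e : ℕ, 0 < e → e ≤ n → ad i e ≠ j) :
    ∃ a', PP a' (ad i n) j ∧ Relation.ReflTransGen Stp a a' := by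
  obtain ⟨a', ha', hr, h0, h1⟩ := hopA h.1 h.2.1 n hL (fun e he hen =>
    h.emp (ad_ne_self (by omega) he) (hn e he hen))
  exact ⟨a', ⟨ha', h0, by rw [h1 1 (by simp), h.2.2]⟩, hr⟩

theorem PP.mv1 {a : Sts L 2} {i j : Fin L} (h : PP a i j) (n : ℕ) (hL : n < L)
    (hn : ∀ e : ℕ, 0 < e → e ≤ n → ad j e ≠ i) :
    ∃ a', PP a' i (ad j n) ∧ Relation.ReflTransGen Stp a a' := by
  obtain ⟨a', ha', hr, h0, h1⟩ := hopA h.1 h.2.2 n hL (fun e he hen =>
    h.emp (hn e he hen) (ad_ne_self (by omega) he))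
  exact ⟨a', ⟨ha', by rw [h1 0 (by simp), h.2.1], h0⟩, hr⟩

/-- rotation of two adjacent legs -/
theorem PP.rot {a : Sts L 2} {i : Fin L} (hL : 2 < L) (h : PP a i (ad i 1)) (n : ℕ) :
    ∃ a', PP a' (ad i n) (ad i (n + 1)) ∧ Relation.ReflTransGen Stp a a' := by
  induction n with
  | zero => exact ⟨a, by simpa using h, Relation.ReflTransGen.refl⟩
  | succ n ih =>
    obtain ⟨b, hb, hr⟩ := ih
    obtain ⟨c, hc, hr'⟩ := hb.mv1 1 (by omega) (by
      intro e he he'
      have : e = 1 := by omega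
      subst this
      rw [ad_ad, show n + 1 + 1 = n + 2 by ring, ← ad_ad i n 2]
      exact ad_ne_self hL (by omega))
    obtain ⟨d, hd, hr''⟩ := hc.mv0 1 (by omega) (by
      intro e he he'
      have : e = 1 := by omega
      subst this
      rw [ad_ad, ad_ad, show n + 1 + 1 = (n + 1) + 1 by ring, ← ad_ad i (n + 1) 1]
      exact (ad_ne_self (by omega) (by omega)).symm)
    refine ⟨d, ?_, (hr.trans hr').trans hr''⟩
    rw [ad_ad, ad_ad] at hd
    exact hd

theorem arcless_two {a b : Sts L 2} (hL : 2 < L) (ha : Arcless a) (hb : Arcless b) :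
    Relation.ReflTransGen Stp a b := by
  obtain ⟨i, hi⟩ := ha.1 0
  obtain ⟨j, hj⟩ := ha.1 1
  obtain ⟨i', hi'⟩ := hb.1 0
  obtain ⟨j', hj'⟩ := hb.1 1
  have pa : PP a i j := ⟨ha, hi, hj⟩
  have pb : PP b i' j' := ⟨hb, hi', hj'⟩
  -- make the legs adjacent
  obtain ⟨d, hd, hd0, rfl⟩ := exists_ad_ne pa.ne
  obtain ⟨a1, p1, r1⟩ := pa.mv0 (d - 1) (by omega) (by
    intro e he he'
    exact ad_ne (by omega) hd (by omega))
  have e1 : ad i d = ad (ad i (d - 1)) 1 := by rw [ad_ad, show d - 1 + 1 = d by omega]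
  rw [e1] at p1
  -- rotate
  obtain ⟨n, hn, hin⟩ := exists_ad (ad i (d - 1)) i'
  obtain ⟨a2, p2, r2⟩ := p1.rot hL n
  rw [← ad_ad, hin] at p2
  -- separate
  obtain ⟨d', hd', hd0', rfl⟩ := exists_ad_ne pb.ne
  obtain ⟨a3, p3, r3⟩ := p2.mv1 (d' - 1) (by omega) (by
    intro e he he'
    rw [ad_ad]
    exact ad_ne_self (by omega) (by omega))
  rw [ad_ad, show 1 + (d' - 1) = d' by omega] at p3
  rw [← p3.ext pb]
  exact (r1.trans r2).trans r3

/-! ### Step 3: from the arcless states to the class -/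

theorem Jnd.symm {m : Sts L l} {i k : Fin L} (h : Jnd m i k) : Jnd m k i := by
  refine ⟨h.1.symm, ?_⟩
  rcases h.2 with h | ⟨j, j', hne, h1, h2⟩
  · left; rw [← h]; simp
  · right; exact ⟨j', j, hne.symm, h2, h1⟩

/-- no crossing, cyclic form -/
theorem nc_cyc {m : Sts L l} (h : NC m) (i : Fin L) {a b c : ℕ} (ha : 0 < a) (hab : a < b) (hbc : b < c)
    (hc : c < L) (h1 : Jnd m i (ad i b)) (h2 : Jnd m (ad i a) (ad i c)) : False := by
  have hi := i.isLt
  have val : ∀ n < L, (ad i n).val = i.val + n ∨ ((ad i n).val + L = i.val + n) := by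
    intro n hn
    rw [ad_val]
    by_cases h : i.val + n < L
    · left; exact Nat.mod_eq_of_lt h
    · right
      rw [Nat.mod_eq_sub_mod (by omega), Nat.mod_eq_of_lt (by omega)]
      omega
  have va := val a (by omega)
  have vb := val b (by omega)
  have vc := val c hc
  have la := (ad i a).isLt
  have lb := (ad i b).isLt
  have lc := (ad i c).isLt
  by_cases wc : (ad i c).val = i.val + c
  · refine h i (ad i a) (ad i b) (ad i c) ?_ ?_ ?_ ⟨h1, h2⟩
    · rw [Fin.lt_def]; omega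
    · rw [Fin.lt_def]; omega
    · rw [Fin.lt_def]; omega
  by_cases wb : (ad i b).val = i.val + b
  · refine h (ad i c) i (ad i a) (ad i b) ?_ ?_ ?_ ⟨h2.symm, h1⟩
    · rw [Fin.lt_def]; omega
    · rw [Fin.lt_def]; omega
    · rw [Fin.lt_def]; omega
  by_cases wa : (ad i a).val = i.val + a
  · refine h (ad i b) (ad i c) i (ad i a) ?_ ?_ ?_ ⟨h1.symm, h2.symm⟩
    · rw [Fin.lt_def]; omega
    · rw [Fin.lt_def]; omega
    · rw [Fin.lt_def]; omega
  · refine h (ad i a) (ad i b) (ad i c) i ?_ ?_ ?_ ⟨h2, h1.symm⟩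
    · rw [Fin.lt_def]; omega
    · rw [Fin.lt_def]; omega
    · rw [Fin.lt_def]; omega

/-- an innermost arc -/
theorem exists_inn {m : Sts L l} (h : NC m) (hne : (AE m).Nonempty) :
    ∃ (i : Fin L) (d : ℕ), 0 < d ∧ d < L ∧ m (Sum.inl i) = Sum.inl (ad i d) ∧
      ∀ e : ℕ, 0 < e → e < d → m (Sum.inl (ad i e)) = Sum.inl (ad i e) := by
  classical
  have hex : ∃ d : ℕ, 0 < d ∧ d < L ∧ ∃ i : Fin L, m (Sum.inl i) = Sum.inl (ad i d) ∧
      ∀ e : ℕ, 0 < e → e < d → ∀ j, m (Sum.inl (ad i e)) ≠ Sum.inr j := by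
    obtain ⟨x, hx⟩ := hne
    obtain ⟨y, hyx, hxy⟩ := mem_AE.1 hx
    obtain ⟨d, hd, hd0, rfl⟩ := exists_ad_ne hyx.symm
    by_cases hc : ∀ e : ℕ, 0 < e → e < d → ∀ j, m (Sum.inl (ad x e)) ≠ Sum.inr j
    · exact ⟨d, hd0, hd, x, hxy, hc⟩
    · push Not at hc
      obtain ⟨e, he0, hed, j, hj⟩ := hc
      refine ⟨L - d, by omega, by omega, ad x d, ?_, ?_⟩
      · rw [ad_ad, show d + (L - d) = 0 + L by omega, ad_add_L, ad_zero, ← hxy]
        simp
      · intro f hf0 hf j' hj'
        rw [ad_ad] at hj'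
        have hjj : j ≠ j' := by
          rintro rfl
          have := m.inj (hj.trans hj'.symm)
          have := ad_inj (by omega) (by omega) (Sum.inl_injective this)
          omega
        refine nc_cyc h x he0 hed (show d < d + f by omega) (by omega) ⟨hyx.symm, Or.inl hxy⟩ ?_
        exact ⟨ad_ne (by omega) (by omega) (by omega), Or.inr ⟨j, j', hjj, hj, hj'⟩⟩
  obtain ⟨hd0, hdL, i, hi, hthr⟩ := Nat.find_spec hex
  have hmin : ∀ d' < Nat.find hex, ¬ (0 < d' ∧ d' < L ∧ ∃ i : Fin L, m (Sum.inl i) = Sum.inl (ad i d') ∧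
      ∀ e : ℕ, 0 < e → e < d' → ∀ j, m (Sum.inl (ad i e)) ≠ Sum.inr j) := fun d' h' => Nat.find_min hex h'
  generalize Nat.find hex = d at hd0 hdL hi hthr hmin
  refine ⟨i, d, hd0, hdL, hi, ?_⟩
  have hid : m (Sum.inl (ad i d)) = Sum.inl i := by rw [← hi]; simp
  intro e he0 hed
  rcases tri m (ad i e) with h1 | ⟨j, hj⟩ | h1
  · exact h1
  · exact absurd hj (hthr e he0 hed j)
  · exfalso
    obtain ⟨w, hw, hew⟩ := mem_AE.1 h1
    obtain ⟨f, hf, rfl⟩ := exists_ad i w
    have hfe : m (Sum.inl (ad i f)) = Sum.inl (ad i e) := by rw [← hew]; simp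
    have hf0 : 0 < f := by
      rcases Nat.eq_zero_or_pos f with h2 | h2
      · subst h2
        rw [ad_zero, hi] at hfe
        have := ad_inj hdL (by omega) (Sum.inl_injective hfe)
        omega
      · exact h2
    have hfd : f ≠ d := by
      rintro rfl
      rw [hid] at hfe
      have h3 : ad i 0 = ad i e := by rw [ad_zero]; exact Sum.inl_injective hfe
      have := ad_inj (by omega) (by omega) h3
      omega
    have hfe' : f ≠ e := by
      rintro rfl
      exact hw rfl
    rcases lt_or_gt_of_ne hfd with h2 | h2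
    · -- a smaller arc
      rcases lt_or_gt_of_ne hfe' with h3 | h3
      · refine hmin (e - f) (by omega) ⟨by omega, by omega, ad i f, ?_, ?_⟩
        · rw [ad_ad, show f + (e - f) = e by omega]; exact hfe
        · intro g hg0 hg j
          rw [ad_ad]
          exact hthr (f + g) (by omega) (by omega) j
      · refine hmin (f - e) (by omega) ⟨by omega, by omega, ad i e, ?_, ?_⟩
        · rw [ad_ad, show e + (f - e) = f by omega]; exact hew
        · intro g hg0 hg j
          rw [ad_ad]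
          exact hthr (e + g) (by omega) (by omega) j
    · refine nc_cyc h i he0 hed h2 hf ⟨(ad_ne_self hdL hd0).symm, Or.inl hi⟩ ⟨hw.symm, Or.inl hew⟩

/-- Step 3: every state of the class is reached from an arcless state. -/
theorem of_arcless (m : Sts L l) (hm : Cls m) : ∃ a, Arcless a ∧ Relation.ReflTransGen Stp a m := by
  classical
  induction hn : (AE m).card using Nat.strong_induction_on generalizing m with
  | _ n ih =>
  by_cases h0 : AE m = ∅
  · exact ⟨m, arcless_of_AE hm.1 h0, Relation.ReflTransGen.refl⟩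
  obtain ⟨i, d, hd0, hdL, hi, hemp⟩ := exists_inn hm.2 (Finset.nonempty_iff_ne_empty.2 h0)
  set k : Fin L := ad i d with hk
  have hki : k ≠ i := ad_ne_self hdL hd0
  have hik' : m (Sum.inl k) = Sum.inl i := by rw [← hi]; simp
  have g1 : m (Sum.inl i) ≠ Sum.inl i := by rw [hi]; exact inl_ne hki
  have g2 : m (Sum.inl k) ≠ Sum.inl k := by rw [hik']; exact inl_ne hki.symm
  set m0 : Sts L l := m.cp (Sum.inl i) (Sum.inl k) with hm0
  have ap0 : ∀ z, m0 z = if z = Sum.inl i then Sum.inl i else if z = Sum.inl k then Sum.inl k else m z := by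
    intro z
    rw [hm0, rch_cp_ap g1 g2, hi, hik']
    split_ifs <;> rfl
  have ap0n : ∀ z, z ≠ Sum.inl i → z ≠ Sum.inl k → m0 z = m z := by
    intro z h1 h2
    rw [ap0, if_neg h1, if_neg h2]
  have ap0i : m0 (Sum.inl i) = Sum.inl i := by rw [ap0, if_pos rfl]
  have ap0k : m0 (Sum.inl k) = Sum.inl k := by rw [ap0, if_neg (inl_ne hki), if_pos rfl]
  have hC0 : Chi m0 := by
    intro j
    obtain ⟨x, hx⟩ := hm.1 j
    exact ⟨x, by rw [ap0n _ (by simp) (by simp), hx]⟩
  have hcore : ∀ x y : Fin L, x ≠ y → m0 (Sum.inl x) = Sum.inl y → m (Sum.inl x) = Sum.inl y := by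
    intro x y hxy h
    rw [ap0] at h
    split_ifs at h with h1 h2
    · exact absurd ((Sum.inl_injective h1).trans (Sum.inl_injective h)) hxy
    · exact absurd ((Sum.inl_injective h2).trans (Sum.inl_injective h)) hxy
    · exact h
  have hcore2 : ∀ (x : Fin L) (j : Fin l), m0 (Sum.inl x) = Sum.inr j → m (Sum.inl x) = Sum.inr j := by
    intro x j h
    rw [ap0] at h
    split_ifs at h with h1 h2
    exact h
  have hN0 : NC m0 := by
    have hj : ∀ x y, Jnd m0 x y → Jnd m x y := by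
      intro x y h
      refine ⟨h.1, ?_⟩
      rcases h.2 with h2 | ⟨j, j', hjj, h2, h3⟩
      · exact Or.inl (hcore x y h.1 h2)
      · exact Or.inr ⟨j, j', hjj, hcore2 _ _ h2, hcore2 _ _ h3⟩
    intro a b c d hab hbc hcd h
    exact hm.2 a b c d hab hbc hcd ⟨hj _ _ h.1, hj _ _ h.2⟩
  have hsub : AE m0 ⊂ AE m := by
    rw [Finset.ssubset_iff_of_subset]
    · refine ⟨i, mem_AE.2 ⟨k, hki, hi⟩, fun h => ?_⟩
      obtain ⟨y, hy, hiy⟩ := mem_AE.1 h
      rw [ap0i] at hiy
      exact hy (Sum.inl_injective hiy).symm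
    · intro x hx
      obtain ⟨y, hy, hxy⟩ := mem_AE.1 hx
      exact mem_AE.2 ⟨y, hy, hcore x y hy.symm hxy⟩
  obtain ⟨a, ha, hra⟩ := ih _ (by rw [← hn]; exact Finset.card_lt_card hsub) m0 ⟨hC0, hN0⟩ rfl
  -- cup
  have hL2 : 1 < L := by omega
  have hi1 : ad i 1 ≠ i := ad_ne_self hL2 (by omega)
  have hemp1 : m0 (Sum.inl (ad i 1)) = Sum.inl (ad i 1) := by
    by_cases h : d = 1
    · rw [hk, h] at ap0k; exact ap0k
    · have h1 : ad i 1 ≠ k := ad_ne (by omega) hdL (by omega)
      rw [ap0n _ (inl_ne hi1) (inl_ne h1)]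
      exact hemp 1 (by omega) (by omega)
  have hcup := Stp.cup (m := m0) i hi1 ap0i hemp1
  set m3 : Sts L l := m0.jn (Sum.inl i) (Sum.inl (ad i 1)) with hm3
  have ap3 : ∀ z, m3 z = if z = Sum.inl i then Sum.inl (ad i 1) else
      if z = Sum.inl (ad i 1) then Sum.inl i else m0 z := fun z => rch_jn_ap ap0i hemp1 z
  have ap3i : m3 (Sum.inl i) = Sum.inl (ad i 1) := by rw [ap3, if_pos rfl]
  have ap31 : m3 (Sum.inl (ad i 1)) = Sum.inl i := by rw [ap3, if_neg (inl_ne hi1), if_pos rfl]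
  have hrange : ∀ e : ℕ, 0 < e → e ≤ d - 1 →
      m3 (Sum.inl (ad (ad i 1) e)) = Sum.inl (ad (ad i 1) e) := by
    intro e he0 he
    rw [ad_ad]
    have h1 : ad i (1 + e) ≠ i := ad_ne_self (by omega) (by omega)
    have h2 : ad i (1 + e) ≠ ad i 1 := ad_ne (by omega) (by omega) (by omega)
    rw [ap3, if_neg (inl_ne h1), if_neg (inl_ne h2)]
    by_cases h : 1 + e = d
    · rw [h]; exact ap0k
    · have h3 : ad i (1 + e) ≠ k := ad_ne (by omega) hdL h
      rw [ap0n _ (inl_ne h1) (inl_ne h3)]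
      exact hemp (1 + e) (by omega) (by omega)
  have hsl := slide m3 (ad i 1) (by rw [ap31]; exact inl_ne hi1.symm) (d - 1) (by omega) hrange
  rw [ad_ad, show 1 + (d - 1) = d by omega, ← hk] at hsl
  have hfin : m3.sw (Sum.inl (ad i 1)) (Sum.inl k) = m := by
    by_cases h : d = 1
    · have e : ad i 1 = k := by rw [hk, h]
      rw [e, sw_self]
      refine St.ext' fun z => ?_
      rw [ap3, e]
      split_ifs with h1 h2
      · rw [h1, hi]
      · rw [h2, hik']
      · exact ap0n z h1 h2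
    · have e1 : ad i 1 ≠ k := ad_ne (by omega) hdL (by omega)
      have hk3 : m3 (Sum.inl k) = Sum.inl k := by
        rw [ap3, if_neg (inl_ne hki), if_neg (inl_ne e1.symm), ap0k]
      have hm1 : m (Sum.inl (ad i 1)) = Sum.inl (ad i 1) := hemp 1 (by omega) (by omega)
      refine St.ext' fun z => ?_
      by_cases z1 : z = Sum.inl (ad i 1)
      · rw [z1, sw_at_left hk3, hm1]
      by_cases z2 : z = Sum.inl k
      · rw [z2, sw_at_right (by rw [ap31]; exact inl_ne hi1.symm) hk3, ap31, hik']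
      by_cases z3 : z = Sum.inl i
      · rw [z3, sw_at_ne (inl_ne hi1.symm) (inl_ne hki.symm), ap3i, Equiv.swap_apply_left, hi]
      have e2 : m3 z = m z := by
        rw [ap3, if_neg z3, if_neg z1, ap0n z z3 z2]
      rw [sw_at_ne' z1 z2 _ _, e2]
      · rw [e2]; intro h'; exact z1 (m.inj (h'.trans hm1.symm))
      · rw [e2]; intro h'
        apply z3
        have := congrArg m.1 h'
        rwa [show m.1 (m z) = z from m.inv _, show m.1 (Sum.inl k) = m (Sum.inl k) from rfl, hik'] at this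
  rw [hfin] at hsl
  exact ⟨a, ha, (hra.tail hcup).trans hsl⟩

/-- **P3, combinatorial part**: any two states of the class are connected by the moves. -/
theorem rch (hl : l = 1 ∨ l = 2) (hL : l < L) {m m' : Sts L l} (hm : Chi m) (hm' : Cls m') :
    Relation.ReflTransGen Stp m m' := by
  obtain ⟨a, ha, hr⟩ := to_arcless (by omega) m hm
  obtain ⟨a', ha', hr'⟩ := of_arcless m' hm'
  have h : Relation.ReflTransGen Stp a a' := by
    rcases hl with rfl | rfl
    · exact arcless_one ha ha'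
    · exact arcless_two hL ha ha'
  exact (hr.trans h).trans hr'

end Pool.Agent.CYL
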