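import Pool.Agent.CYL.P.Psi

/-!
# CYL, part P (P8): the limit `w → λ`
-/

namespace Pool.Agent.CYL

open Pool.Agent.BEX Filter Topology

theorem lam_ofReal : lam = ((Real.pi / 8 : ℝ) : ℂ) := by
  unfold lam
  push_cast
  rfl

/-- at a parameter with a nonnegative matrix: the eigenvalue is real and at least every diagonal entry -/
theorem IsPsi.ge_diag {L l : ℕ} (hpla : Pla L l) {v : ℂ} {U : Fin L → ℂ} (hnn : Nn (l := l) v U)
    {psi : Sts L l → ℝ} {t : ℂ → ℂ} (h : IsPsi U psi t) {m0 : Sts L l} (hm : Cls m0)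
    (hpos : 0 < psi m0) : (t v).im = 0 ∧ (Tf v U (Pi.single m0 1) m0).re ≤ (t v).re := by
  have h1 := (eig_iff hpla h.supp).1 (h.eig v)
  have h2 := congrFun h1 ⟨m0, hm⟩
  simp only [Matrix.mulVec, dotProduct] at h2
  have h3 : ((∑ j : Kc L l, Bc v U ⟨m0, hm⟩ j * psi j.1 : ℝ) : ℂ) = t v * (psi m0 : ℂ) := by
    push_cast
    refine Eq.trans (Finset.sum_congr rfl fun j _ => ?_) h2
    rw [(hnn ⟨m0, hm⟩ j).1]
  have him := congrArg Complex.im h3
  have hre := congrArg Complex.re h3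
  simp only [Complex.ofReal_im, Complex.ofReal_re, Complex.mul_im, Complex.mul_re, mul_zero,
    zero_add, sub_zero] at him hre
  refine ⟨?_, ?_⟩
  · rcases mul_eq_zero.1 him.symm with h4 | h4
    · exact h4
    · exact absurd h4 hpos.ne'
  · have h5 : Bc v U ⟨m0, hm⟩ ⟨m0, hm⟩ * psi m0 ≤ ∑ j : Kc L l, Bc v U ⟨m0, hm⟩ j * psi j.1 :=
      Finset.single_le_sum (f := fun j : Kc L l => Bc v U ⟨m0, hm⟩ j * psi j.1)
        (fun j _ => mul_nonneg (hnn ⟨m0, hm⟩ j).2 (h.nonneg j.1))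
        (Finset.mem_univ (⟨m0, hm⟩ : Kc L l))
    rw [hre] at h5
    exact le_of_mul_le_mul_right h5 hpos

/-- Limit vectors, `w → λ`; the eigenvalue is at least every diagonal entry (`Nn`: nonnegative entries on the class). -/
theorem fus_lim {L l : ℕ} (hpla : Pla L l) {psi : ℝ → Sts L l → ℝ} {t : ℝ → ℂ → ℂ}
    (hI : ∀ w, 0 ≤ w → w < Real.pi / 8 → IsPsi (Uw L w) (psi w) (t w))
    (hpos : ∀ w, 0 ≤ w → w < Real.pi / 8 → ∀ m, Cls m → 0 < psi w m)
    (hnn : ∀ w, Real.pi / 16 ≤ w → w < Real.pi / 8 → Nn (l := l) (w : ℂ) (Uw L w)) :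
    ∃ (ws : ℕ → ℝ) (psis : Sts L l → ℝ), (∀ n, Real.pi / 16 ≤ ws n ∧ ws n < Real.pi / 8) ∧
      Tendsto ws atTop (𝓝 (Real.pi / 8)) ∧ (∀ m, Tendsto (fun n => psi (ws n) m) atTop (𝓝 (psis m))) ∧
      IsPsi (Uw L (Real.pi / 8)) psis (tv (Uw L (Real.pi / 8)) psis) ∧
      (∀ v, Tendsto (fun n => t (ws n) v) atTop (𝓝 (tv (Uw L (Real.pi / 8)) psis v))) ∧
      (tv (Uw L (Real.pi / 8)) psis lam).im = 0 ∧
      ∀ m0 : Sts L l, Cls m0 → (Tf lam (Uw L (Real.pi / 8)) (Pi.single m0 1) m0).re ≤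
        (tv (Uw L (Real.pi / 8)) psis lam).re := by
  have hpi := Real.pi_pos
  -- the sequence
  obtain ⟨w0, hw0⟩ : ∃ w0 : ℕ → ℝ, w0 = fun n : ℕ => Real.pi / 8 - Real.pi / 16 * (1 / ((n : ℝ) + 1)) :=
    ⟨_, rfl⟩
  have hw0r : ∀ n, Real.pi / 16 ≤ w0 n ∧ w0 n < Real.pi / 8 := by
    intro n
    have h1 : 0 < 1 / ((n : ℝ) + 1) := by positivity
    have h2 : 1 / ((n : ℝ) + 1) ≤ 1 := by
      rw [div_le_one (by positivity)]
      have : (0 : ℝ) ≤ n := Nat.cast_nonneg n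
      linarith
    simp only [hw0]
    constructor
    · nlinarith
    · nlinarith
  have hw0t : Tendsto w0 atTop (𝓝 (Real.pi / 8)) := by
    rw [hw0]
    have h1 := (tendsto_one_div_add_atTop_nhds_zero_nat (𝕜 := ℝ)).const_mul (Real.pi / 16)
    have h2 := h1.const_sub (Real.pi / 8)
    simpa using h2
  have hI0 : ∀ n, IsPsi (Uw L (w0 n)) (psi (w0 n)) (t (w0 n)) := fun n =>
    hI _ (by linarith [(hw0r n).1]) (hw0r n).2
  obtain ⟨psis, hpsis, φ, hφ, hφt⟩ := (isCompact_stdSimplex ℝ (Sts L l)).tendsto_subseq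
    (x := fun n => psi (w0 n)) (fun n => ⟨(hI0 n).nonneg, (hI0 n).sum⟩)
  obtain ⟨ws, hws⟩ : ∃ ws : ℕ → ℝ, ws = fun n => w0 (φ n) := ⟨_, rfl⟩
  have hwr : ∀ n, Real.pi / 16 ≤ ws n ∧ ws n < Real.pi / 8 := by
    intro n
    rw [hws]
    exact hw0r _
  have hwt : Tendsto ws atTop (𝓝 (Real.pi / 8)) := by
    rw [hws]
    exact hw0t.comp hφ.tendsto_atTop
  have hIs : ∀ n, IsPsi (Uw L (ws n)) (psi (ws n)) (t (ws n)) := fun n =>
    hI _ (by linarith [(hwr n).1]) (hwr n).2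
  have hpt : ∀ m, Tendsto (fun n => psi (ws n) m) atTop (𝓝 (psis m)) := by
    intro m
    have h1 := (tendsto_pi_nhds.1 hφt) m
    rw [hws]
    exact h1
  -- continuity of the operators
  have hT : ∀ (v : ℂ) (F : Sts L l → ℂ) (m : Sts L l),
      Tendsto (fun n => Tf v (Uw L (ws n)) F m) atTop (𝓝 (Tf v (Uw L (Real.pi / 8)) F m)) := by
    intro v F m
    have h1 : Continuous fun w : ℝ => Tf v (Uw L w) F m :=
      continuous_Tf_param continuous_const (continuous_Uw L) F m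
    exact (h1.tendsto _).comp hwt
  have hT' : ∀ (F : Sts L l → ℂ) (m : Sts L l),
      Tendsto (fun n => Tf (ws n : ℂ) (Uw L (ws n)) F m) atTop
        (𝓝 (Tf lam (Uw L (Real.pi / 8)) F m)) := by
    intro F m
    have h1 : Continuous fun w : ℝ => Tf (w : ℂ) (Uw L w) F m :=
      continuous_Tf_param Complex.continuous_ofReal (continuous_Uw L) F m
    have h2 := (h1.tendsto (Real.pi / 8)).comp hwt
    rw [lam_ofReal]
    exact h2
  have hS : ∀ (G : ℕ → Sts L l → ℂ) (G' : Sts L l → ℂ),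
      (∀ m, Tendsto (fun n => G n m) atTop (𝓝 (G' m))) →
      Tendsto (fun n => ∑ m, (psi (ws n) m : ℂ) * G n m) atTop (𝓝 (∑ m, (psis m : ℂ) * G' m)) := by
    intro G G' hG
    refine tendsto_finsetSum _ fun m _ => Tendsto.mul ?_ (hG m)
    exact (Complex.continuous_ofReal.tendsto _).comp (hpt m)
  have htv : ∀ v, Tendsto (fun n => t (ws n) v) atTop (𝓝 (tv (Uw L (Real.pi / 8)) psis v)) := by
    intro v
    have h1 : (fun n => t (ws n) v) = fun n => ∑ m, (psi (ws n) m : ℂ) * Tf v (Uw L (ws n)) chF m := by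
      funext n
      rw [(hIs n).t_eq]
      rfl
    rw [h1]
    exact hS _ _ fun m => hT v chF m
  have htv' : Tendsto (fun n => t (ws n) (ws n : ℂ)) atTop
      (𝓝 (tv (Uw L (Real.pi / 8)) psis lam)) := by
    have h1 : (fun n => t (ws n) (ws n : ℂ)) =
        fun n => ∑ m, (psi (ws n) m : ℂ) * Tf (ws n : ℂ) (Uw L (ws n)) chF m := by
      funext n
      rw [(hIs n).t_eq]
      rfl
    rw [h1]
    exact hS _ _ fun m => hT' chF m
  have hsupp : ∀ m, ¬ Cls m → psis m = 0 := by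
    intro m hm
    have h1 : (fun n => psi (ws n) m) = fun _ => 0 := by
      funext n
      exact (hIs n).supp m hm
    have h2 := hpt m
    rw [h1] at h2
    exact (tendsto_nhds_unique h2 tendsto_const_nhds)
  have hP : IsPsi (Uw L (Real.pi / 8)) psis (tv (Uw L (Real.pi / 8)) psis) := by
    refine ⟨hpsis.1, hsupp, hpsis.2, fun v F hF => ?_⟩
    have h1 := hS (fun n => Tf v (Uw L (ws n)) F) _ fun m => hT v F m
    have h2 := (htv v).mul (hS (fun _ => F) F fun m => tendsto_const_nhds)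
    refine tendsto_nhds_unique h1 ?_
    have h3 : (fun n => ∑ m, (psi (ws n) m : ℂ) * Tf v (Uw L (ws n)) F m) =
        fun n => t (ws n) v * ∑ m, (psi (ws n) m : ℂ) * F m := by
      funext n
      exact (hIs n).eig v F hF
    rw [h3]
    exact h2
  -- a class state exists
  have hex : ∃ m : Sts L l, Cls m := by
    by_contra h
    push Not at h
    have h1 := hpsis.2
    rw [Finset.sum_eq_zero fun m _ => hsupp m (h m)] at h1
    exact one_ne_zero h1.symm
  have hdiag : ∀ n (m0 : Sts L l), Cls m0 → (t (ws n) (ws n : ℂ)).im = 0 ∧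
      (Tf (ws n : ℂ) (Uw L (ws n)) (Pi.single m0 1) m0).re ≤ (t (ws n) (ws n : ℂ)).re := by
    intro n m0 hm0
    exact (hIs n).ge_diag hpla (hnn _ (hwr n).1 (hwr n).2) hm0
      (hpos _ (by linarith [(hwr n).1]) (hwr n).2 m0 hm0)
  refine ⟨ws, psis, hwr, hwt, hpt, hP, htv, ?_, ?_⟩
  · obtain ⟨m0, hm0⟩ := hex
    have h1 := (Complex.continuous_im.tendsto _).comp htv'
    refine tendsto_nhds_unique h1 ?_
    have h2 : (Complex.im ∘ fun n => t (ws n) (ws n : ℂ)) = fun _ => 0 := by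
      funext n
      exact (hdiag n m0 hm0).1
    rw [h2]
    exact tendsto_const_nhds
  · intro m0 hm0
    exact le_of_tendsto_of_tendsto' ((Complex.continuous_re.tendsto _).comp (hT' (Pi.single m0 1) m0))
      ((Complex.continuous_re.tendsto _).comp htv') fun n => (hdiag n m0 hm0).2

end Pool.Agent.CYL
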