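import Pool.Agent.CYL.P.FusF
import Pool.Agent.CYL.P.Arc

/-!
# CYL, part P (P8): a positive diagonal entry of `T(λ; U_λ)`

`m0`: the legs at the odd sites `1, 3, ..` (`Sum.inr j` joined to `sR l j`), the other sites empty. By `Tf_fac` (with
`w = π/8`) the entry is `(sin 2λ sin 3λ)^p` times the entry of the layer `Lay (prs p l) (2λ)`; `evP` fixes `m0`
(it moves only even sites, which are empty); `Rt (sL k) (sR k) (2λ) G m0 ≥ kk(2λ) xc ^ 2 G m0` for `G ≥ 0`
(`sL k` is empty in `m0`), and `Rt .. (2λ) G ≥ 0` by `Rt_2lam`.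
-/

namespace Pool.Agent.CYL

open Pool.Agent.BEX Complex
open scoped ComplexOrder

namespace FusDiag

theorem sin_pos_real {y : ℝ} (h0 : 0 < y) (h1 : y < Real.pi) : (0 : ℂ) < sin (y : ℂ) := by
  rw [← ofReal_sin]
  exact_mod_cast Real.sin_pos_of_pos_of_lt_pi h0 h1

theorem xc_pos : (0 : ℂ) < xc := by
  unfold xc
  have h : 0 < Real.sin (Real.pi / 8) := Real.sin_pos_of_pos_of_lt_pi (by positivity) (by linarith [Real.pi_pos])
  have h2 : 0 < Real.sqrt 2 * Real.sin (Real.pi / 8) := by positivity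
  exact_mod_cast h2

theorem kk_2lam_pos : (0 : ℂ) < kk (2 * lam) := by
  rw [kk_2lam]
  have h : 0 < Real.cos (Real.pi / 8) :=
    Real.cos_pos_of_mem_Ioo ⟨by linarith [Real.pi_pos], by linarith [Real.pi_pos]⟩
  have e : cos lam = ((Real.cos (Real.pi / 8) : ℝ) : ℂ) := by unfold lam; push_cast; rfl
  rw [e]
  exact_mod_cast h

theorem Rt_2lam_nn {ι : Type*} [DecidableEq ι] {q r : ι} (F : St ι → ℂ) (hF : ∀ m, 0 ≤ F m) (m : St ι) :
    0 ≤ Rt q r (2 * lam) F m := by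
  have h1 := kk_2lam_pos.le
  have h2 := xc_pos.le
  have h3 : (0 : ℂ) ≤ kk (2 * lam) * xc := mul_nonneg h1 h2
  have h4 : (0 : ℂ) ≤ kk (2 * lam) * xc ^ 2 := mul_nonneg h1 (pow_nonneg h2 2)
  unfold Rt
  rw [w4_2lam, w2_2lam, w6_2lam, w8_2lam, w9_2lam]
  split_ifs
  · exact add_nonneg (mul_nonneg h1 (hF _)) (mul_nonneg h3 (hF _))
  · exact add_nonneg (mul_nonneg h4 (hF _)) (mul_nonneg h4 (hF _))
  · exact add_nonneg (mul_nonneg h4 (hF _)) (mul_nonneg h4 (hF _))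
  · rw [zero_mul]
  · exact add_nonneg (add_nonneg (by rw [zero_mul]) (mul_nonneg h4 (hF _))) (mul_nonneg h3 (hF _))

theorem Rt_2lam_pos {ι : Type*} [DecidableEq ι] {q r : ι} (F : St ι → ℂ) (hF : ∀ m, 0 ≤ F m) (m : St ι)
    (hq : m q = q) (h : 0 < F m) : 0 < Rt q r (2 * lam) F m := by
  have h1 := kk_2lam_pos
  have h2 := xc_pos
  have h3 : (0 : ℂ) < kk (2 * lam) * xc := mul_pos h1 h2
  have h4 : (0 : ℂ) < kk (2 * lam) * xc ^ 2 := mul_pos h1 (pow_pos h2 2)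
  unfold Rt
  rw [w4_2lam, w2_2lam, w6_2lam, if_pos hq]
  split_ifs
  · exact add_pos_of_pos_of_nonneg (mul_pos h1 h) (mul_nonneg h3.le (hF _))
  · exact add_pos_of_pos_of_nonneg (mul_pos h4 h) (mul_nonneg h4.le (hF _))

variable {p l : ℕ}

/-- underlying function of the state -/
def df (hp : l ≤ p) : Lb (2 * p) l → Lb (2 * p) l
  | Sum.inl i => if h : (i : ℕ) % 2 = 1 ∧ (i : ℕ) / 2 < l then Sum.inr ⟨(i : ℕ) / 2, h.2⟩ else Sum.inl i
  | Sum.inr j => Sum.inl ⟨2 * (j : ℕ) + 1, by omega⟩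

theorem df_inr (hp : l ≤ p) (j : Fin l) : df hp (Sum.inr j) = sR l (⟨j, by omega⟩ : Fin p) := rfl

theorem df_pos (hp : l ≤ p) {i : Fin (2 * p)} (h : (i : ℕ) % 2 = 1 ∧ (i : ℕ) / 2 < l) :
    df hp (Sum.inl i) = Sum.inr ⟨(i : ℕ) / 2, h.2⟩ := dif_pos h

theorem df_neg (hp : l ≤ p) {i : Fin (2 * p)} (h : ¬ ((i : ℕ) % 2 = 1 ∧ (i : ℕ) / 2 < l)) :
    df hp (Sum.inl i) = Sum.inl i := dif_neg h

theorem df_inv (hp : l ≤ p) (x : Lb (2 * p) l) : df hp (df hp x) = x := by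
  rcases x with i | j
  · by_cases h : (i : ℕ) % 2 = 1 ∧ (i : ℕ) / 2 < l
    · rw [df_pos hp h]
      change Sum.inl _ = Sum.inl _
      congr 1
      apply Fin.ext
      change 2 * ((i : ℕ) / 2) + 1 = (i : ℕ)
      omega
    · rw [df_neg hp h, df_neg hp h]
  · have h : ((⟨2 * (j : ℕ) + 1, by omega⟩ : Fin (2 * p)) : ℕ) % 2 = 1 ∧
        ((⟨2 * (j : ℕ) + 1, by omega⟩ : Fin (2 * p)) : ℕ) / 2 < l := by
      have := j.2
      constructor
      · change (2 * (j : ℕ) + 1) % 2 = 1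
        omega
      · change (2 * (j : ℕ) + 1) / 2 < l
        omega
    change df hp (Sum.inl _) = _
    rw [df_pos hp h]
    congr 1
    apply Fin.ext
    change (2 * (j : ℕ) + 1) / 2 = (j : ℕ)
    omega

/-- the state -/
def dm (hp : l ≤ p) : Sts (2 * p) l := ⟨df hp, df_inv hp⟩

theorem dm_sL (hp : l ≤ p) (k : Fin p) : dm hp (sL l k) = sL l k := by
  refine df_neg hp ?_
  rintro ⟨h, -⟩
  change (2 * (k : ℕ)) % 2 = 1 at h
  omega

theorem arcless_dm (hp : l ≤ p) : Arcless (dm hp) := by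
  refine ⟨fun j => ⟨_, df_inr hp j⟩, fun i k hik => ?_⟩
  by_cases h : (i : ℕ) % 2 = 1 ∧ (i : ℕ) / 2 < l
  · have h1 : dm hp (Sum.inl i) = Sum.inr ⟨(i : ℕ) / 2, h.2⟩ := df_pos hp h
    rw [h1] at hik
    exact absurd hik (by simp)
  · have h1 : dm hp (Sum.inl i) = Sum.inl i := df_neg hp h
    rw [h1] at hik
    exact Sum.inl.inj hik

theorem evP_dm (hp : l ≤ p) : rl (evP p l) (dm hp) = dm hp := by
  have key : ∀ x : Lb (2 * p) l, evP p l (dm hp x) = dm hp (evP p l x) := by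
    intro x
    by_cases h : ∃ k, x = sL l k
    · obtain ⟨k, rfl⟩ := h
      rw [dm_sL, evP_sL, dm_sL]
    · have h' : ∀ k, x ≠ sL l k := fun k hk => h ⟨k, hk⟩
      rw [evP_out x h', evP_out]
      intro k hk
      have h2 : x = dm hp (sL l k) := by rw [← hk]; simp
      rw [dm_sL] at h2
      exact h' k h2
  apply St.ext'
  intro y
  rw [rl_apply, key, Equiv.apply_symm_apply]

theorem lay_nn (ks : List (Fin p)) (G : Sts (2 * p) l → ℂ) (hG : ∀ m, 0 ≤ G m) (m : Sts (2 * p) l) :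
    0 ≤ Lay (ks.map fun k => (sL l k, sR l k)) (2 * lam) G m := by
  induction ks generalizing m with
  | nil => exact hG m
  | cons k ks ih =>
    rw [List.map_cons, Lay_cons]
    exact Rt_2lam_nn _ ih m

theorem lay_pos (ks : List (Fin p)) (G : Sts (2 * p) l → ℂ) (hG : ∀ m, 0 ≤ G m) (m : Sts (2 * p) l)
    (hm : ∀ k, m (sL l k) = sL l k) (h : 0 < G m) :
    0 < Lay (ks.map fun k => (sL l k, sR l k)) (2 * lam) G m := by
  induction ks with
  | nil => exact h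
  | cons k ks ih =>
    rw [List.map_cons, Lay_cons]
    exact Rt_2lam_pos _ (lay_nn ks G hG) m (hm k) ih

end FusDiag

open FusDiag

theorem exists_diag {p l : ℕ} (hl : 1 ≤ l) (hl3 : l ≤ 3) (hp : l ≤ p) : ∃ m0 : Sts (2 * p) l, Cls m0 ∧
    0 < (Tf lam (Uw (2 * p) (Real.pi / 8)) (Pi.single m0 1) m0).re := by
  refine ⟨dm hp, (arcless_dm hp).cls hl3, ?_⟩
  have e : lam = ((Real.pi / 8 : ℝ) : ℂ) := by unfold lam; push_cast; rfl
  have h1 := Tf_fac (p := p) (l := l) (by omega) (Real.pi / 8) (Pi.single (dm hp) 1)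
  rw [← e] at h1
  rw [h1, Pi.smul_apply, smul_eq_mul]
  have h2 : (0 : ℂ) < sin (2 * lam) * sin (3 * lam) := by
    have e2 : sin (2 * lam) = sin ((Real.pi / 4 : ℝ) : ℂ) := by
      congr 1; unfold lam; push_cast; ring
    have e3 : sin (3 * lam) = sin ((3 * Real.pi / 8 : ℝ) : ℂ) := by
      congr 1; unfold lam; push_cast; ring
    rw [e2, e3]
    have := Real.pi_pos
    exact mul_pos (sin_pos_real (by positivity) (by linarith)) (sin_pos_real (by positivity) (by linarith))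
  have h3 : (0 : ℂ) < Lay (prs p l) (2 * lam) (fun m => (Pi.single (dm hp) 1 : Sts (2 * p) l → ℂ) (rl (evP p l) m))
      (dm hp) := by
    refine lay_pos (List.finRange p) _ (fun m => ?_) _ (dm_sL hp) ?_
    · rw [Pi.single_apply]
      split_ifs
      · exact zero_le_one
      · exact le_refl _
    · rw [evP_dm, Pi.single_eq_same]
      exact zero_lt_one
  have h4 := mul_pos (pow_pos h2 p) h3
  exact (Complex.lt_def.1 h4).1

end Pool.Agent.CYL
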