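import Pool.Agent.CYL.Def

/-!
# CYL, part P, item P3: local moves of the states

`ad i n` is the site `i + n` in cyclic order. The moves at two cyclically adjacent sites `i`, `ad i 1`:
hop to the right, cup, cap.
-/

namespace Pool.Agent.CYL

open Pool.Agent.BEX

section Gen

variable {κ : Type*}

/-- conjugation of a state by a permutation -/
def cj (σ : Equiv.Perm κ) (m : St κ) : St κ := ⟨fun x => σ (m (σ.symm x)), fun x => by simp⟩

theorem cj_ap (σ : Equiv.Perm κ) (m : St κ) (x : κ) : cj σ m x = σ (m (σ.symm x)) := rfl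

theorem cj_mul (σ τ : Equiv.Perm κ) (m : St κ) : cj (σ * τ) m = cj σ (cj τ m) := by
  refine St.ext' fun x => ?_
  rfl

variable [DecidableEq κ]

theorem sw_eq_cj (p q : κ) (m : St κ) : m.sw p q = cj (Equiv.swap p q) m := by
  refine St.ext' fun x => ?_
  rfl

theorem cj_swap_fix {p q : κ} {m : St κ} (hp : m p = p) (hq : m q = q) : cj (Equiv.swap p q) m = m := by
  refine St.ext' fun x => ?_
  rw [cj_ap, Equiv.symm_swap]
  by_cases h1 : x = p
  · subst h1
    rw [Equiv.swap_apply_left, hq, Equiv.swap_apply_right, hp]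
  by_cases h2 : x = q
  · subst h2
    rw [Equiv.swap_apply_right, hp, Equiv.swap_apply_left, hq]
  rw [Equiv.swap_apply_of_ne_of_ne h1 h2, Equiv.swap_apply_of_ne_of_ne]
  · intro h; exact h1 (m.inj (h.trans hp.symm))
  · intro h; exact h2 (m.inj (h.trans hq.symm))

theorem sw_self (p : κ) (m : St κ) : m.sw p p = m := by
  refine St.ext' fun x => ?_
  show Equiv.swap p p (m (Equiv.swap p p x)) = m x
  simp

/-- two successive moves of a leg over empty places -/
theorem sw_sw_fix {p q r : κ} {m : St κ} (hpq : p ≠ q) (hpr : p ≠ r) (hq : m q = q) (hr : m r = r) :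
    (m.sw p q).sw q r = m.sw p r := by
  rw [sw_eq_cj, sw_eq_cj, sw_eq_cj, ← cj_mul, Equiv.mul_swap_eq_swap_mul,
    Equiv.swap_apply_of_ne_of_ne hpq hpr, Equiv.swap_apply_left, cj_mul, cj_swap_fix hq hr]

theorem sw_at_left {p q : κ} {m : St κ} (hq : m q = q) : (m.sw p q) p = p := by
  show Equiv.swap p q (m (Equiv.swap p q p)) = p
  rw [Equiv.swap_apply_left, hq, Equiv.swap_apply_right]

theorem sw_at_right {p q : κ} {m : St κ} (hp : m p ≠ p) (hq : m q = q) : (m.sw p q) q = m p := by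
  show Equiv.swap p q (m (Equiv.swap p q q)) = m p
  rw [Equiv.swap_apply_right, Equiv.swap_apply_of_ne_of_ne hp]
  intro h
  have : p = q := m.inj (h.trans hq.symm)
  exact hp (by rw [h, this])

theorem sw_at_ne {p q x : κ} {m : St κ} (h1 : x ≠ p) (h2 : x ≠ q) :
    (m.sw p q) x = Equiv.swap p q (m x) := by
  show Equiv.swap p q (m (Equiv.swap p q x)) = _
  rw [Equiv.swap_apply_of_ne_of_ne h1 h2]

theorem sw_at_ne' {p q x : κ} {m : St κ} (h1 : x ≠ p) (h2 : x ≠ q) (h3 : m x ≠ p) (h4 : m x ≠ q) :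
    (m.sw p q) x = m x := by
  rw [sw_at_ne h1 h2, Equiv.swap_apply_of_ne_of_ne h3 h4]

end Gen

section Ad

variable {L : ℕ}

/-- the site `i + n`, cyclically -/
def ad (i : Fin L) (n : ℕ) : Fin L := ⟨(i.val + n) % L, Nat.mod_lt _ (lt_of_le_of_lt (Nat.zero_le _) i.isLt)⟩

theorem ad_val (i : Fin L) (n : ℕ) : (ad i n).val = (i.val + n) % L := rfl

@[simp] theorem ad_zero (i : Fin L) : ad i 0 = i := by
  apply Fin.ext
  rw [ad_val, add_zero, Nat.mod_eq_of_lt i.isLt]

theorem ad_ad (i : Fin L) (n k : ℕ) : ad (ad i n) k = ad i (n + k) := by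
  apply Fin.ext
  rw [ad_val, ad_val, ad_val, Nat.mod_add_mod, add_assoc]

theorem ad_add_L (i : Fin L) (n : ℕ) : ad i (n + L) = ad i n := by
  apply Fin.ext
  rw [ad_val, ad_val, ← add_assoc, Nat.add_mod_right]

theorem ad_inj {i : Fin L} {n k : ℕ} (hn : n < L) (hk : k < L) (h : ad i n = ad i k) : n = k := by
  have h1 := congrArg Fin.val h
  rw [ad_val, ad_val] at h1
  have h2 := Nat.ModEq.add_left_cancel' i.val h1
  exact Nat.ModEq.eq_of_lt_of_lt h2 hn hk

theorem ad_ne {i : Fin L} {n k : ℕ} (hn : n < L) (hk : k < L) (h : n ≠ k) : ad i n ≠ ad i k :=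
  fun h' => h (ad_inj hn hk h')

theorem ad_ne_self {i : Fin L} {n : ℕ} (hn : n < L) (h : 0 < n) : ad i n ≠ i := by
  have h1 : ad i n ≠ ad i 0 := ad_ne hn (by omega) (by omega)
  rwa [ad_zero] at h1

theorem exists_ad (i j : Fin L) : ∃ n < L, ad i n = j := by
  refine ⟨(j.val + L - i.val) % L, Nat.mod_lt _ (by have := i.isLt; omega), ?_⟩
  apply Fin.ext
  rw [ad_val, Nat.add_mod_mod]
  have h1 : i.val + (j.val + L - i.val) = j.val + L := by have := i.isLt; omega
  rw [h1, Nat.add_mod_right, Nat.mod_eq_of_lt j.isLt]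

theorem exists_ad_ne {i j : Fin L} (h : i ≠ j) : ∃ n < L, 0 < n ∧ ad i n = j := by
  obtain ⟨n, hn, rfl⟩ := exists_ad i j
  refine ⟨n, hn, Nat.pos_of_ne_zero ?_, rfl⟩
  rintro rfl
  exact h (ad_zero i).symm

end Ad

/-- The moves. -/
inductive Stp {L l : ℕ} (m : Sts L l) : Sts L l → Prop
  | hop (i : Fin L) (hi : m (Sum.inl i) ≠ Sum.inl i) (hj : m (Sum.inl (ad i 1)) = Sum.inl (ad i 1)) :
      Stp m (m.sw (Sum.inl i) (Sum.inl (ad i 1)))
  | cup (i : Fin L) (hne : ad i 1 ≠ i) (hi : m (Sum.inl i) = Sum.inl i)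
      (hj : m (Sum.inl (ad i 1)) = Sum.inl (ad i 1)) : Stp m (m.jn (Sum.inl i) (Sum.inl (ad i 1)))
  | cap (i : Fin L) (hne : ad i 1 ≠ i) (hi : m (Sum.inl i) ≠ Sum.inl i)
      (hj : m (Sum.inl (ad i 1)) ≠ Sum.inl (ad i 1)) (hij : m (Sum.inl i) ≠ Sum.inl (ad i 1)) :
      Stp m (m.cp (Sum.inl i) (Sum.inl (ad i 1)))

variable {L l : ℕ}

theorem inl_ne {L l : ℕ} {i j : Fin L} (h : i ≠ j) : (Sum.inl i : Lb L l) ≠ Sum.inl j :=
  fun h' => h (Sum.inl_injective h')

/-- slide a leg to the right over empty sites -/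
theorem slide (m : Sts L l) (i : Fin L) (hi : m (Sum.inl i) ≠ Sum.inl i) (n : ℕ) (hL : n < L)
    (hn : ∀ e : ℕ, 0 < e → e ≤ n → m (Sum.inl (ad i e)) = Sum.inl (ad i e)) :
    Relation.ReflTransGen Stp m (m.sw (Sum.inl i) (Sum.inl (ad i n))) := by
  induction n with
  | zero => rw [ad_zero, sw_self]
  | succ n ih =>
    have h1 := ih (by omega) fun e he he' => hn e he (by omega)
    refine h1.tail ?_
    have hs : ad i (n + 1) = ad (ad i n) 1 := (ad_ad i n 1).symm
    have hem := hn (n + 1) (by omega) le_rfl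
    rcases Nat.eq_zero_or_pos n with h0 | hpos
    · subst h0
      rw [hs] at hem ⊢
      rw [ad_zero] at hem ⊢
      rw [sw_self]
      exact Stp.hop i hi hem
    · have hem' := hn n hpos (by omega)
      have e1 : (Sum.inl i : Lb L l) ≠ Sum.inl (ad i n) := inl_ne (ad_ne_self (by omega) hpos).symm
      have e2 : (Sum.inl i : Lb L l) ≠ Sum.inl (ad i (n + 1)) := inl_ne (ad_ne_self hL (by omega)).symm
      have e3 : (Sum.inl (ad i (n + 1)) : Lb L l) ≠ Sum.inl (ad i n) :=
        inl_ne (ad_ne hL (by omega) (by omega))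
      rw [← sw_sw_fix e1 e2 hem' hem, hs]
      refine Stp.hop _ ?_ ?_
      · rw [sw_at_right hi hem']
        intro h
        exact e1 (m.inj (h.trans hem'.symm))
      · rw [← hs, sw_at_ne' e2.symm e3 (by rw [hem]; exact e2.symm) (by rw [hem]; exact e3), hem]

end Pool.Agent.CYL
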