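import Mathlib
import Pool.Agent.CYL.P.DblL
import Pool.Agent.BEX.ACapRt

/-!
# CYL, part PF, fusion: commutation of the splitting operators with everything else
-/

set_option linter.unusedVariables false
set_option linter.unusedSectionVars false

namespace Pool.Agent.CYL.Db

open Complex Pool.Agent.BEX

section loc

variable {ι : Type*} [DecidableEq ι]

/-- comparison of two functions at the five states that matter -/
theorem Rt_rel {a s : ι} {u c : ℂ} {F F' : St ι → ℂ} {M : St ι} (h0 : F' M = c * F M)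
    (h1 : F' (M.sw a s) = c * F (M.sw a s)) (h2 : F' (M.jn a s) = c * F (M.jn a s))
    (h3 : F' (M.cp a s) = c * F (M.cp a s))
    (h4 : F' ((M.cp a s).jn a s) = c * F ((M.cp a s).jn a s)) :
    Rt a s u F' M = c * Rt a s u F M := by
  unfold Rt
  split_ifs <;> simp only [h0, h1, h2, h3, h4] <;> ring

theorem Sp_rel {q r : ι} {c : ℂ} {F F' : St ι → ℂ} {M : St ι} (h0 : F' M = c * F M)
    (h1 : F' (M.sw q r) = c * F (M.sw q r)) (h2 : F' (M.jn q r) = c * F (M.jn q r)) :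
    Sp q r F' M = c * Sp q r F M := by
  unfold Sp
  split_ifs <;> simp only [h0, h1, h2] <;> ring

/-- comparison on a class of states -/
theorem Rt_congr {a s : ι} {u : ℂ} {F F' : St ι → ℂ} {M : St ι} {P : St ι → Prop}
    (hP : P M) (h1 : P (M.sw a s)) (h2 : P (M.jn a s)) (h3 : P (M.cp a s))
    (h4 : P ((M.cp a s).jn a s)) (h : ∀ N, P N → F' N = F N) :
    Rt a s u F' M = Rt a s u F M := by
  have h5 := Rt_rel (a := a) (s := s) (u := u) (c := 1) (F := F) (F' := F') (M := M)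
    (by rw [one_mul]; exact h _ hP) (by rw [one_mul]; exact h _ h1)
    (by rw [one_mul]; exact h _ h2) (by rw [one_mul]; exact h _ h3) (by rw [one_mul]; exact h _ h4)
  rw [h5, one_mul]

theorem Sp_congr {q r : ι} {F F' : St ι → ℂ} {M : St ι} {P : St ι → Prop}
    (hP : P M) (h1 : P (M.sw q r)) (h2 : P (M.jn q r)) (h : ∀ N, P N → F' N = F N) :
    Sp q r F' M = Sp q r F M := by
  have h5 := Sp_rel (q := q) (r := r) (c := 1) (F := F) (F' := F') (M := M)
    (by rw [one_mul]; exact h _ hP) (by rw [one_mul]; exact h _ h1)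
    (by rw [one_mul]; exact h _ h2)
  rw [h5, one_mul]

/-- a line which is not touched stays as it is -/
theorem fix_jn {a s x : ι} {M : St ι} (hax : a ≠ x) (hsx : s ≠ x) :
    (M.jn a s) x = x ↔ M x = x := by rw [M.jn_fix hax hsx]

theorem fix_sw {a s x : ι} {M : St ι} (hax : a ≠ x) (hsx : s ≠ x) :
    (M.sw a s) x = x ↔ M x = x := M.sw_fix hax hsx hax hsx

theorem fix_cp {a s x : ι} {M : St ι} (has : a ≠ s) (hax : a ≠ x) (hsx : s ≠ x) :
    (M.cp a s) x = x ↔ M x = x := M.cp_fix has hax hsx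

theorem fix_cj {a s x : ι} {M : St ι} (has : a ≠ s) (hax : a ≠ x) (hsx : s ≠ x) :
    ((M.cp a s).jn a s) x = x ↔ M x = x := by rw [fix_jn hax hsx, fix_cp has hax hsx]

/-- Splitting commutes with the operators on other lines. -/
theorem Sp_far {q r a s : ι} (hqr : q ≠ r) (hqa : q ≠ a) (hqs : q ≠ s) (hra : r ≠ a)
    (hrs : r ≠ s) (has : a ≠ s) (u : ℂ) (F : St ι → ℂ) {M : St ι} (hr : M r = r) :
    Sp q r (Rt a s u F) M = Rt a s u (Sp q r F) M := by
  set c : ℂ := (if M q = q then (kk (2 * lam))⁻¹ else (kk (2 * lam) * xc)⁻¹) with hc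
  have key : ∀ N : St ι, (N q = q ↔ M q = q) → (N r = r ↔ M r = r) →
      Sp q r F N = c * Rt q r (2 * lam) F N := by
    intro N h1 h2
    rw [Sp_eq_Rt F (h2.2 hr)]
    simp only [h1, hc]
  rw [Sp_eq_Rt _ hr, rt_far hqr hqa hqs hra hrs has, ← hc]
  refine (Rt_rel (key _ Iff.rfl Iff.rfl) (key _ (fix_sw hqa.symm hqs.symm) (fix_sw hra.symm hrs.symm))
    (key _ (fix_jn hqa.symm hqs.symm) (fix_jn hra.symm hrs.symm))
    (key _ (fix_cp has hqa.symm hqs.symm) (fix_cp has hra.symm hrs.symm))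
    (key _ (fix_cj has hqa.symm hqs.symm) (fix_cj has hra.symm hrs.symm))).symm

/-- Splittings of different lines commute. -/
theorem Sp_comm {q r a s : ι} (hqr : q ≠ r) (hqa : q ≠ a) (hqs : q ≠ s) (hra : r ≠ a)
    (hrs : r ≠ s) (has : a ≠ s) (F : St ι → ℂ) {M : St ι} (hr : M r = r) (hs : M s = s) :
    Sp q r (Sp a s F) M = Sp a s (Sp q r F) M := by
  set c : ℂ := (if M q = q then (kk (2 * lam))⁻¹ else (kk (2 * lam) * xc)⁻¹) with hc
  have key : ∀ N : St ι, (N q = q ↔ M q = q) → (N r = r ↔ M r = r) →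
      Sp q r F N = c * Rt q r (2 * lam) F N := by
    intro N h1 h2
    rw [Sp_eq_Rt F (h2.2 hr)]
    simp only [h1, hc]
  rw [Sp_eq_Rt _ hr, ← Sp_far has hqa.symm hra.symm hqs.symm hrs.symm hqr _ _ hs, ← hc]
  exact (Sp_rel (key _ Iff.rfl Iff.rfl) (key _ (fix_sw hqa.symm hqs.symm) (fix_sw hra.symm hrs.symm))
    (key _ (fix_jn hqa.symm hqs.symm) (fix_jn hra.symm hrs.symm))).symm

theorem Sp_Phi {α : Type*} [DecidableEq α] {f : α → ι} (hf : Function.Injective f) {m : St ι}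
    (h : Stab f m) (q r : α) (F : St ι → ℂ) (ν : St α) :
    Sp (f q) (f r) F (Phi f hf m h ν) = Sp q r (fun μ => F (Phi f hf m h μ)) ν := by
  unfold Sp
  simp only [Phi_apply, hf.eq_iff, ← Phi_sw, ← Phi_jn]

/-- The cup commutes with splittings. -/
theorem cupF_Sp (q r : ι) (G : St (Option (Option ι)) → ℂ) :
    cupF (Sp (lb q) (lb r) G) = Sp q r (cupF G) := by
  funext m
  unfold cupF
  rw [ext0_eq, ext1_eq, Sp_Phi, Sp_Phi]
  simp only [← ext0_eq, ← ext1_eq]
  unfold Sp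
  split_ifs <;> ring

/-- The cap commutes with splittings. -/
theorem capF_Sp [Fintype ι] {q r : ι} (hqr : q ≠ r) (F : St ι → ℂ) {M : St (Option (Option ι))}
    (hr : M (lb r) = lb r) : capF (Sp q r F) M = Sp (lb q) (lb r) (capF F) M := by
  set c : ℂ := (if M (lb q) = lb q then (kk (2 * lam))⁻¹ else (kk (2 * lam) * xc)⁻¹) with hc
  rw [Sp_eq_Rt _ hr, ← hc, ← capF_Rt hqr]
  have key : ∀ n : St ι, (n q = q ↔ M (lb q) = lb q) → n r = r →
      Sp q r F n = c * Rt q r (2 * lam) F n := by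
    intro n h1 h2
    rw [Sp_eq_Rt F h2]
    simp only [h1, hc]
  by_cases hA : M ax = ax ∧ M ax' = ax'
  · obtain ⟨m, rfl⟩ : ∃ m, M = ext0 m := ⟨_, (ext0_res M hA.1 hA.2).symm⟩
    rw [capF_ext0, capF_ext0]
    refine key m ?_ ?_
    · rw [ext0_lb, lb_inj.eq_iff]
    · rw [ext0_lb, lb_inj.eq_iff] at hr
      exact hr
  by_cases hB : M ax = ax ∨ M ax' = ax'
  · rw [capF_zero _ _ hB hA, capF_zero _ _ hB hA, mul_zero]
  by_cases hC : M ax = ax'
  · rw [capF_arc _ _ hC, capF_arc _ _ hC, mul_zero]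
  push Not at hB
  obtain ⟨hB1, hB2⟩ := hB
  obtain ⟨c1, c2⟩ := cp_ax hB1 hB2
  rw [capF_cp _ _ hB1 hB2 hC, capF_cp _ _ hB1 hB2 hC]
  obtain ⟨m, hm⟩ : ∃ m, M.cp ax ax' = ext0 m := ⟨_, (ext0_res _ c1 c2).symm⟩
  rw [hm, res_ext0]
  have e : ∀ x : ι, m x = x ↔ M (lb x) = lb x := by
    intro x
    rw [← M.cp_fix (p := ax) (q := ax') (by simp) (by simp) (by simp), hm, ext0_lb, lb_inj.eq_iff]
  exact key m (e q) ((e r).2 hr)

end loc

end Pool.Agent.CYL.Db
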