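import Mathlib
import Pool.Agent.CYL.P.DblC

/-!
# CYL, part PF, fusion: the transfer matrix of `2 p` sites with `U = (-lam, lam, -lam, lam, ..)` and the
# homogeneous one of `p` sites

`Dd_Tf`: `Dd (Tf lam U G) = C ^ p * Tf lam 0 (Dd G)`.
-/

set_option linter.unusedVariables false
set_option linter.unusedSectionVars false

namespace Pool.Agent.CYL.Db

open Complex Pool.Agent.BEX

section gen

variable {κ : Type*} [DecidableEq κ] {β : Type*}

/-- all splittings of the list -/
noncomputable def Sall (x y : β → κ) (K : List β) (H : St κ → ℂ) : St κ → ℂ :=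
  K.foldr (fun k H => Sp (x k) (y k) H) H

/-- crossing all the pairs -/
noncomputable def T2 (a : κ) (x y : β → κ) (K : List β) (H : St κ → ℂ) : St κ → ℂ :=
  K.foldr (fun k H => Rt a (x k) (2 * lam) (Rt a (y k) 0 H)) H

/-- crossing the left lines -/
noncomputable def T1 (a : κ) (x : β → κ) (K : List β) (H : St κ → ℂ) : St κ → ℂ :=
  K.foldr (fun k H => Rt a (x k) lam H) H

variable {a : κ} {x y : β → κ}

/-- the right lines of the list are empty -/
def Em (y : β → κ) (K : List β) (M : St κ) : Prop := ∀ k ∈ K, M (y k) = y k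

theorem Em.sw {K : List β} {M : St κ} (h : Em y K M) {p q : κ} (hp : ∀ k ∈ K, p ≠ y k)
    (hq : ∀ k ∈ K, q ≠ y k) : Em y K (M.sw p q) :=
  fun k hk => (fix_sw (hp k hk) (hq k hk)).2 (h k hk)

theorem Em.jn {K : List β} {M : St κ} (h : Em y K M) {p q : κ} (hp : ∀ k ∈ K, p ≠ y k)
    (hq : ∀ k ∈ K, q ≠ y k) : Em y K (M.jn p q) :=
  fun k hk => (fix_jn (hp k hk) (hq k hk)).2 (h k hk)

theorem Em.cp {K : List β} {M : St κ} (h : Em y K M) {p q : κ} (hpq : p ≠ q)
    (hp : ∀ k ∈ K, p ≠ y k) (hq : ∀ k ∈ K, q ≠ y k) : Em y K (M.cp p q) :=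
  fun k hk => (fix_cp hpq (hp k hk) (hq k hk)).2 (h k hk)

/-- the labels are in general position -/
structure Pos (a : κ) (x y : β → κ) : Prop where
  ax : ∀ k, a ≠ x k
  ay : ∀ k, a ≠ y k
  xy : ∀ j k, x j ≠ y k
  xx : ∀ j k, j ≠ k → x j ≠ x k
  yy : ∀ j k, j ≠ k → y j ≠ y k

variable (hP : Pos a x y)

include hP

/-- The splittings commute with the crossing of another line. -/
theorem Sall_far {K : List β} (hK : K.Nodup) {s : κ} (has : a ≠ s) (hsx : ∀ k ∈ K, x k ≠ s)
    (hsy : ∀ k ∈ K, y k ≠ s) (u : ℂ) (F : St κ → ℂ) {M : St κ} (hM : Em y K M) :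
    Sall x y K (Rt a s u F) M = Rt a s u (Sall x y K F) M := by
  induction K generalizing M with
  | nil => rfl
  | cons k K ih =>
    rw [List.nodup_cons] at hK
    have hy : ∀ j ∈ K, j ≠ k := fun j hj h => hK.1 (h ▸ hj)
    have hM' : Em y K M := fun j hj => hM j (List.mem_cons_of_mem _ hj)
    have e1 : Sall x y (k :: K) (Rt a s u F) M = Sp (x k) (y k) (Sall x y K (Rt a s u F)) M := rfl
    have e2 : Sp (x k) (y k) (Sall x y K (Rt a s u F)) M =
        Sp (x k) (y k) (Rt a s u (Sall x y K F)) M := by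
      refine Sp_congr (P := Em y K) hM' ?_ ?_ ?_
      · exact hM'.sw (fun j _ => hP.xy k j) (fun j hj => hP.yy k j (hy j hj).symm)
      · exact hM'.jn (fun j _ => hP.xy k j) (fun j hj => hP.yy k j (hy j hj).symm)
      · intro N hN
        exact ih hK.2 (fun j hj => hsx j (List.mem_cons_of_mem _ hj))
          (fun j hj => hsy j (List.mem_cons_of_mem _ hj)) hN
    rw [e1, e2]
    exact Sp_far (hP.xy k k) (hP.ax k).symm (hsx k List.mem_cons_self) (hP.ay k).symm
      (hsy k List.mem_cons_self) has u _ (hM k List.mem_cons_self)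

/-- A splitting commutes with the crossing of other lines. -/
theorem Sp_T1 {K : List β} {k : β} (hk : k ∉ K) (F : St κ → ℂ) {M : St κ} (hM : M (y k) = y k) :
    Sp (x k) (y k) (T1 a x K F) M = T1 a x K (Sp (x k) (y k) F) M := by
  induction K generalizing M with
  | nil => rfl
  | cons j K ih =>
    rw [List.mem_cons, not_or] at hk
    have e1 : T1 a x (j :: K) F = Rt a (x j) lam (T1 a x K F) := rfl
    have e2 : T1 a x (j :: K) (Sp (x k) (y k) F) = Rt a (x j) lam (T1 a x K (Sp (x k) (y k) F)) := rfl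
    rw [e1, e2, Sp_far (hP.xy k k) (hP.ax k).symm (hP.xx k j hk.1) (hP.ay k).symm
      (hP.xy j k).symm (hP.ax j) lam _ hM]
    refine Rt_congr (P := fun N : St κ => N (y k) = y k) hM ?_ ?_ ?_ ?_ (fun N hN => ih hk.2 hN)
    · exact (fix_sw (hP.ay k) (hP.xy j k)).2 hM
    · exact (fix_jn (hP.ay k) (hP.xy j k)).2 hM
    · exact (fix_cp (hP.ax j) (hP.ay k) (hP.xy j k)).2 hM
    · exact (fix_cj (hP.ax j) (hP.ay k) (hP.xy j k)).2 hM

/-- Congruence for crossings of the left lines. -/
theorem T1_congr {K L : List β} {F F' : St κ → ℂ} (h : ∀ N, Em y L N → F' N = F N) {M : St κ}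
    (hM : Em y L M) : T1 a x K F' M = T1 a x K F M := by
  induction K generalizing M with
  | nil => exact h M hM
  | cons j K ih =>
    refine Rt_congr (P := Em y L) hM ?_ ?_ ?_ ?_ (fun N hN => ih hN)
    · exact hM.sw (fun k _ => hP.ay k) (fun k _ => hP.xy j k)
    · exact hM.jn (fun k _ => hP.ay k) (fun k _ => hP.xy j k)
    · exact hM.cp (hP.ax j) (fun k _ => hP.ay k) (fun k _ => hP.xy j k)
    · exact (hM.cp (hP.ax j) (fun k _ => hP.ay k) (fun k _ => hP.xy j k)).jn (fun k _ => hP.ay k)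
        (fun k _ => hP.xy j k)

/-- Fusion of all pairs. -/
theorem Sall_T2 {K : List β} (hK : K.Nodup) (H : St κ → ℂ) {M : St κ} (hM : Em y K M) :
    Sall x y K (T2 a x y K H) M =
      (kk (2 * lam) * kk 0 / kk lam) ^ K.length * T1 a x K (Sall x y K H) M := by
  induction K generalizing M with
  | nil => simp [Sall, T2, T1]
  | cons k K ih =>
    rw [List.nodup_cons] at hK
    have hy : ∀ j ∈ K, k ≠ j := fun j hj h => hK.1 (h ▸ hj)
    have hx1 : ∀ j ∈ K, x j ≠ x k := fun j hj => hP.xx j k (hy j hj).symm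
    have hx2 : ∀ j ∈ K, y j ≠ x k := fun j hj => (hP.xy k j).symm
    have hy1 : ∀ j ∈ K, x j ≠ y k := fun j hj => hP.xy j k
    have hy2 : ∀ j ∈ K, y j ≠ y k := fun j hj => hP.yy j k (hy j hj).symm
    have ha : ∀ j ∈ K, a ≠ y j := fun j _ => hP.ay j
    have hM' : Em y K M := fun j hj => hM j (List.mem_cons_of_mem _ hj)
    set C := (kk (2 * lam) * kk 0 / kk lam) with hC
    set G := T1 a x K (Sall x y K H) with hG
    -- crossing of the lines of the pair `k`
    have e2 : ∀ N, Em y K N → Sall x y K (Rt a (x k) (2 * lam) (Rt a (y k) 0 (T2 a x y K H))) N =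
        C ^ K.length * Rt a (x k) (2 * lam) (Rt a (y k) 0 G) N := by
      intro N hN
      rw [Sall_far hP hK.2 (hP.ax k) hx1 hx2 _ _ hN]
      have in1 : ∀ N, Em y K N → Sall x y K (Rt a (y k) 0 (T2 a x y K H)) N =
          C ^ K.length * Rt a (y k) 0 G N := by
        intro N hN
        rw [Sall_far hP hK.2 (hP.ay k) hy1 hy2 _ _ hN]
        have b1 : Em y K (N.sw a (y k)) := hN.sw ha (fun j hj => (hy2 j hj).symm)
        have b2 : Em y K (N.jn a (y k)) := hN.jn ha (fun j hj => (hy2 j hj).symm)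
        have b3 : Em y K (N.cp a (y k)) := hN.cp (hP.ay k) ha (fun j hj => (hy2 j hj).symm)
        have b4 : Em y K ((N.cp a (y k)).jn a (y k)) := b3.jn ha (fun j hj => (hy2 j hj).symm)
        exact Rt_rel (ih hK.2 hN) (ih hK.2 b1) (ih hK.2 b2) (ih hK.2 b3) (ih hK.2 b4)
      have b1 : Em y K (N.sw a (x k)) := hN.sw ha (fun j hj => (hx2 j hj).symm)
      have b2 : Em y K (N.jn a (x k)) := hN.jn ha (fun j hj => (hx2 j hj).symm)
      have b3 : Em y K (N.cp a (x k)) := hN.cp (hP.ax k) ha (fun j hj => (hx2 j hj).symm)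
      have b4 : Em y K ((N.cp a (x k)).jn a (x k)) := b3.jn ha (fun j hj => (hx2 j hj).symm)
      exact Rt_rel (in1 _ hN) (in1 _ b1) (in1 _ b2) (in1 _ b3) (in1 _ b4)
    have e1 : Sall x y (k :: K) (T2 a x y (k :: K) H) M =
        Sp (x k) (y k) (Sall x y K (Rt a (x k) (2 * lam) (Rt a (y k) 0 (T2 a x y K H)))) M := rfl
    have f1 : Em y K (M.sw (x k) (y k)) :=
      hM'.sw (fun j hj => (hx2 j hj).symm) (fun j hj => (hy2 j hj).symm)
    have f2 : Em y K (M.jn (x k) (y k)) :=
      hM'.jn (fun j hj => (hx2 j hj).symm) (fun j hj => (hy2 j hj).symm)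
    have hkk := hM k List.mem_cons_self
    have e3 : T1 a x (k :: K) (Sall x y (k :: K) H) M =
        Rt a (x k) lam (T1 a x K (Sp (x k) (y k) (Sall x y K H))) M := rfl
    have e4 : Rt a (x k) lam (T1 a x K (Sp (x k) (y k) (Sall x y K H))) M =
        Rt a (x k) lam (Sp (x k) (y k) G) M := by
      refine Rt_congr (P := fun N : St κ => N (y k) = y k) hkk ?_ ?_ ?_ ?_
        (fun N hN => (Sp_T1 hP hK.1 _ hN).symm)
      · exact (fix_sw (hP.ay k) (hP.xy k k)).2 hkk
      · exact (fix_jn (hP.ay k) (hP.xy k k)).2 hkk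
      · exact (fix_cp (hP.ax k) (hP.ay k) (hP.xy k k)).2 hkk
      · exact (fix_cj (hP.ax k) (hP.ay k) (hP.xy k k)).2 hkk
    rw [e1, Sp_rel (e2 _ hM') (e2 _ f1) (e2 _ f2), Sp_RR (hP.ax k) (hP.ay k) (hP.xy k k) G hkk,
      e3, e4, List.length_cons, pow_succ, hC]
    ring

end gen

section cupcap

variable {ι : Type*} [DecidableEq ι] {β : Type*} {x y : β → ι}

theorem cupF_Sall (K : List β) (H : St (Option (Option ι)) → ℂ) :
    cupF (Sall (fun k => lb (x k)) (fun k => lb (y k)) K H) = Sall x y K (cupF H) := by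
  induction K with
  | nil => rfl
  | cons k K ih =>
    have e1 : Sall (fun k => lb (x k)) (fun k => lb (y k)) (k :: K) H =
      Sp (lb (x k)) (lb (y k)) (Sall (fun k => lb (x k)) (fun k => lb (y k)) K H) := rfl
    rw [e1, cupF_Sp, ih]
    rfl

theorem capF_Sall [Fintype ι] {K : List β} (hK : K.Nodup) (hxy : ∀ j k, x j ≠ y k)
    (hyy : ∀ j k, j ≠ k → y j ≠ y k) (F : St ι → ℂ) {M : St (Option (Option ι))}
    (hM : Em (fun k => lb (y k)) K M) :
    capF (Sall x y K F) M = Sall (fun k => lb (x k)) (fun k => lb (y k)) K (capF F) M := by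
  induction K generalizing M with
  | nil => rfl
  | cons k K ih =>
    rw [List.nodup_cons] at hK
    have hM' : Em (fun k => lb (y k)) K M := fun j hj => hM j (List.mem_cons_of_mem _ hj)
    have e1 : Sall x y (k :: K) F = Sp (x k) (y k) (Sall x y K F) := rfl
    have e2 : Sall (fun k => lb (x k)) (fun k => lb (y k)) (k :: K) (capF F) =
      Sp (lb (x k)) (lb (y k)) (Sall (fun k => lb (x k)) (fun k => lb (y k)) K (capF F)) := rfl
    rw [e1, e2, capF_Sp (hxy k k) _ (hM k List.mem_cons_self)]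
    have h1 : ∀ j ∈ K, (lb (x k) : Option (Option ι)) ≠ lb (y j) :=
      fun j _ h => hxy k j (lb_inj h)
    have h2 : ∀ j ∈ K, (lb (y k) : Option (Option ι)) ≠ lb (y j) :=
      fun j hj h => hyy k j (fun e => hK.1 (e ▸ hj)) (lb_inj h)
    exact Sp_congr (P := Em (fun k => lb (y k)) K) hM' (hM'.sw h1 h2) (hM'.jn h1 h2)
      (fun N hN => ih hK.2 hN)

end cupcap

section trans

variable {α ι : Type*} [DecidableEq α] [DecidableEq ι] {f : α → ι} (hf : Function.Injective f)

/-- the extension of `f` to the auxiliary labels -/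
def of2 (f : α → ι) : Option (Option α) → Option (Option ι) := Option.map (Option.map f)

omit [DecidableEq α] [DecidableEq ι] in
theorem of2_inj (hf : Function.Injective f) : Function.Injective (of2 f) :=
  Option.map_injective (Option.map_injective hf)

/-- the state `m` carried by the labels `f` -/
noncomputable def upf (m : St α) : St ι := Phi f hf St.emp (fun a => ⟨a, rfl⟩) m

/-- the same for the auxiliary labels -/
noncomputable def upf2 (m : St (Option (Option α))) : St (Option (Option ι)) :=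
  upf (of2_inj hf) m

omit [DecidableEq α] [DecidableEq ι] in
@[simp] theorem upf_apply (m : St α) (i : α) : upf hf m (f i) = f (m i) := by
  unfold upf
  rw [Phi_apply]

omit [DecidableEq α] [DecidableEq ι] in
theorem upf_out (m : St α) {z : ι} (hz : ¬ ∃ a, f a = z) : upf hf m z = z := by
  unfold upf
  rw [Phi_out _ _ _ hz]
  rfl

omit [DecidableEq α] [DecidableEq ι] in
theorem upf2_lb (m : St (Option (Option α))) (i : α) :
    upf2 hf m (lb (f i)) = of2 f (m (lb i)) := upf_apply (of2_inj hf) m (lb i)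

omit [DecidableEq α] [DecidableEq ι] in
theorem upf2_ax (m : St (Option (Option α))) : upf2 hf m ax = of2 f (m ax) :=
  upf_apply (of2_inj hf) m ax

omit [DecidableEq α] [DecidableEq ι] in
theorem upf2_ax' (m : St (Option (Option α))) : upf2 hf m ax' = of2 f (m ax') :=
  upf_apply (of2_inj hf) m ax'

omit [DecidableEq α] [DecidableEq ι] in
theorem ext0_upf (m : St α) : ext0 (upf hf m) = upf2 hf (ext0 m) := by
  refine St.ext' fun z => ?_
  rcases oo_cases z with rfl | rfl | ⟨i, rfl⟩
  · rw [upf2_ax]; rfl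
  · rw [upf2_ax']; rfl
  · rw [ext0_lb]
    by_cases hz : ∃ a, f a = i
    · obtain ⟨a, rfl⟩ := hz
      rw [upf_apply, upf2_lb, ext0_lb]
      rfl
    · rw [upf_out hf m hz]
      refine (upf_out (of2_inj hf) _ ?_).symm
      rintro ⟨b, hb⟩
      rcases oo_cases b with rfl | rfl | ⟨c, rfl⟩
      · simp [of2, ax, lb] at hb
      · simp [of2, ax', lb] at hb
      · exact hz ⟨c, by simpa [of2, lb] using hb⟩

theorem ext1_upf (m : St α) : ext1 (upf hf m) = upf2 hf (ext1 m) := by
  have h := Phi_jn (of2_inj hf) (m := St.emp) (fun a => ⟨a, rfl⟩) ax ax' (ext0 m)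
  unfold ext1
  rw [ext0_upf]
  exact h.symm

theorem upf2_cp (m : St (Option (Option α))) :
    upf2 hf (m.cp ax ax') = (upf2 hf m).cp ax ax' :=
  Phi_cp (of2_inj hf) (m := St.emp) (fun a => ⟨a, rfl⟩) ax ax' m

omit [DecidableEq α] [DecidableEq ι] in
theorem of2_eq_ax (z : Option (Option α)) : (of2 f z = ax) ↔ (z = ax) := by
  rcases oo_cases z with rfl | rfl | ⟨i, rfl⟩ <;> simp [of2, ax, ax', lb]

omit [DecidableEq α] [DecidableEq ι] in
theorem of2_eq_ax' (z : Option (Option α)) : (of2 f z = ax') ↔ (z = ax') := by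
  rcases oo_cases z with rfl | rfl | ⟨i, rfl⟩ <;> simp [of2, ax, ax', lb]

theorem capF_upf [Fintype α] [Fintype ι] (F : St ι → ℂ) (N : St (Option (Option α))) :
    capF F (upf2 hf N) = capF (fun n => F (upf hf n)) N := by
  have e1 : upf2 hf N ax = ax ↔ N ax = ax := by rw [upf2_ax, of2_eq_ax]
  have e2 : upf2 hf N ax' = ax' ↔ N ax' = ax' := by rw [upf2_ax', of2_eq_ax']
  have e3 : upf2 hf N ax = ax' ↔ N ax = ax' := by rw [upf2_ax, of2_eq_ax']
  have key : ∀ N : St (Option (Option α)), N ax = ax → N ax' = ax' →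
      res (upf2 hf N) = upf hf (res N) := by
    intro N h1 h2
    obtain ⟨n, rfl⟩ : ∃ n, N = ext0 n := ⟨_, (ext0_res N h1 h2).symm⟩
    rw [← ext0_upf, res_ext0, res_ext0]
  by_cases h1 : N ax = ax
  · by_cases h2 : N ax' = ax'
    · unfold capF
      rw [if_pos (e1.2 h1), if_pos (e2.2 h2), if_pos h1, if_pos h2, key N h1 h2]
    · rw [capF_zero _ _ (Or.inl (e1.2 h1)) (fun h => h2 (e2.1 h.2)),
        capF_zero _ _ (Or.inl h1) (fun h => h2 h.2)]
  · by_cases h2 : N ax' = ax'
    · rw [capF_zero _ _ (Or.inr (e2.2 h2)) (fun h => h1 (e1.1 h.1)),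
        capF_zero _ _ (Or.inr h2) (fun h => h1 h.1)]
    · by_cases h3 : N ax = ax'
      · rw [capF_arc _ _ (e3.2 h3), capF_arc _ _ h3]
      · obtain ⟨c1, c2⟩ := cp_ax h1 h2
        rw [capF_cp _ _ (e1.not.2 h1) (e2.not.2 h2) (e3.not.2 h3), capF_cp _ _ h1 h2 h3,
          ← upf2_cp, key _ c1 c2]

theorem T1_upf {β : Type*} (x : β → α) (K : List β) (H : St (Option (Option ι)) → ℂ)
    (N : St (Option (Option α))) :
    T1 ax (fun k => lb (f (x k))) K H (upf2 hf N) =
      T1 ax (fun k => lb (x k)) K (fun n => H (upf2 hf n)) N := by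
  induction K generalizing N with
  | nil => rfl
  | cons k K ih =>
    have e1 : T1 ax (fun k => lb (f (x k))) (k :: K) H =
      Rt ax (lb (f (x k))) lam (T1 ax (fun k => lb (f (x k))) K H) := rfl
    have e2 : T1 ax (fun k => lb (x k)) (k :: K) (fun n => H (upf2 hf n)) =
      Rt ax (lb (x k)) lam (T1 ax (fun k => lb (x k)) K (fun n => H (upf2 hf n))) := rfl
    rw [e1, e2]
    have h := Rt_Phi (of2_inj hf) (m := St.emp) (fun a => ⟨a, rfl⟩) ax (lb (x k)) lam
      (T1 ax (fun k => lb (f (x k))) K H) N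
    refine h.trans ?_
    congr 1
    funext n
    exact ih n

end trans

section main

variable {p l : ℕ}

theorem lns_two (p l : ℕ) :
    lns (2 * p) l = (List.finRange p).flatMap fun k => [sL l k, sR l k] := by
  unfold lns
  rw [← List.ofFn_id, List.map_ofFn, List.ofFn_mul', List.flatMap, ← List.ofFn_id (n := p),
    List.map_ofFn]
  congr 1

theorem pos_s (p l : ℕ) : Pos (ax : Option (Option (Lb (2 * p) l))) (fun k : Fin p => lb (sL l k))
    (fun k : Fin p => lb (sR l k)) where
  ax := fun k => by simp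
  ay := fun k => by simp
  xy := fun j k h => by
    have h1 := lb_inj h
    simp only [sL, sR, Sum.inl.injEq, Fin.mk.injEq] at h1
    omega
  xx := fun j k hjk h => by
    have h1 := lb_inj h
    simp only [sL, Sum.inl.injEq, Fin.mk.injEq] at h1
    exact hjk (Fin.ext (by omega))
  yy := fun j k hjk h => by
    have h1 := lb_inj h
    simp only [sR, Sum.inl.injEq, Fin.mk.injEq] at h1
    exact hjk (Fin.ext (by omega))

theorem sR_not_i2 (k : Fin p) : ¬ ∃ i : Lb p l, i2 i = sR l k := by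
  rintro ⟨i | j, h⟩
  · simp only [i2, Sum.elim_inl, sL, sR, Sum.inl.injEq, Fin.mk.injEq] at h
    omega
  · simp [i2, sR] at h

theorem up_eq (m : Sts p l) : up m = upf i2_inj m := rfl

theorem Dd_eq (G : Sts (2 * p) l → ℂ) (m : Sts p l) :
    Dd G m = Sall (sL l) (sR l) (List.finRange p) G (up m) := rfl

/-- the transfer matrix of the `2 p` sites as a product over the pairs -/
theorem Tf_two (G : Sts (2 * p) l → ℂ) :
    Tf lam (fun i => -(Uw (2 * p) (Real.pi / 8) i)) G =
      cupF (T2 ax (fun k => lb (sL l k)) (fun k => lb (sR l k)) (List.finRange p) (capF G)) := by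
  have hl : ((Real.pi / 8 : ℝ) : ℂ) = lam := AOm_lam
  unfold Tf Tt
  rw [lns_two, List.foldr_flatMap]
  congr 1
  unfold T2
  congr 1
  funext k H
  simp only [List.foldr_cons, List.foldr_nil]
  have h1 : rap (l := l) (fun i => -(Uw (2 * p) (Real.pi / 8) i)) (sL l k) = -lam := by
    simp only [rap, sL, Sum.elim_inl, Uw]
    rw [if_pos (by omega), hl]
  have h2 : rap (l := l) (fun i => -(Uw (2 * p) (Real.pi / 8) i)) (sR l k) = lam := by
    simp only [rap, sR, Sum.elim_inl, Uw]
    rw [if_neg (by omega), hl, neg_neg]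
  rw [h1, h2, sub_self, sub_neg_eq_add, ← two_mul]

/-- the homogeneous transfer matrix of the `p` sites -/
theorem Tf_one (F : Sts p l → ℂ) :
    Tf lam (fun _ => 0) F =
      cupF (T1 ax (fun k : Fin p => lb (Sum.inl k : Lb p l)) (List.finRange p) (capF F)) := by
  unfold Tf Tt lns
  rw [List.foldr_map]
  congr 1
  unfold T1
  congr 1
  funext k H
  have h1 : rap (l := l) (fun _ : Fin p => (0 : ℂ)) (Sum.inl k) = 0 := rfl
  rw [h1, sub_zero]

theorem Dd_Tf (G : Sts (2 * p) l → ℂ) (m : Sts p l) :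
    Dd (Tf lam (fun i => -(Uw (2 * p) (Real.pi / 8) i)) G) m =
      (kk (2 * lam) * kk 0 / kk lam) ^ p * Tf lam (fun _ => 0) (Dd G) m := by
  set X : Fin p → Option (Option (Lb (2 * p) l)) := fun k => lb (sL l k) with hX
  set Y : Fin p → Option (Option (Lb (2 * p) l)) := fun k => lb (sR l k) with hY
  set K := List.finRange p with hK
  have hKn : K.Nodup := List.nodup_finRange p
  have hP : Pos (ax : Option (Option (Lb (2 * p) l))) X Y := pos_s p l
  have hem : ∀ N : St (Option (Option (Lb p l))), Em Y K (upf2 i2_inj N) := by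
    intro N k _
    refine upf_out (of2_inj i2_inj) N ?_
    rintro ⟨b, hb⟩
    rcases oo_cases b with rfl | rfl | ⟨c, rfl⟩
    · simp [of2, ax, lb, hY] at hb
    · simp [of2, ax', lb, hY] at hb
    · exact sR_not_i2 k ⟨c, by simpa [of2, lb, hY] using hb⟩
  have key : ∀ N : St (Option (Option (Lb p l))),
      Sall X Y K (T2 ax X Y K (capF G)) (upf2 i2_inj N) =
      (kk (2 * lam) * kk 0 / kk lam) ^ p *
        T1 ax (fun k : Fin p => lb (Sum.inl k : Lb p l)) K (capF (Dd G)) N := by
    intro N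
    rw [Sall_T2 hP hKn _ (hem N), hK, List.length_finRange, ← hK]
    congr 1
    have h1 : T1 ax X K (Sall X Y K (capF G)) (upf2 i2_inj N) =
        T1 ax X K (capF (Sall (sL l) (sR l) K G)) (upf2 i2_inj N) := by
      refine T1_congr hP (L := K) (fun N hN => ?_) (hem N)
      refine (capF_Sall hKn ?_ ?_ G hN).symm
      · intro j k h
        exact hP.xy j k (congrArg lb h)
      · intro j k hjk h
        exact hP.yy j k hjk (congrArg lb h)
    rw [h1]
    have h2 := T1_upf (f := i2) i2_inj (fun k : Fin p => (Sum.inl k : Lb p l)) K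
      (capF (Sall (sL l) (sR l) K G)) N
    refine h2.trans ?_
    congr 1
    funext n
    exact capF_upf i2_inj _ n
  rw [Dd_eq, Tf_two, ← cupF_Sall, Tf_one]
  unfold cupF
  rw [up_eq, ext0_upf, ext1_upf, key, key]
  ring

end main

end Pool.Agent.CYL.Db
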