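import Mathlib
import Pool.Agent.CYL.P.DblF
import Pool.Agent.CYL.P.FusF

/-!
# CYL, part PF, fusion: `T_p(lam; 0) = kk(lam)^p D^T Sh D` (P8(b) of note 3180) and the product
# functionals (P8(c))

`Tf_lam`: from `Db.Dd_Tf`, `Tf_fus`, the shift of the sites and the surjectivity of `Dd`.
`Dd_Os`: the local formula for the product functionals.
-/

set_option linter.unusedVariables false
set_option linter.unusedSectionVars false

namespace Pool.Agent.CYL

open Complex Pool.Agent.BEX

/-! ### the shift -/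

section shift

theorem rap_shift {L l : ℕ} (U : Fin L → ℂ) (x : Lb L l) :
    rap U (shE L l x) = rap (fun i => U (finRotate L i)) x := by
  rcases x with i | j <;> rfl

private theorem DblT_map (n : ℕ) : (List.finRange (n + 1)).map (finRotate (n + 1)) =
    (List.finRange n).map Fin.succ ++ [0] := by
  rw [List.finRange_succ_last, List.map_append, List.map_map]
  congr 1
  · refine List.map_congr_left fun i _ => ?_
    simp
  · simp

theorem Shf_Tf {L l : ℕ} (v : ℂ) (U : Fin L → ℂ) (F : Sts L l → ℂ) :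
    Shf (Tf v U F) = Tf v (fun i => U (finRotate L i)) (Shf F) := by
  rcases L with _ | n
  · funext M
    have h1 : shE 0 l = Equiv.refl _ := by
      ext x
      rcases x with i | j
      · exact i.elim0
      · rfl
    have h2 : ∀ G : Sts 0 l → ℂ, Shf G = G := by
      intro G
      funext M
      unfold Shf
      rw [h1, rl_refl]
    have h3 : (fun i => U (finRotate 0 i)) = U := funext fun i => i.elim0
    rw [h2, h2, h3]
  · funext M
    have h1 := Tt_rl (shE (n + 1) l) (lns (n + 1) l) v (rap U) F M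
    have h2 : (lns (n + 1) l).map (shE (n + 1) l) =
        ((List.finRange n).map Fin.succ).map (Sum.inl : Fin (n + 1) → Lb (n + 1) l) ++ [Sum.inl 0] := by
      unfold lns
      rw [List.map_map]
      have h3 : (shE (n + 1) l : Lb (n + 1) l → Lb (n + 1) l) ∘ (Sum.inl : Fin (n + 1) → Lb (n + 1) l) =
          (Sum.inl : Fin (n + 1) → Lb (n + 1) l) ∘ (finRotate (n + 1)) := by
        funext i
        rfl
      rw [h3, ← List.map_map, DblT_map, List.map_append]
      rfl
    have h4 : lns (n + 1) l = (Sum.inl 0 : Lb (n + 1) l) ::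
        ((List.finRange n).map Fin.succ).map (Sum.inl : Fin (n + 1) → Lb (n + 1) l) := by
      unfold lns
      rw [List.finRange_succ, List.map_cons]
    have h5 : Tt ((lns (n + 1) l).map (shE (n + 1) l)) v (rap U) F = Tt (lns (n + 1) l) v (rap U) F := by
      rw [h2, h4]
      refine (Tt_cyc _ _ ?_ v (rap U) F).symm
      rw [← h4]
      exact nodup_lns (n + 1) l
    rw [h5] at h1
    simp only [rap_shift] at h1
    exact h1

theorem Uw_rot (p : ℕ) (w : ℝ) (i : Fin (2 * p)) :
    Uw (2 * p) w (finRotate (2 * p) i) = -(Uw (2 * p) w i) := by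
  obtain ⟨q, rfl⟩ : ∃ q, p = q + 1 := ⟨p - 1, by have := i.2; omega⟩
  have h1 : ((finRotate (2 * (q + 1)) i : Fin (2 * (q + 1))) : ℕ) % 2 = ((i : ℕ) + 1) % 2 := by
    change ((finRotate (2 * q + 1 + 1) i : Fin (2 * q + 1 + 1)) : ℕ) % 2 = _
    rw [coe_finRotate]
    split_ifs with h
    · have h' : (i : ℕ) = 2 * q + 1 := congrArg Fin.val h
      rw [h']
      omega
    · rfl
  unfold Uw
  rw [h1]
  rcases Nat.mod_two_eq_zero_or_one (i : ℕ) with h | h
  · rw [if_neg (by omega), if_pos h]
  · rw [if_pos (by omega), if_neg (by omega), neg_neg]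

theorem Shf_surj {L l : ℕ} (G : Sts L l → ℂ) : Shf (fun M => G (rl (shE L l).symm M)) = G := by
  funext M
  change G (rl (shE L l).symm (rl (shE L l) M)) = G M
  rw [rl_trans, Equiv.self_trans_symm, rl_refl]

end shift

/-! ### surjectivity of `Dd` -/

section surj

variable {κ : Type*} [DecidableEq κ] {β : Type*} {x y : β → κ}

theorem Sall_single (hxy : ∀ j k, x j ≠ y k) (hyy : ∀ j k, j ≠ k → y j ≠ y k) {K : List β}
    (hK : K.Nodup) {G : St κ → ℂ} (hG : ∀ N, (∃ k, N (y k) ≠ y k) → G N = 0) {M : St κ}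
    (hM : Db.Em y K M) :
    Db.Sall x y K G M = (K.map fun k => if M (x k) = x k then (1 : ℂ) else xc).prod * G M := by
  induction K generalizing M with
  | nil => simp [Db.Sall]
  | cons k K ih =>
    rw [List.nodup_cons] at hK
    have h1 : ∀ j ∈ K, k ≠ j := fun j hj h => hK.1 (h ▸ hj)
    have hM' : Db.Em y K M := fun j hj => hM j (List.mem_cons_of_mem _ hj)
    have hk := hM k List.mem_cons_self
    have e1 : Db.Sall x y (k :: K) G M = Sp (x k) (y k) (Db.Sall x y K G) M := rfl
    have a1 : ∀ j ∈ K, x k ≠ y j := fun j _ => hxy k j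
    have a2 : ∀ j ∈ K, y k ≠ y j := fun j hj => hyy k j (h1 j hj)
    rw [e1, List.map_cons, List.prod_cons]
    unfold Sp
    by_cases hx : M (x k) = x k
    · have h2 : G (M.jn (x k) (y k)) = 0 := by
        refine hG _ ⟨k, ?_⟩
        rw [Far.jn_ap hx hk, if_neg (hxy k k).symm, if_pos rfl]
        exact hxy k k
      rw [if_pos hx, if_pos hx, ih hK.2 hM', ih hK.2 (hM'.jn a1 a2), h2]
      ring
    · have h2 : G (M.sw (x k) (y k)) = 0 := by
        refine hG _ ⟨k, ?_⟩
        rw [Far.sw_ap']
        have h3 := hxy k k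
        have h4 := M.inv (x k)
        grind
      rw [if_neg hx, if_neg hx, ih hK.2 hM', ih hK.2 (hM'.sw a1 a2), h2]
      ring

theorem prod_inv (K : List β) (P : β → Prop) [DecidablePred P] :
    (K.map fun k => if P k then (1 : ℂ) else xc).prod *
      (K.map fun k => if P k then (1 : ℂ) else xc⁻¹).prod = 1 := by
  induction K with
  | nil => simp
  | cons k K ih =>
    rw [List.map_cons, List.map_cons, List.prod_cons, List.prod_cons]
    by_cases h : P k
    · rw [if_pos h, if_pos h, one_mul, one_mul, ih]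
    · rw [if_neg h, if_neg h]
      have := Db.xc_ne
      linear_combination ih + (K.map fun k => if P k then (1 : ℂ) else xc).prod *
        (K.map fun k => if P k then (1 : ℂ) else xc⁻¹).prod * mul_inv_cancel₀ this

theorem Dd_surj {p l : ℕ} (F : Sts p l → ℂ) : ∃ G : Sts (2 * p) l → ℂ, Dd G = F := by
  classical
  refine ⟨fun N => if ∀ k, N (sR l k) = sR l k then
    ((List.finRange p).map fun k => if N (sL l k) = sL l k then (1 : ℂ) else xc⁻¹).prod * F (dn N)
    else 0, ?_⟩
  funext m
  rw [Db.Dd_eq]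
  have hE : ∀ k, up m (sR l k) = sR l k := fun k =>
    Db.upf_out i2_inj m (Db.sR_not_i2 k)
  rw [Sall_single (x := sL l) (y := sR l) (fun j k => sL_ne_sR j k)
    (fun j k hjk h => hjk (sR_inj h)) (List.nodup_finRange p) ?_ (fun k _ => hE k)]
  · rw [if_pos hE, dn_up, ← mul_assoc,
      prod_inv (List.finRange p) (fun k => up m (sL l k) = sL l k), one_mul]
  · rintro N ⟨k, hk⟩
    rw [if_neg (fun h => hk (h k))]

end surj

/-! ### the transfer matrix -/

section main

variable {p l : ℕ}

theorem Tf_neg (hp : 0 < p) (G : Sts (2 * p) l → ℂ) :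
    Tf lam (fun i => -(Uw (2 * p) (Real.pi / 8) i)) G =
      fun M => (sin (2 * lam) * sin (3 * lam) * kk (2 * lam)) ^ p * Shf (Dt (Dd G)) M := by
  have h1 := Shf_Tf lam (Uw (2 * p) (Real.pi / 8)) (fun M => G (rl (shE (2 * p) l).symm M))
  rw [Shf_surj] at h1
  have h2 : (fun i => Uw (2 * p) (Real.pi / 8) (finRotate (2 * p) i)) =
      fun i => -(Uw (2 * p) (Real.pi / 8) i) := funext fun i => Uw_rot p _ i
  rw [h2] at h1
  rw [← h1]
  funext M
  unfold Shf
  rw [Tf_fus hp, Shf_surj]

/-- P8(b): the homogeneous transfer matrix at `lam` is: split all sites, shift, merge. -/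
theorem Tf_lam (hp : 0 < p) (F : Sts p l → ℂ) (m : Sts p l) :
    Tf lam (fun _ => 0) F m = kk lam ^ p * Dd (Shf (Dt F)) m := by
  obtain ⟨G, rfl⟩ := Dd_surj F
  have h1 := Db.Dd_Tf G m
  rw [Tf_neg hp] at h1
  have h2 : Dd (fun M => (sin (2 * lam) * sin (3 * lam) * kk (2 * lam)) ^ p * Shf (Dt (Dd G)) M) m =
      (sin (2 * lam) * sin (3 * lam) * kk (2 * lam)) ^ p * Dd (Shf (Dt (Dd G))) m := by
    rw [Db.Dd_eq, Db.Dd_eq]
    generalize up m = N
    induction List.finRange p generalizing N with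
    | nil => rfl
    | cons k K ih => exact Db.Sp_rel (ih _) (ih _) (ih _)
  rw [h2] at h1
  have hk1 := Db.kk_1_ne
  have hk2 := Db.kk_2_ne
  have h0 : kk 0 = sin (2 * lam) * sin (3 * lam) := by unfold kk; rw [add_zero, add_zero]
  have hk0 : kk 0 ≠ 0 := by
    rw [h0]
    obtain ⟨c, s, h, g1, g2, g3, g4, g5, g6, g7, g8, g9⟩ := Db.rel_lam
    rw [g3, g7, ← g1]
    refine mul_ne_zero ?_ Db.cos_lam_ne
    intro hh
    rw [hh] at g5
    norm_num at g5
  rw [← h0] at h1
  have hC : (kk (2 * lam) * kk 0 / kk lam) ^ p ≠ 0 :=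
    pow_ne_zero _ (div_ne_zero (mul_ne_zero hk2 hk0) hk1)
  apply mul_left_cancel₀ hC
  rw [← h1, ← mul_assoc, ← mul_pow]
  congr 2
  field_simp

end main

/-! ### the product functionals -/

section os

variable {p l : ℕ}

theorem Chi_rl {L l : ℕ} (M : Sts L l) : Chi (rl (shE L l) M) ↔ Chi M := by
  have h : ∀ j : Fin l, (rl (shE L l) M) (Sum.inr j) = shE L l (M (Sum.inr j)) := by
    intro j
    rw [rl_apply]
    rfl
  constructor
  · intro H j
    obtain ⟨i, hi⟩ := H j
    rw [h] at hi
    rcases hx : M (Sum.inr j) with k | j'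
    · exact ⟨k, rfl⟩
    · rw [hx] at hi
      simp [shE] at hi
  · intro H j
    obtain ⟨i, hi⟩ := H j
    exact ⟨finRotate L i, by rw [h, hi]; rfl⟩

theorem Shf_Os {L l : ℕ} (U : Fin L → ℂ) (u : ℂ) :
    Shf (Os (l := l) U u) = Os (fun i => U (finRotate L i)) u := by
  funext M
  unfold Shf Os Oa
  rw [if_congr (Chi_rl M) rfl rfl]
  split_ifs with h
  · rw [← Equiv.prod_comp (finRotate L)]
    refine Finset.prod_congr rfl fun i _ => ?_
    have h1 : (rl (shE L l) M) (Sum.inl (finRotate L i)) = shE L l (M (Sum.inl i)) := by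
      have h3 : (shE L l).symm (Sum.inl (finRotate L i)) = Sum.inl i := by
        rw [Equiv.symm_apply_eq]
        rfl
      rw [rl_apply, h3]
    have h2 : shE L l (M (Sum.inl i)) = Sum.inl (finRotate L i) ↔ M (Sum.inl i) = Sum.inl i := by
      have : (Sum.inl (finRotate L i) : Lb L l) = shE L l (Sum.inl i) := rfl
      rw [this, EmbeddingLike.apply_eq_iff_eq]
    rw [h1]
    exact if_congr h2 rfl rfl
  · rfl

end os

end Pool.Agent.CYL
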