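import Mathlib
import Pool.Agent.CYL.P.DblT

/-!
# CYL, part PF, fusion: the product functionals under splitting (P8(c) of note 3180)

`Dd_Shf_Os`: `Dd (Shf (Os (Uw (2 * p) (pi / 8)) u)) m = sin u ^ p * Os 0 u m`.
-/

set_option linter.unusedVariables false
set_option linter.unusedSectionVars false

namespace Pool.Agent.CYL

open Complex Pool.Agent.BEX

variable {p l : ℕ}

theorem prod_pairs (g : Lb (2 * p) l → ℂ) :
    ∏ i : Fin (2 * p), g (Sum.inl i) = ∏ k : Fin p, (g (sL l k) * g (sR l k)) := by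
  have h1 : ∀ K : List (Fin p), ((K.flatMap fun k => [sL l k, sR l k]).map g).prod =
      (K.map fun k => g (sL l k) * g (sR l k)).prod := by
    intro K
    induction K with
    | nil => rfl
    | cons k K ih =>
      rw [List.flatMap_cons, List.map_append, List.prod_append, ih, List.map_cons, List.prod_cons]
      simp
  rw [Fin.prod_univ_def, Fin.prod_univ_def, ← h1, ← Db.lns_two]
  unfold lns
  rw [List.map_map]
  rfl

theorem chi_jn_iff {M : Sts (2 * p) l} {k : Fin p} : Chi (M.jn (sL l k) (sR l k)) ↔ Chi M := by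
  have h : ∀ j : Fin l, (M.jn (sL l k) (sR l k)) (Sum.inr j) = M (Sum.inr j) := by
    intro j
    exact M.jn_fix (by simp [sL]) (by simp [sR])
  unfold Chi
  simp only [h]

theorem chi_sw_iff {M : Sts (2 * p) l} {k : Fin p} : Chi (M.sw (sL l k) (sR l k)) ↔ Chi M := by
  have key : ∀ N : Sts (2 * p) l, Chi N → Chi (N.sw (sL l k) (sR l k)) := by
    intro N h j
    obtain ⟨i, hi⟩ := h j
    have e : Equiv.swap (sL l k) (sR l k) (Sum.inr j) = Sum.inr j :=
      Equiv.swap_apply_of_ne_of_ne (by simp [sL]) (by simp [sR])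
    rw [Far.sw_ap, e, hi, Equiv.swap_apply_def]
    split_ifs
    · exact ⟨_, rfl⟩
    · exact ⟨_, rfl⟩
    · exact ⟨i, rfl⟩
  refine ⟨fun h => ?_, key M⟩
  have h1 := key _ h
  have h2 : (M.sw (sL l k) (sR l k)).sw (sL l k) (sR l k) = M := by
    ext x
    rw [Far.sw_ap, Far.sw_ap]
    simp
  rwa [h2] at h1

theorem weights (u : ℂ) : sin (u + lam) * sin (u - lam) + xc * bb ^ 2 = sin u ^ 2 ∧
    xc * bb * (sin (u + lam) + sin (u - lam)) = bb * sin u := by
  obtain ⟨c, s, h, h1, h2, h3, h4, h5, h6, h7, h8, h9⟩ := Db.rel_lam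
  have h10 : s ^ 2 + c ^ 2 = 1 := by rw [← h1, ← h2]; exact sin_sq_add_cos_sq lam
  have h11 : sin u ^ 2 + cos u ^ 2 = 1 := sin_sq_add_cos_sq u
  rw [sin_add, sin_sub, bb_sq, h1, h2, h3, h4]
  constructor
  · linear_combination (2 * s ^ 2) * h5 + (sin u ^ 2) * h10 - s ^ 2 * h11
  · linear_combination (2 * bb * h * sin u) * h6 + (2 * bb * sin u) * h5

/-- factor of a pair that is not split -/
noncomputable def Wf (u : ℂ) (M : Sts (2 * p) l) (k : Fin p) : ℂ :=
  (if M (sL l k) = sL l k then sin (u + lam) else bb) *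
    (if M (sR l k) = sR l k then sin (u - lam) else bb)

/-- factor of a pair that is split -/
noncomputable def Vf (u : ℂ) (M : Sts (2 * p) l) (k : Fin p) : ℂ :=
  if M (sL l k) = sL l k then sin u ^ 2 else bb * sin u

theorem Os_pairs (u : ℂ) (M : Sts (2 * p) l) :
    Os (fun i => -(Uw (2 * p) (Real.pi / 8) i)) u M = if Chi M then ∏ k, Wf u M k else 0 := by
  have hl : ((Real.pi / 8 : ℝ) : ℂ) = lam := AOm_lam
  unfold Os Oa
  split_ifs with h
  · have h1 := prod_pairs (p := p) (l := l) fun x => match x with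
      | Sum.inl i => if M (Sum.inl i) = Sum.inl i then
          sin (u - -(Uw (2 * p) (Real.pi / 8) i)) else bb
      | Sum.inr _ => 0
    refine h1.trans (Finset.prod_congr rfl fun k _ => ?_)
    unfold Wf
    simp only [sL, sR]
    have e1 : Uw (2 * p) (Real.pi / 8) ⟨2 * (k : ℕ), by omega⟩ = lam := by
      unfold Uw
      rw [if_pos (by simp), hl]
    have e2 : Uw (2 * p) (Real.pi / 8) ⟨2 * (k : ℕ) + 1, by omega⟩ = -lam := by
      unfold Uw
      rw [if_neg (by show ¬ (2 * (k : ℕ) + 1) % 2 = 0; omega), hl]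
    rw [e1, e2, sub_neg_eq_add, sub_neg_eq_add, ← sub_eq_add_neg]
    rfl
  · rfl

theorem Sall_Os (u : ℂ) {K : List (Fin p)} (hK : K.Nodup) {M : Sts (2 * p) l}
    (hM : Db.Em (sR l) K M) :
    Db.Sall (sL l) (sR l) K (Os (fun i => -(Uw (2 * p) (Real.pi / 8) i)) u) M =
      if Chi M then ∏ k, (if k ∈ K then Vf u M k else Wf u M k) else 0 := by
  induction K generalizing M with
  | nil =>
    rw [show Db.Sall (sL l) (sR l) [] (Os (fun i => -(Uw (2 * p) (Real.pi / 8) i)) u) M =
      Os (fun i => -(Uw (2 * p) (Real.pi / 8) i)) u M from rfl, Os_pairs]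
    simp
  | cons k K ih =>
    rw [List.nodup_cons] at hK
    have h1 : ∀ j ∈ K, k ≠ j := fun j hj h => hK.1 (h ▸ hj)
    have hM' : Db.Em (sR l) K M := fun j hj => hM j (List.mem_cons_of_mem _ hj)
    have hk := hM k List.mem_cons_self
    have a1 : ∀ j ∈ K, sL l k ≠ sR l j := fun j _ => sL_ne_sR k j
    have a2 : ∀ j ∈ K, sR l k ≠ sR l j := fun j hj h => h1 j hj (sR_inj h)
    have e1 : Db.Sall (sL l) (sR l) (k :: K) (Os (fun i => -(Uw (2 * p) (Real.pi / 8) i)) u) M =
      Sp (sL l k) (sR l k)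
        (Db.Sall (sL l) (sR l) K (Os (fun i => -(Uw (2 * p) (Real.pi / 8) i)) u)) M := rfl
    -- the other factors do not change
    have key : ∀ N : Sts (2 * p) l, (∀ j, j ≠ k → (N (sL l j) = sL l j ↔ M (sL l j) = sL l j) ∧
        (N (sR l j) = sR l j ↔ M (sR l j) = sR l j)) →
        (∏ j, (if j ∈ K then Vf u N j else Wf u N j)) =
          Wf u N k * ∏ j ∈ Finset.univ.erase k, (if j ∈ k :: K then Vf u M j else Wf u M j) := by
      intro N hN
      rw [← Finset.mul_prod_erase Finset.univ _ (Finset.mem_univ k), if_neg hK.1]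
      congr 1
      refine Finset.prod_congr rfl fun j hj => ?_
      have hjk : j ≠ k := Finset.ne_of_mem_erase hj
      obtain ⟨g1, g2⟩ := hN j hjk
      have e3 : (j ∈ k :: K) = (j ∈ K) := by simp [hjk]
      unfold Vf Wf
      simp only [e3, g1, g2]
    have f1 : ∀ j, j ≠ k → sL l k ≠ sL l j := fun j hj h => hj (sL_inj h).symm
    have f2 : ∀ j, j ≠ k → sR l k ≠ sR l j := fun j hj h => hj (sR_inj h).symm
    have k0 := key M fun j _ => ⟨Iff.rfl, Iff.rfl⟩
    have k1 := key (M.jn (sL l k) (sR l k)) fun j hj =>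
      ⟨Db.fix_jn (f1 j hj) (sL_ne_sR j k).symm, Db.fix_jn (sL_ne_sR k j) (f2 j hj)⟩
    have k2 := key (M.sw (sL l k) (sR l k)) fun j hj =>
      ⟨Db.fix_sw (f1 j hj) (sL_ne_sR j k).symm, Db.fix_sw (sL_ne_sR k j) (f2 j hj)⟩
    have k3 : (∏ j, (if j ∈ k :: K then Vf u M j else Wf u M j)) =
        Vf u M k * ∏ j ∈ Finset.univ.erase k, (if j ∈ k :: K then Vf u M j else Wf u M j) := by
      rw [← Finset.mul_prod_erase Finset.univ _ (Finset.mem_univ k), if_pos List.mem_cons_self]
    obtain ⟨w1, w2⟩ := weights u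
    rw [e1, k3]
    unfold Sp
    by_cases hx : M (sL l k) = sL l k
    · have v0 : Vf u M k = sin u ^ 2 := by unfold Vf; rw [if_pos hx]
      have v1 : Wf u M k = sin (u + lam) * sin (u - lam) := by
        unfold Wf; rw [if_pos hx, if_pos hk]
      have v2 : Wf u (M.jn (sL l k) (sR l k)) k = bb * bb := by
        unfold Wf
        rw [if_neg, if_neg]
        · rw [Far.jn_ap hx hk, if_neg (sL_ne_sR k k).symm, if_pos rfl]
          exact sL_ne_sR k k
        · rw [Far.jn_ap hx hk, if_pos rfl]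
          exact (sL_ne_sR k k).symm
      rw [if_pos hx, ih hK.2 hM', ih hK.2 (hM'.jn a1 a2), if_congr chi_jn_iff rfl rfl, k0, k1, v0,
        v1, v2]
      split_ifs
      · linear_combination (∏ j ∈ Finset.univ.erase k,
          (if j ∈ k :: K then Vf u M j else Wf u M j)) * w1
      · ring
    · have h3 := M.inv (sL l k)
      have h4 := sL_ne_sR (l := l) k k
      have v0 : Vf u M k = bb * sin u := by unfold Vf; rw [if_neg hx]
      have v1 : Wf u M k = bb * sin (u - lam) := by
        unfold Wf; rw [if_neg hx, if_pos hk]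
      have v2 : Wf u (M.sw (sL l k) (sR l k)) k = sin (u + lam) * bb := by
        unfold Wf
        rw [if_pos, if_neg]
        · rw [Far.sw_ap']
          grind
        · rw [Far.sw_ap']
          grind
      rw [if_neg hx, ih hK.2 hM', ih hK.2 (hM'.sw a1 a2), if_congr chi_sw_iff rfl rfl, k0, k2, v0,
        v1, v2]
      split_ifs
      · linear_combination (∏ j ∈ Finset.univ.erase k,
          (if j ∈ k :: K then Vf u M j else Wf u M j)) * w2
      · ring

/-- P8(c), first form. -/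
theorem Dd_Os (u : ℂ) (m : Sts p l) :
    Dd (Os (fun i => -(Uw (2 * p) (Real.pi / 8) i)) u) m = sin u ^ p * Os (fun _ => 0) u m := by
  have hE : ∀ k, up m (sR l k) = sR l k := fun k => Db.upf_out i2_inj m (Db.sR_not_i2 k)
  have hL : ∀ k : Fin p, up m (sL l k) = sL l k ↔ m (Sum.inl k) = Sum.inl k := by
    intro k
    have h1 : up m (sL l k) = i2 (m (Sum.inl k)) := Db.upf_apply i2_inj m (Sum.inl k)
    rw [h1]
    have h2 : (sL l k : Lb (2 * p) l) = i2 (Sum.inl k) := rfl
    rw [h2, i2_inj.eq_iff]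
  have hC : Chi (up m) ↔ Chi m := by
    have h1 : ∀ j : Fin l, up m (Sum.inr j) = i2 (m (Sum.inr j)) := fun j =>
      Db.upf_apply i2_inj m (Sum.inr j)
    constructor
    · intro h j
      obtain ⟨i, hi⟩ := h j
      rw [h1] at hi
      rcases hx : m (Sum.inr j) with k | j'
      · exact ⟨k, rfl⟩
      · rw [hx] at hi
        simp [i2] at hi
    · intro h j
      obtain ⟨i, hi⟩ := h j
      rw [h1, hi]
      exact ⟨_, rfl⟩
  rw [Db.Dd_eq, Sall_Os u (List.nodup_finRange p) (fun k _ => hE k), if_congr hC rfl rfl]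
  unfold Os Oa
  split_ifs with h
  · have h1 : ∀ k : Fin p, (if k ∈ List.finRange p then Vf u (up m) k else Wf u (up m) k) =
        sin u * (if m (Sum.inl k) = Sum.inl k then sin (u - 0) else bb) := by
      intro k
      rw [if_pos (List.mem_finRange k), sub_zero]
      unfold Vf
      rw [if_congr (hL k) rfl rfl]
      split_ifs <;> ring
    rw [Finset.prod_congr rfl fun k _ => h1 k, Finset.prod_mul_distrib, Finset.prod_const,
      Finset.card_univ, Fintype.card_fin]
  · rw [mul_zero]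

/-- P8(c) -/
theorem Dd_Shf_Os (u : ℂ) (m : Sts p l) :
    Dd (Shf (Os (Uw (2 * p) (Real.pi / 8)) u)) m = sin u ^ p * Os (fun _ => 0) u m := by
  rw [Shf_Os]
  have h2 : (fun i => Uw (2 * p) (Real.pi / 8) (finRotate (2 * p) i)) =
      fun i => -(Uw (2 * p) (Real.pi / 8) i) := funext fun i => Uw_rot p _ i
  rw [h2, Dd_Os]

end Pool.Agent.CYL
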