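import Pool.Agent.CYL.P.Fus0
import Pool.Agent.CYL.P.Planar
import Pool.Agent.CYL.P.Mir
import Pool.Agent.CYL.P.DblT
import Pool.Agent.CYL.P.DblQ
import Pool.Agent.CYL.P.Arc
import Pool.Agent.CYL.P.TCont

set_option autoImplicit false

/-!
# CYL/P: assembly of part PF from commutation (part A), P2 (`pla`), P1 + P3 (`RealPrim`, `FamPrim`), P5 (`Psi`),
P6 (`qf_par`), P8 (`fus_of'`, `Tf_lam`, `Dd_Shf_Os`)
-/

namespace Pool.Agent.CYL

open Pool.Agent.BEX Complex

/-- The homogeneous system has a positive common eigenvector. -/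
theorem hom_of {L l : ℕ} (hl : l = 1 ∨ l = 2) (hL : l < L) (hc : Comm L l)
    (hR : RealPrim l lam (fun _ : Fin L => 0)) :
    ∃ (psi : Sts L l → ℝ) (t : ℂ → ℂ), IsPsi (fun _ : Fin L => 0) psi t ∧ ∀ m, Cls m → 0 < psi m := by
  have : Nonempty (Kc L l) := nonempty_Kc hL.le (by rcases hl with h | h <;> omega)
  have hpla : Pla L l := pla (by rcases hl with h | h <;> omega)
  exact ⟨_, _, (isPsi_psiOf hpla hc hR).1, fun m hm => psiOf_pos hR hm⟩

/-- It is unique. -/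
theorem hom_unique_of {L l : ℕ} (hl : l = 1 ∨ l = 2) (hL : l < L)
    (hR : RealPrim l lam (fun _ : Fin L => 0)) {psi psi' : Sts L l → ℝ} {t t' : ℂ → ℂ}
    (h : IsPsi (fun _ : Fin L => 0) psi t) (h' : IsPsi (fun _ : Fin L => 0) psi' t') : psi = psi' ∧ t = t' := by
  have : Nonempty (Kc L l) := nonempty_Kc hL.le (by rcases hl with h | h <;> omega)
  have hpla : Pla L l := pla (by rcases hl with h | h <;> omega)
  exact h.unique hpla hR h'

/-- The family `U = (w, -w, ..)`. -/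
theorem family_of {p l : ℕ} (hl : l = 1 ∨ l = 2) (hp : l ≤ p) (hc : Comm (2 * p) l) (hfam : FamPrim (2 * p) l)
    (hZ : l < p → RealPrim l lam (fun _ : Fin p => 0))
    (psi0 : Sts p l → ℝ) (_h0 : ∀ m, 0 ≤ psi0 m) (h1 : ∀ m, ¬ Cls m → psi0 m = 0) (h2 : ∑ m, psi0 m = 1)
    (h3 : l < p → ∃ t, IsPsi (fun _ : Fin p => 0) psi0 t) : Nonempty (Family p l psi0) := by
  have hl1 : 1 ≤ l := by rcases hl with h | h <;> omega
  have hl2 : l ≤ 2 := by rcases hl with h | h <;> omega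
  have : Nonempty (Kc (2 * p) l) := nonempty_Kc (by omega) (by omega)
  have hpla : Pla (2 * p) l := pla hl2
  have hI : ∀ w, 0 ≤ w → w < Real.pi / 8 → IsPsi (Uw (2 * p) w) (psiW (2 * p) l w) (tW (2 * p) l w) :=
    fun w a b => isPsi_psiW hpla hc hfam a b
  refine ⟨⟨psiW (2 * p) l, tW (2 * p) l, hI, fun m => continuousOn_psiW hpla hc hfam m,
    fun w a b => qf_par hpla hfam a b (hI w a b), fun w a b => ?_, ?_⟩⟩
  · obtain ⟨m, hm, hm'⟩ := exists_arcless (L := 2 * p) (l := l) (by omega) (by omega)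
    exact ⟨m, hm, psiW_pos hfam a b hm'⟩
  · refine fus_of' hl1 (by omega) hp hpla hI (fun w a b m hm => psiW_pos hfam a b hm)
      (fun w a b => (hfam.hi w a b).nn) psi0 h1 h2 ?_ (Tf_lam (by omega)) Dd_Shf_Os
    intro hlp y y0 y1 y2 ⟨s, hs⟩
    have : Nonempty (Kc p l) := nonempty_Kc hp (by omega)
    have hplp : Pla p l := pla hl2
    have e1 := (psiOf_unique hplp (hZ hlp) y0 y1 y2 hs).1
    obtain ⟨t, ht⟩ := h3 hlp
    rw [e1, (ht.eq_psiOf hplp (hZ hlp)).1]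

end Pool.Agent.CYL
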