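import Pool.Agent.CYL.P.FusS
import Pool.Agent.CYL.P.Psi
import Pool.Agent.CYL.P.Arc

/-!
# CYL, part P (P8): the vector on `p` sites of a joint eigenvector at `w = λ`

`yv psi m' = ∑ m, psi m (D^T m → m')`, on the `Chi`-states. If `psi` is an eigenvector of `T(λ; U_λ)` with eigenvalue
`Lam > 0` then `Lam ∑ psi F = c ∑ yv (Dd (Shf F))`; with `Tf lam 0 = kk^p Dd Shf Dt` (hypothesis `hT`, P8(b)) `yv` is an
eigenvector of the homogeneous `T(λ; 0)` on `p` sites.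
-/

namespace Pool.Agent.CYL

open Pool.Agent.BEX Complex
open scoped ComplexOrder

variable {p l : ℕ}

/-- the vector on `p` sites -/
noncomputable def yv (psi : Sts (2 * p) l → ℝ) (m' : Sts p l) : ℝ :=
  if Chi m' then (∑ m, (psi m : ℂ) * Dt (Pi.single m' 1) m).re else 0

/-- the constant of `Tf_fus` -/
noncomputable def cfu (p : ℕ) : ℂ := (sin (2 * lam) * sin (3 * lam) * kk (2 * lam)) ^ p

theorem sum_real_mul {ι : Type*} (s : Finset ι) (f : ι → ℝ) (g : ι → ℂ) (hf : ∀ i, 0 ≤ f i) (hg : ∀ i, 0 ≤ g i) :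
    0 ≤ ∑ i ∈ s, (f i : ℂ) * g i :=
  Finset.sum_nonneg fun i _ => mul_nonneg (by exact_mod_cast hf i) (hg i)

theorem single_nn {ι : Type*} [DecidableEq ι] (i j : ι) : (0 : ℂ) ≤ (Pi.single i 1 : ι → ℂ) j := by
  rw [Pi.single_apply]
  split_ifs
  · exact zero_le_one
  · exact le_refl _

theorem yv_nonneg {psi : Sts (2 * p) l → ℝ} (h : ∀ m, 0 ≤ psi m) (m' : Sts p l) : 0 ≤ yv psi m' := by
  unfold yv
  split_ifs
  · have h1 := sum_real_mul Finset.univ psi (fun m => Dt (Pi.single m' 1) m) h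
      (fun m => Dt_nn (fun n => single_nn m' n) m)
    exact (Complex.le_def.1 h1).1
  · exact le_refl _

theorem yv_coe {psi : Sts (2 * p) l → ℝ} (h : ∀ m, 0 ≤ psi m) {m' : Sts p l} (hm : Chi m') :
    (yv psi m' : ℂ) = ∑ m, (psi m : ℂ) * Dt (Pi.single m' 1) m := by
  have h1 := sum_real_mul Finset.univ psi (fun m => Dt (Pi.single m' 1) m) h
    (fun m => Dt_nn (fun n => single_nn m' n) m)
  unfold yv
  rw [if_pos hm]
  apply Complex.ext
  · rw [ofReal_re]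
  · rw [ofReal_im]
    exact (Complex.le_def.1 h1).2

theorem yv_sum {psi : Sts (2 * p) l → ℝ} (h : ∀ m, 0 ≤ psi m) {G : Sts p l → ℂ} (hG : Sup G) :
    ∑ m', (yv psi m' : ℂ) * G m' = ∑ m, (psi m : ℂ) * Dt G m := by
  have h1 : ∀ m, (psi m : ℂ) * Dt G m = ∑ m', G m' * ((psi m : ℂ) * Dt (Pi.single m' 1) m) := by
    intro m
    rw [Dt_eq_sum, Finset.mul_sum]
    exact Finset.sum_congr rfl fun m' _ => by ring
  rw [Finset.sum_congr rfl fun m _ => h1 m, Finset.sum_comm]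
  refine Finset.sum_congr rfl fun m' _ => ?_
  by_cases hm : Chi m'
  · rw [← Finset.mul_sum, yv_coe h hm]
    ring
  · rw [hG m' hm, mul_zero]
    simp

variable {psi : Sts (2 * p) l → ℝ} {Lam : ℂ}

/-- the eigen equation in terms of `yv` -/
theorem yv_eig (hp : 0 < p) (h : ∀ m, 0 ≤ psi m)
    (he : ∀ F : Sts (2 * p) l → ℂ, Sup F →
      ∑ m, (psi m : ℂ) * Tf lam (Uw (2 * p) (Real.pi / 8)) F m = Lam * ∑ m, (psi m : ℂ) * F m)
    {F : Sts (2 * p) l → ℂ} (hF : Sup F) :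
    Lam * ∑ m, (psi m : ℂ) * F m = cfu p * ∑ m', (yv psi m' : ℂ) * Dd (Shf F) m' := by
  rw [← he F hF, yv_sum h (Sup_Dd (Sup_Shf hF)), Finset.mul_sum]
  refine Finset.sum_congr rfl fun m _ => ?_
  rw [Tf_fus hp]
  unfold cfu
  ring

theorem cfu_pos (p : ℕ) : 0 < cfu p := by
  have h1 : 0 < Real.sin (2 * (Real.pi / 8)) := Real.sin_pos_of_pos_of_lt_pi (by positivity) (by linarith [Real.pi_pos])
  have h2 : 0 < Real.cos (Real.pi / 8) := Real.cos_pos_of_mem_Ioo ⟨by linarith [Real.pi_pos], by linarith [Real.pi_pos]⟩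
  have e1 : sin (2 * lam) = ((Real.sin (2 * (Real.pi / 8)) : ℝ) : ℂ) := by unfold lam; push_cast; rfl
  have e2 : cos lam = ((Real.cos (Real.pi / 8) : ℝ) : ℂ) := by unfold lam; push_cast; rfl
  unfold cfu
  rw [kk_2lam, sin3_eq_cos, e1, e2]
  have : 0 < (Real.sin (2 * (Real.pi / 8)) * Real.cos (Real.pi / 8) * Real.cos (Real.pi / 8)) ^ p := by positivity
  exact_mod_cast this

/-- the class -/
theorem yv_supp (hp : 0 < p) (h : ∀ m, 0 ≤ psi m) (hs : ∀ m, ¬ Cls m → psi m = 0)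
    (he : ∀ F : Sts (2 * p) l → ℂ, Sup F →
      ∑ m, (psi m : ℂ) * Tf lam (Uw (2 * p) (Real.pi / 8)) F m = Lam * ∑ m, (psi m : ℂ) * F m)
    (m' : Sts p l) (hm : ¬ Cls m') : yv psi m' = 0 := by
  by_cases hc : Chi m'
  swap
  · unfold yv
    rw [if_neg hc]
  set s := rl (shE (2 * p) l) (up m') with hsdef
  have hsc : ¬ Cls s := fun h' => hm (cls_shup h')
  have hchi : Chi s := by
    intro j
    obtain ⟨i, hi⟩ := hc j
    rw [hsdef, shup_inr, hi]
    exact ⟨_, rfl⟩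
  have h1 := yv_eig hp h he (Sup_single hchi)
  have h2 : ∑ m, (psi m : ℂ) * (Pi.single s 1 : Sts (2 * p) l → ℂ) m = 0 := by
    refine Finset.sum_eq_zero fun m _ => ?_
    rw [Pi.single_apply]
    split_ifs with hms
    · rw [hms, hs s hsc]
      simp
    · rw [mul_zero]
  rw [h2, mul_zero] at h1
  have h3 := (mul_eq_zero.1 h1.symm).resolve_left (cfu_pos p).ne'
  have h4 : ∀ m ∈ Finset.univ, 0 ≤ (yv psi m : ℂ) * Dd (Shf (Pi.single s 1)) m := fun m _ =>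
    mul_nonneg (by exact_mod_cast yv_nonneg h m) (Dd_nn (fun n => single_nn s _) m)
  have h5 := (Finset.sum_eq_zero_iff_of_nonneg h4).1 h3 m' (Finset.mem_univ _)
  have h6 : 0 < Dd (Shf (Pi.single s 1)) m' := by
    refine Dd_Shf_pos (fun n => single_nn s n) ?_
    rw [← hsdef, Pi.single_eq_same]
    exact zero_lt_one
  have h7 := (mul_eq_zero.1 h5).resolve_right h6.ne'
  exact_mod_cast h7

/-- eigenvector on `p` sites -/
theorem yv_hom (hp : 0 < p) (h : ∀ m, 0 ≤ psi m)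
    (he : ∀ F : Sts (2 * p) l → ℂ, Sup F →
      ∑ m, (psi m : ℂ) * Tf lam (Uw (2 * p) (Real.pi / 8)) F m = Lam * ∑ m, (psi m : ℂ) * F m)
    (hT : ∀ (F : Sts p l → ℂ) (m : Sts p l), Tf lam (fun _ => 0) F m = kk lam ^ p * Dd (Shf (Dt F)) m)
    {G : Sts p l → ℂ} (hG : Sup G) :
    ∑ m, (yv psi m : ℂ) * Tf lam (fun _ => 0) G m =
      (kk lam ^ p * Lam / cfu p) * ∑ m, (yv psi m : ℂ) * G m := by
  have h1 := yv_eig hp h he (Sup_Dt hG)
  have h2 : ∑ m, (yv psi m : ℂ) * Tf lam (fun _ => 0) G m =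
      kk lam ^ p * ∑ m, (yv psi m : ℂ) * Dd (Shf (Dt G)) m := by
    rw [Finset.mul_sum]
    refine Finset.sum_congr rfl fun m _ => ?_
    rw [hT]
    ring
  have h3 := (cfu_pos p).ne'
  rw [h2, yv_sum h hG]
  rw [← yv_sum h hG] at h1 ⊢
  field_simp
  linear_combination (-kk lam ^ p) * h1

end Pool.Agent.CYL
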