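import Pool.Agent.BEX.AFar
import Pool.Agent.BEX.ARtt

set_option autoImplicit false

/-!
# CYL, part P, item P2 (generic): non-crossing states and the transfer matrix

Generic labels `κ`, sites `S`, positions `pos : κ → ℤ`, points at infinity `O` (at most two). Two sites are linked
(`Ed O m x y`) if they are joined or if both are joined to points at infinity. `Ncr S pos E`: no two links cross.
-/

namespace Pool.Agent.CYL.Pn

open Pool.Agent.BEX Pool.Agent.BEX.Far

section Rel

variable {κ : Type*}

/-- no crossing of the relation `E` on the sites `S` with the positions `pos` -/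
def Ncr (S : κ → Prop) (pos : κ → ℤ) (E : κ → κ → Prop) : Prop :=
  ∀ a b c d, S a → S b → S c → S d → pos a < pos b → pos b < pos c → pos c < pos d → E a c → E b d → False

/-- The new links after a cap at the neighbours `p`, `q`. -/
theorem Ncr.cap {S : κ → Prop} {pos : κ → ℤ} {E E' : κ → κ → Prop} {p q : κ} (h : Ncr S pos E)
    (hsym : ∀ x y, E x y → E y x) (hu : ∀ x y z, S x → S y → S z → E x y → E x z → y = z) (hp : S p) (hq : S q)
    (hinj : ∀ x y, S x → S y → pos x = pos y → x = y)
    (hadj : ∀ x, S x → x ≠ p → x ≠ q → (pos x < pos p ↔ pos x < pos q))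
    (hE : ∀ x y, S x → S y → E' x y → x ≠ p ∧ x ≠ q ∧ y ≠ p ∧ y ≠ q ∧
      (E x y ∨ (E x p ∧ E q y) ∨ (E x q ∧ E p y))) : Ncr S pos E' := by
  have key : ∀ a b c d, S a → S b → S c → S d → pos a < pos b → pos b < pos c → pos c < pos d →
      a ≠ p → c ≠ p → a ≠ q → c ≠ q → b ≠ p → b ≠ q → d ≠ p → d ≠ q → E a c →
      (E b p ∧ E q d) ∨ (E b q ∧ E p d) → False := by
    intro a b c d ha hb hc hd h1 h2 h3 n1 n2 n3 n4 n5 n6 n7 n8 e1 e2
    have A1 := hadj a ha n1 n3
    have C1 := hadj c hc n2 n4
    have P1 : pos p ≠ pos a := fun e => n1 (hinj _ _ hp ha e).symm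
    have P2 : pos p ≠ pos c := fun e => n2 (hinj _ _ hp hc e).symm
    have Q1 : pos q ≠ pos a := fun e => n3 (hinj _ _ hq ha e).symm
    have Q2 : pos q ≠ pos c := fun e => n4 (hinj _ _ hq hc e).symm
    rcases e2 with ⟨e2, e3⟩ | ⟨e2, e3⟩
    · by_cases t1 : pos a < pos p
      · by_cases t2 : pos p < pos c
        · exact h a q c d ha hq hc hd (by omega) (by omega) h3 e1 e3
        · exact h a b c p ha hb hc hp h1 h2 (by omega) e1 e2
      · exact h p a b c hp ha hb hc (by omega) h1 h2 (hsym _ _ e2) e1
    · by_cases t1 : pos a < pos q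
      · by_cases t2 : pos q < pos c
        · exact h a p c d ha hp hc hd (by omega) (by omega) h3 e1 e3
        · exact h a b c q ha hb hc hq h1 h2 (by omega) e1 e2
      · exact h q a b c hq ha hb hc (by omega) h1 h2 (hsym _ _ e2) e1
  have key2 : ∀ a b c d, S a → S b → S c → S d → pos a < pos b → pos b < pos c → pos c < pos d →
      a ≠ p → c ≠ p → a ≠ q → c ≠ q → b ≠ p → b ≠ q → d ≠ p → d ≠ q → E b d →
      (E a p ∧ E q c) ∨ (E a q ∧ E p c) → False := by
    intro a b c d ha hb hc hd h1 h2 h3 n1 n2 n3 n4 n5 n6 n7 n8 e1 e2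
    have B1 := hadj b hb n5 n6
    have D1 := hadj d hd n7 n8
    have P1 : pos p ≠ pos b := fun e => n5 (hinj _ _ hp hb e).symm
    have P2 : pos p ≠ pos d := fun e => n7 (hinj _ _ hp hd e).symm
    have Q1 : pos q ≠ pos b := fun e => n6 (hinj _ _ hq hb e).symm
    have Q2 : pos q ≠ pos d := fun e => n8 (hinj _ _ hq hd e).symm
    rcases e2 with ⟨e2, e3⟩ | ⟨e2, e3⟩
    · by_cases t1 : pos b < pos p
      · by_cases t2 : pos p < pos d
        · exact h a b p d ha hb hp hd h1 t1 t2 e2 e1
        · exact h b c d q hb hc hd hq h2 h3 (by omega) e1 (hsym _ _ e3)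
      · exact h q b c d hq hb hc hd (by omega) h2 h3 e3 e1
    · by_cases t1 : pos b < pos q
      · by_cases t2 : pos q < pos d
        · exact h a b q d ha hb hq hd h1 t1 t2 e2 e1
        · exact h b c d p hb hc hd hp h2 h3 (by omega) e1 (hsym _ _ e3)
      · exact h p b c d hp hb hc hd (by omega) h2 h3 e3 e1
  intro a b c d ha hb hc hd h1 h2 h3 e1 e2
  obtain ⟨m1, m2, m3, m4, e1⟩ := hE _ _ ha hc e1
  obtain ⟨m5, m6, m7, m8, e2⟩ := hE _ _ hb hd e2
  rcases e1 with e1 | e1
  · rcases e2 with e2 | e2
    · exact h a b c d ha hb hc hd h1 h2 h3 e1 e2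
    · exact key a b c d ha hb hc hd h1 h2 h3 m1 m3 m2 m4 m5 m6 m7 m8 e1 e2
  · rcases e2 with e2 | e2
    · exact key2 a b c d ha hb hc hd h1 h2 h3 m1 m3 m2 m4 m5 m6 m7 m8 e2 e1
    · rcases e1 with ⟨e1, e1'⟩ | ⟨e1, e1'⟩ <;> rcases e2 with ⟨e2, e2'⟩ | ⟨e2, e2'⟩
      · have := hu p a b hp ha hb (hsym _ _ e1) (hsym _ _ e2)
        subst this
        omega
      · have := hu q c b hq hc hb e1' (hsym _ _ e2)
        subst this
        omega
      · have := hu p c b hp hc hb e1' (hsym _ _ e2)
        subst this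
        omega
      · have := hu q a b hq ha hb (hsym _ _ e1) (hsym _ _ e2)
        subst this
        omega

/-- The link of two neighbours is added. -/
theorem Ncr.cup {S : κ → Prop} {pos : κ → ℤ} {E E' : κ → κ → Prop} {p q : κ} (h : Ncr S pos E)
    (hinj : ∀ x y, S x → S y → pos x = pos y → x = y) (hp : S p) (hq : S q)
    (hadj : ∀ x, S x → x ≠ p → x ≠ q → (pos x < pos p ↔ pos x < pos q))
    (hE : ∀ x y, S x → S y → E' x y → E x y ∨ (x = p ∧ y = q) ∨ (x = q ∧ y = p)) : Ncr S pos E' := by
  intro a b c d ha hb hc hd h1 h2 h3 e1 e2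
  have no1 : ∀ x, S x → x ≠ p → x ≠ q → pos x ≠ pos p ∧ pos x ≠ pos q := fun x hx n1 n2 =>
    ⟨fun e => n1 (hinj _ _ hx hp e), fun e => n2 (hinj _ _ hx hq e)⟩
  have pq : ∀ x, S x → pos p < pos x → pos x < pos q → False := by
    intro x hx g1 g2
    have n1 : x ≠ p := by rintro rfl; omega
    have n2 : x ≠ q := by rintro rfl; omega
    have := hadj x hx n1 n2
    omega
  have qp : ∀ x, S x → pos q < pos x → pos x < pos p → False := by
    intro x hx g1 g2
    have n1 : x ≠ p := by rintro rfl; omega
    have n2 : x ≠ q := by rintro rfl; omega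
    have := hadj x hx n1 n2
    omega
  rcases hE _ _ ha hc e1 with e1 | ⟨rfl, rfl⟩ | ⟨rfl, rfl⟩
  · rcases hE _ _ hb hd e2 with e2 | ⟨rfl, rfl⟩ | ⟨rfl, rfl⟩
    · exact h a b c d ha hb hc hd h1 h2 h3 e1 e2
    · exact pq c hc h2 h3
    · exact qp c hc h2 h3
  · exact pq b hb h1 h2
  · exact qp b hb h1 h2

/-- Relabelling: positions and relation transported by a map `s`. -/
theorem Ncr.map {κ' : Type*} {S : κ → Prop} {S' : κ' → Prop} {pos : κ → ℤ} {pos' : κ' → ℤ} {E : κ → κ → Prop}
    {E' : κ' → κ' → Prop} (s : κ' → κ) (h : Ncr S pos E) (hS : ∀ x, S' x → S (s x))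
    (hpos : ∀ x y, S' x → S' y → pos' x < pos' y → pos (s x) < pos (s y))
    (hE : ∀ x y, S' x → S' y → E' x y → E (s x) (s y)) : Ncr S' pos' E' := by
  intro a b c d ha hb hc hd h1 h2 h3 e1 e2
  exact h (s a) (s b) (s c) (s d) (hS a ha) (hS b hb) (hS c hc) (hS d hd) (hpos a b ha hb h1)
    (hpos b c hb hc h2) (hpos c d hc hd h3) (hE _ _ ha hc e1) (hE _ _ hb hd e2)

/-- The leg at `q` hops to the empty neighbour `p` (`p` carries no link before, `q` none after). -/
theorem Ncr.hop {S : κ → Prop} {pos : κ → ℤ} {E E' : κ → κ → Prop} {p q : κ} (h : Ncr S pos E)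
    (hinj : ∀ x y, S x → S y → pos x = pos y → x = y) (hp : S p) (hq : S q)
    (hadj : ∀ x, S x → x ≠ p → x ≠ q → (pos x < pos p ↔ pos x < pos q)) [DecidableEq κ]
    (hE : ∀ x y, S x → S y → E' x y → x ≠ q ∧ y ≠ q ∧ E (if x = p then q else x) (if y = p then q else y)) :
    Ncr S pos E' := by
  have mono : ∀ x y, S x → S y → x ≠ q → y ≠ q → pos x < pos y →
      pos (if x = p then q else x) < pos (if y = p then q else y) := by
    intro x y hx hy nx ny hxy
    by_cases x1 : x = p
    · subst x1
      by_cases y1 : y = x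
      · subst y1
        omega
      · rw [if_pos rfl, if_neg y1]
        have h1 := hadj y hy y1 ny
        have h2 : pos y ≠ pos q := fun e => ny (hinj _ _ hy hq e)
        omega
    · by_cases y1 : y = p
      · subst y1
        rw [if_neg x1, if_pos rfl]
        have h1 := hadj x hx x1 nx
        omega
      · rw [if_neg x1, if_neg y1]
        exact hxy
  have hS : ∀ x, S x → S (if x = p then q else x) := by
    intro x hx
    split_ifs
    · exact hq
    · exact hx
  intro a b c d ha hb hc hd h1 h2 h3 e1 e2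
  obtain ⟨n1, n2, e1⟩ := hE _ _ ha hc e1
  obtain ⟨n3, n4, e2⟩ := hE _ _ hb hd e2
  exact h _ _ _ _ (hS a ha) (hS b hb) (hS c hc) (hS d hd) (mono a b ha hb n1 n3 h1)
    (mono b c hb hc n3 n2 h2) (mono c d hc hd n2 n4 h3) e1 e2

/-- Rotation: the last site `z` becomes the first one. -/
theorem Ncr.rot {S : κ → Prop} {pos pos' : κ → ℤ} {E : κ → κ → Prop} {z : κ} (h : Ncr S pos E)
    (hsym : ∀ x y, E x y → E y x) (hz : ∀ x, S x → x ≠ z → pos x < pos z ∧ pos' z < pos' x)
    (ho : ∀ x y, S x → S y → x ≠ z → y ≠ z → pos' x < pos' y → pos x < pos y) : Ncr S pos' E := by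
  intro a b c d ha hb hc hd h1 h2 h3 e1 e2
  have nb : b ≠ z := by rintro rfl; by_cases e : a = b; (subst e; omega); have := (hz a ha e).2; omega
  have nc : c ≠ z := by rintro rfl; by_cases e : b = c; (subst e; omega); have := (hz b hb e).2; omega
  have nd : d ≠ z := by rintro rfl; by_cases e : c = d; (subst e; omega); have := (hz c hc e).2; omega
  have g2 := ho b c hb hc nb nc h2
  have g3 := ho c d hc hd nc nd h3
  by_cases e : a = z
  · subst e
    exact h b c d a hb hc hd ha g2 g3 (hz d hd nd).1 e2 (hsym _ _ e1)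
  · exact h a b c d ha hb hc hd (ho a b ha hb e nb h1) g2 g3 e1 e2

end Rel

section Links

variable {κ : Type*} [DecidableEq κ]

/-- `x` and `y` are joined, or both are joined to points at infinity -/
def Ed (O : κ → Prop) (m : St κ) (x y : κ) : Prop := x ≠ y ∧ (m x = y ∨ (O (m x) ∧ O (m y)))

omit [DecidableEq κ] in
theorem Ed.symm {O : κ → Prop} {m : St κ} {x y : κ} (h : Ed O m x y) : Ed O m y x := by
  refine ⟨h.1.symm, ?_⟩
  rcases h.2 with h2 | h2
  · left
    rw [← h2, m.inv]
  · right
    exact ⟨h2.2, h2.1⟩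

omit [DecidableEq κ] in
theorem Ed.uniq {O S : κ → Prop} (hO : ∀ a b c, O a → O b → O c → a ≠ b → a ≠ c → b = c)
    (hS : ∀ x, S x → ¬ O x) {m : St κ} {x y z : κ} (hx : S x) (hy : S y) (hz : S z) (h1 : Ed O m x y)
    (h2 : Ed O m x z) : y = z := by
  obtain ⟨n1, h1⟩ := h1
  obtain ⟨n2, h2⟩ := h2
  rcases h1 with h1 | h1
  · rcases h2 with h2 | h2
    · exact h1.symm.trans h2
    · exact absurd (h1 ▸ h2.1) (hS y hy)
  · rcases h2 with h2 | h2
    · exact absurd (h2 ▸ h1.1) (hS z hz)
    · exact m.inj (hO _ _ _ h1.1 h1.2 h2.2 (fun e => n1 (m.inj e)) fun e => n2 (m.inj e))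

variable {O S : κ → Prop} {m : St κ} {p q x y : κ}

/-- links after a cap -/
theorem Ed.cp (hS : ∀ x, S x → ¬ O x) (hp : m p ≠ p) (hq : m q ≠ q) (hpq : p ≠ q) (sp : S p) (sq : S q) (sx : S x)
    (sy : S y) (h : Ed O (m.cp p q) x y) : x ≠ p ∧ x ≠ q ∧ y ≠ p ∧ y ≠ q ∧
      (Ed O m x y ∨ (Ed O m x p ∧ Ed O m q y) ∨ (Ed O m x q ∧ Ed O m p y)) := by
  have op := hS p sp
  have oq := hS q sq
  have ox := hS x sx
  have oy := hS y sy
  have i1 := m.inv p
  have i2 := m.inv q
  have i3 := m.inv x
  have i4 := m.inv y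
  obtain ⟨h1, h2⟩ := h
  rw [cp_ap hp hq, cp_ap hp hq] at h2
  unfold Ed
  grind (splits := 60)

/-- links after a cup -/
theorem Ed.jn (hS : ∀ x, S x → ¬ O x) (hp : m p = p) (hq : m q = q) (sp : S p) (sq : S q) (sx : S x)
    (sy : S y) (h : Ed O (m.jn p q) x y) : Ed O m x y ∨ (x = p ∧ y = q) ∨ (x = q ∧ y = p) := by
  have op := hS p sp
  have oq := hS q sq
  obtain ⟨h1, h2⟩ := h
  rw [jn_ap hp hq, jn_ap hp hq] at h2
  unfold Ed
  grind (splits := 60)

/-- links after a hop -/
theorem Ed.sw (hS : ∀ x, S x → ¬ O x) (hp : m p = p) (hpq : p ≠ q) (sp : S p) (sq : S q) (sx : S x)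
    (sy : S y) (h : Ed O (m.sw p q) x y) :
    x ≠ q ∧ y ≠ q ∧ Ed O m (if x = p then q else x) (if y = p then q else y) := by
  have op := hS p sp
  have oq := hS q sq
  have ox := hS x sx
  have oy := hS y sy
  have i1 := m.inv p
  have i2 := m.inv q
  have i3 := m.inv x
  have i4 := m.inv y
  obtain ⟨h1, h2⟩ := h
  rw [sw_ap', sw_ap'] at h2
  unfold Ed
  grind (splits := 60)

/-- links after the exchange of two labels -/
theorem Ed.sw' (hS : ∀ x, S x → ¬ O x) (sp : S p) (sq : S q) (h : Ed O (m.sw p q) x y) :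
    Ed O m (Equiv.swap p q x) (Equiv.swap p q y) := by
  have op := hS p sp
  have oq := hS q sq
  obtain ⟨h1, h2⟩ := h
  rw [sw_ap, sw_ap] at h2
  have hO : ∀ z, O (Equiv.swap p q z) → O z := by
    intro z hz
    rw [Equiv.swap_apply_def] at hz
    split_ifs at hz
    · exact absurd hz oq
    · exact absurd hz op
    · exact hz
  refine ⟨fun e => h1 ((Equiv.swap p q).injective e), ?_⟩
  rcases h2 with h2 | h2
  · left
    rw [← h2]
    simp
  · right
    exact ⟨hO _ h2.1, hO _ h2.2⟩

omit [DecidableEq κ] in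
theorem Ncr.congr {pos : κ → ℤ} {m n : St κ} (h : Ncr S pos (Ed O m)) (e : m = n) : Ncr S pos (Ed O n) := e ▸ h

theorem sw_fix2 (hp : m p = p) (hq : m q = q) : m.sw p q = m := by
  ext x
  have i3 := m.inv x
  rw [sw_ap']
  grind (splits := 40)

theorem sw_joined (hp : m p = q) : m.sw p q = m := by
  ext x
  have i1 := m.inv p
  have i3 := m.inv x
  rw [sw_ap']
  grind (splits := 40)

theorem sw_sw' (p q : κ) (m : St κ) : (m.sw p q).sw p q = m := by
  ext x
  rw [sw_ap, sw_ap]
  simp

/-- The R-operator of two neighbouring lines `p`, `q` (which exchanges them). -/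
theorem Rt_nc {pos pos' : κ → ℤ} (hO : ∀ a b c, O a → O b → O c → a ≠ b → a ≠ c → b = c)
    (hS : ∀ x, S x → ¬ O x) (hpq : p ≠ q) (sp : S p) (sq : S q)
    (hinj : ∀ x y, S x → S y → pos x = pos y → x = y)
    (hadj : ∀ x, S x → x ≠ p → x ≠ q → (pos x < pos p ↔ pos x < pos q))
    (hpos : ∀ x y, S x → S y → pos' x < pos' y → pos (Equiv.swap p q x) < pos (Equiv.swap p q y))
    (w : ℂ) (G : St κ → ℂ) (hG : ∀ M, Ncr S pos' (Ed O M) → G M = 0) (M : St κ)
    (hM : Ncr S pos (Ed O M)) : Rt p q w G M = 0 := by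
  have hSs : ∀ x, S x → S (Equiv.swap p q x) := by
    intro x hx
    rw [Equiv.swap_apply_def]
    split_ifs
    · exact sq
    · exact sp
    · exact hx
  have relab : ∀ N : St κ, Ncr S pos (Ed O N) → G (N.sw p q) = 0 := fun N hN =>
    hG _ (hN.map (Equiv.swap p q) hSs hpos fun x y _ _ h => Ed.sw' hS sp sq h)
  have relab' : ∀ N : St κ, N.sw p q = N → Ncr S pos (Ed O N) → G N = 0 := by
    intro N e hN
    rw [← e]
    exact relab N hN
  have hadj' : ∀ x, S x → x ≠ q → x ≠ p → (pos x < pos q ↔ pos x < pos p) := fun x hx h1 h2 =>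
    (hadj x hx h2 h1).symm
  have hsym : ∀ N : St κ, ∀ x y, Ed O N x y → Ed O N y x := fun _ _ _ h => h.symm
  have hop : (M p = p ∨ M q = q) → G M = 0 := by
    intro h
    have h1 : Ncr S pos (Ed O (M.sw p q)) := by
      rcases h with h | h
      · exact hM.hop hinj sp sq hadj fun x y hx hy hE => Ed.sw hS h hpq sp sq hx hy hE
      · rw [sw_comm']
        exact hM.hop hinj sq sp hadj' fun x y hx hy hE => Ed.sw hS h hpq.symm sq sp hx hy hE
    have h2 := relab _ h1
    rwa [sw_sw'] at h2
  by_cases hp : M p = p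
  · by_cases hq : M q = q
    · rw [AY.Rt_ee hp hq rfl, hop (Or.inl hp), relab' (M.jn p q)
        (sw_joined (by rw [jn_ap hp hq]; simp)) (hM.cup hinj sp sq hadj fun x y hx hy hE =>
          Ed.jn hS hp hq sp sq hx hy hE)]
      ring
    · rw [AY.Rt_eo hp hq rfl, hop (Or.inl hp), relab M hM]
      ring
  · by_cases hq : M q = q
    · rw [AY.Rt_oe hp hq rfl, hop (Or.inr hq), relab M hM]
      ring
    · by_cases h : M p = q
      · rw [AY.Rt_jj hp hq h, relab' M (sw_joined h) hM]
        ring
      · have c1 : (M.cp p q) p = p := cp_p hp hq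
        have c2 : (M.cp p q) q = q := cp_q hp hq
        have hc : Ncr S pos (Ed O (M.cp p q)) := hM.cap (hsym M)
          (fun x y z hx hy hz h1 h2 => Ed.uniq hO hS hx hy hz h1 h2) sp sq hinj hadj
          fun x y hx hy hE => Ed.cp hS hp hq hpq sp sq hx hy hE
        rw [AY.Rt_oo hp hq h rfl rfl rfl, relab M hM, relab' _ (sw_fix2 c1 c2) hc,
          relab' ((M.cp p q).jn p q) (sw_joined (by rw [jn_ap c1 c2]; simp))
            (hc.cup hinj sp sq hadj fun x y hx hy hE => Ed.jn hS c1 c2 sp sq hx hy hE)]
        ring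

end Links

section Trans

variable {ι : Type*} [DecidableEq ι]

/-- sites together with the two ends of the auxiliary line -/
def Sx (S : ι → Prop) : Option (Option ι) → Prop
  | none => True
  | some none => True
  | some (some i) => S i

/-- points at infinity on the extended labels -/
def Ox (O : ι → Prop) : Option (Option ι) → Prop
  | none => False
  | some none => False
  | some (some i) => O i

/-- positions, with the auxiliary line at `z` and its other end at `z'` -/
def psx (ps : ι → ℤ) (z z' : ℤ) : Option (Option ι) → ℤ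
  | none => z
  | some none => z'
  | some (some i) => ps i

variable {O S : ι → Prop} {ps : ι → ℤ}

omit [DecidableEq ι] in
theorem Sx_not_Ox (hS : ∀ x, S x → ¬ O x) : ∀ x, Sx S x → ¬ Ox O x := by
  rintro (_ | _ | x) h h'
  · exact h'
  · exact h'
  · exact hS x h h'

omit [DecidableEq ι] in
theorem Ox_two (hO : ∀ a b c, O a → O b → O c → a ≠ b → a ≠ c → b = c) :
    ∀ a b c, Ox O a → Ox O b → Ox O c → a ≠ b → a ≠ c → b = c := by
  rintro (_ | _ | a) (_ | _ | b) (_ | _ | c) ha hb hc h1 h2
  all_goals first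
    | exact absurd ha id
    | exact absurd hb id
    | exact absurd hc id
    | skip
  rw [hO a b c ha hb hc (fun e => h1 (by rw [e])) fun e => h2 (by rw [e])]

/-- The auxiliary line passes the lines of the list `l`. -/
theorem Fo_nc (hO : ∀ a b c, O a → O b → O c → a ≠ b → a ≠ c → b = c) (hS : ∀ x, S x → ¬ O x)
    (hinj : ∀ x y, S x → S y → ps x = ps y → x = y) (hev : ∀ x, S x → ps x % 2 = 0)
    (hnn : ∀ x, S x → 0 ≤ ps x) (v : ℂ) (U : ι → ℂ) (G : St (Option (Option ι)) → ℂ) (l : List ι) (z : ℤ)
    (hz0 : -1 ≤ z) (hz : z % 2 = 1) (hl : ∀ (j : ℕ) (h : j < l.length), S l[j] ∧ ps l[j] = z + 1 + 2 * j)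
    (hG : ∀ M, Ncr (Sx S) (psx ps (z + 2 * l.length) (-2)) (Ed (Ox O) M) → G M = 0)
    (M : St (Option (Option ι))) (hM : Ncr (Sx S) (psx ps z (-2)) (Ed (Ox O) M)) : Fo l v U G M = 0 := by
  induction l generalizing z M with
  | nil =>
    refine hG M ?_
    simpa using hM
  | cons i l ih =>
    rw [Fo_cons]
    have hi := hl 0 (by simp)
    simp only [List.getElem_cons_zero] at hi
    obtain ⟨si, pi⟩ := hi
    have ih' := ih (z + 2) (by omega) (by omega) (by
      intro j hj
      have h1 := hl (j + 1) (by simpa using hj)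
      simp only [List.getElem_cons_succ] at h1
      refine ⟨h1.1, ?_⟩
      rw [h1.2]
      push_cast
      ring) (by
      intro N hN
      refine hG N ?_
      have e : z + 2 * ((i :: l).length : ℤ) = z + 2 + 2 * (l.length : ℤ) := by
        rw [List.length_cons]
        push_cast
        ring
      rw [e]
      exact hN)
    have hpi : ps i = z + 1 := by rw [pi]; simp
    refine Rt_nc (S := Sx S) (O := Ox O) (pos := psx ps z (-2)) (pos' := psx ps (z + 2) (-2)) (Ox_two hO)
      (Sx_not_Ox hS) (ax_ne i) trivial si ?_ ?_ ?_ _ _ ih' M hM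
    · rintro (_ | _ | x) (_ | _ | y) hx hy h
      · rfl
      · have h' : z = -2 := h
        omega
      · have := hev y hy
        have h' : z = ps y := h
        omega
      · have h' : -2 = z := h
        omega
      · rfl
      · have := hnn y hy
        have h' : -2 = ps y := h
        omega
      · have := hev x hx
        have h' : ps x = z := h
        omega
      · have := hnn x hx
        have h' : ps x = -2 := h
        omega
      · rw [hinj x y hx hy h]
    · rintro (_ | _ | x) hx h1 h2
      · exact absurd rfl h1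
      · show (-2 : ℤ) < z ↔ (-2 : ℤ) < ps i
        omega
      · show ps x < z ↔ ps x < ps i
        have := hev x hx
        omega
    · have hsw : ∀ x, Sx S x → psx ps z (-2) (Equiv.swap ax (lb i) x) =
          (if x = ax then z + 1 else if x = lb i then z else psx ps z (-2) x) := by
        intro x hx
        rw [Equiv.swap_apply_def]
        by_cases h1 : x = ax
        · rw [if_pos h1, if_pos h1]
          exact hpi
        · rw [if_neg h1, if_neg h1]
          by_cases h2 : x = lb i
          · rw [if_pos h2, if_pos h2]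
            rfl
          · rw [if_neg h2, if_neg h2]
      have hval : ∀ x, Sx S x → psx ps (z + 2) (-2) x =
          (if x = ax then z + 2 else if x = lb i then z + 1 else psx ps z (-2) x) := by
        intro x hx
        by_cases h1 : x = ax
        · rw [if_pos h1]
          subst h1
          rfl
        · rw [if_neg h1]
          by_cases h2 : x = lb i
          · rw [if_pos h2]
            subst h2
            exact hpi
          · rw [if_neg h2]
            rcases x with _ | _ | x
            · exact absurd rfl h1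
            · rfl
            · rfl
      have hoth : ∀ x, Sx S x → x ≠ ax → x ≠ lb i → psx ps z (-2) x % 2 = 0 ∧ psx ps z (-2) x ≠ z + 1 := by
        rintro (_ | _ | x) hx h1 h2
        · exact absurd rfl h1
        · constructor
          · rfl
          · show (-2 : ℤ) ≠ z + 1
            omega
        · refine ⟨hev x hx, ?_⟩
          intro e
          apply h2
          have : x = i := hinj x i hx si ((e : ps x = z + 1).trans hpi.symm)
          rw [this]
          rfl
      intro x y hx hy h
      rw [hsw x hx, hsw y hy]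
      rw [hval x hx, hval y hy] at h
      have ox := hoth x hx
      have oy := hoth y hy
      by_cases x1 : x = ax
      · rw [if_pos x1] at h ⊢
        by_cases y1 : y = ax
        · rw [if_pos y1] at h
          omega
        · rw [if_neg y1] at h ⊢
          by_cases y2 : y = lb i
          · rw [if_pos y2] at h
            omega
          · rw [if_neg y2] at h ⊢
            have := oy y1 y2
            omega
      · rw [if_neg x1] at h ⊢
        by_cases x2 : x = lb i
        · rw [if_pos x2] at h ⊢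
          by_cases y1 : y = ax
          · rw [if_pos y1]
            omega
          · rw [if_neg y1] at h ⊢
            by_cases y2 : y = lb i
            · rw [if_pos y2] at h
              omega
            · rw [if_neg y2] at h ⊢
              have := oy y1 y2
              omega
        · rw [if_neg x2] at h ⊢
          have := ox x1 x2
          by_cases y1 : y = ax
          · rw [if_pos y1] at h ⊢
            omega
          · rw [if_neg y1] at h ⊢
            by_cases y2 : y = lb i
            · rw [if_pos y2] at h ⊢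
              omega
            · rw [if_neg y2] at h ⊢
              exact h

omit [DecidableEq ι] in
theorem ext0_Ed {m : St ι} {x y : Option (Option ι)} (h : Ed (Ox O) (ext0 m) x y) :
    ∃ i j, x = lb i ∧ y = lb j ∧ Ed O m i j := by
  obtain ⟨h1, h2⟩ := h
  rcases x with _ | _ | i
  · rcases h2 with h2 | h2
    · exact absurd h2 h1
    · exact absurd h2.1 id
  · rcases h2 with h2 | h2
    · exact absurd h2 h1
    · exact absurd h2.1 id
  · rcases y with _ | _ | j
    · rcases h2 with h2 | h2
      · exact absurd h2 (by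
          show (some (some (m i)) : Option (Option ι)) ≠ none
          simp)
      · exact absurd h2.2 id
    · rcases h2 with h2 | h2
      · exact absurd h2 (by
          show (some (some (m i)) : Option (Option ι)) ≠ some none
          simp)
      · exact absurd h2.2 id
    · refine ⟨i, j, rfl, rfl, fun e => h1 (by rw [e]), ?_⟩
      rcases h2 with h2 | h2
      · left
        have h3 : (some (some (m i)) : Option (Option ι)) = some (some j) := h2
        simpa using h3
      · right
        exact h2

omit [DecidableEq ι] in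
theorem Ed_ext0 {m : St ι} {i j : ι} (h : Ed O m i j) : Ed (Ox O) (ext0 m) (lb i) (lb j) := by
  obtain ⟨h1, h2⟩ := h
  refine ⟨fun e => h1 (lb_inj e), ?_⟩
  rcases h2 with h2 | h2
  · left
    show (some (some (m i)) : Option (Option ι)) = some (some j)
    rw [h2]
  · right
    exact h2

omit [DecidableEq ι] in
theorem ext0_nc {m : St ι} (z z' : ℤ) (h : Ncr S ps (Ed O m)) : Ncr (Sx S) (psx ps z z') (Ed (Ox O) (ext0 m)) := by
  intro a b c d ha hb hc hd h1 h2 h3 e1 e2
  obtain ⟨a, c, rfl, rfl, g1⟩ := ext0_Ed e1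
  obtain ⟨b, d, rfl, rfl, g2⟩ := ext0_Ed e2
  exact h a b c d ha hb hc hd h1 h2 h3 g1 g2

omit [DecidableEq ι] in
theorem nc_ext0 {m : St ι} {z z' : ℤ} (h : Ncr (Sx S) (psx ps z z') (Ed (Ox O) (ext0 m))) : Ncr S ps (Ed O m) :=
  h.map lb (fun _ hx => hx) (fun _ _ _ _ h => h) fun _ _ _ _ h => Ed_ext0 h

omit [DecidableEq ι] in
theorem psx_inj (hinj : ∀ x y, S x → S y → ps x = ps y → x = y) {z z' : ℤ} (hz : z ≠ z')
    (h1 : ∀ x, S x → ps x ≠ z) (h2 : ∀ x, S x → ps x ≠ z') :
    ∀ x y, Sx S x → Sx S y → psx ps z z' x = psx ps z z' y → x = y := by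
  rintro (_ | _ | x) (_ | _ | y) hx hy h
  · rfl
  · exact absurd h hz
  · exact absurd h.symm (h1 y hy)
  · exact absurd h.symm hz
  · rfl
  · exact absurd h.symm (h2 y hy)
  · exact absurd h (h1 x hx)
  · exact absurd h (h2 x hx)
  · rw [hinj x y hx hy h]

/-- **Planarity of the transfer matrix.** -/
theorem Tt_nc [Fintype ι] (hO : ∀ a b c, O a → O b → O c → a ≠ b → a ≠ c → b = c) (hS : ∀ x, S x → ¬ O x)
    (hinj : ∀ x y, S x → S y → ps x = ps y → x = y) (hev : ∀ x, S x → ps x % 2 = 0)
    (hnn : ∀ x, S x → 0 ≤ ps x) (l : List ι) (hb : ∀ x, S x → ps x < 2 * l.length)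
    (hl : ∀ (j : ℕ) (h : j < l.length), S l[j] ∧ ps l[j] = 2 * j) (v : ℂ) (U : ι → ℂ) (F : St ι → ℂ)
    (hF : ∀ m, Ncr S ps (Ed O m) → F m = 0) (m : St ι) (hm : Ncr S ps (Ed O m)) : Tt l v U F m = 0 := by
  have hne : (ax : Option (Option ι)) ≠ ax' := ax_ne_ax'
  have hcap : ∀ M, Ncr (Sx S) (psx ps (-1 + 2 * l.length) (-2)) (Ed (Ox O) M) → capF F M = 0 := by
    intro M hM
    unfold capF
    by_cases h1 : M ax = ax
    · rw [if_pos h1]
      by_cases h2 : M ax' = ax'
      · rw [if_pos h2]
        refine hF _ ?_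
        refine nc_ext0 (z := -1 + 2 * l.length) (z' := -2) ?_
        rw [ext0_res M h1 h2]
        exact hM
      · rw [if_neg h2]
    · rw [if_neg h1]
      by_cases h2 : M ax' = ax'
      · rw [if_pos h2]
      · rw [if_neg h2]
        by_cases h3 : M ax = ax'
        · rw [if_pos h3]
        · rw [if_neg h3]
          have r1 : Ncr (Sx S) (psx ps (-3) (-2)) (Ed (Ox O) M) := by
            refine hM.rot (z := ax) (fun _ _ h => h.symm) ?_ ?_
            · rintro (_ | _ | x) hx hxa
              · exact absurd rfl hxa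
              · constructor
                · show (-2 : ℤ) < -1 + 2 * (l.length : ℤ)
                  omega
                · show (-3 : ℤ) < -2
                  omega
              · have g1 := hb x hx
                have g2 := hnn x hx
                have g3 := hev x hx
                constructor
                · show ps x < -1 + 2 * (l.length : ℤ)
                  omega
                · show (-3 : ℤ) < ps x
                  omega
            · rintro (_ | _ | x) (_ | _ | y) hx hy hxa hya h
              all_goals first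
                | exact absurd rfl hxa
                | exact absurd rfl hya
                | exact h
          have r2 : Ncr (Sx S) (psx ps (-3) (-2)) (Ed (Ox O) (M.cp ax ax')) := by
            refine r1.cap (p := ax) (q := ax') (fun _ _ h => h.symm)
              (fun x y z hx hy hz g1 g2 => Ed.uniq (Ox_two hO) (Sx_not_Ox hS) hx hy hz g1 g2) trivial trivial
              (psx_inj hinj (by omega) (fun x hx => by have := hnn x hx; omega)
                fun x hx => by have := hnn x hx; omega) ?_
              fun x y hx hy hE => Ed.cp (Sx_not_Ox hS) h1 h2 hne trivial trivial hx hy hE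
            rintro (_ | _ | x) hx g1 g2
            · exact absurd rfl g1
            · exact absurd rfl g2
            · show ps x < -3 ↔ ps x < -2
              have := hnn x hx
              omega
          refine hF _ ?_
          refine nc_ext0 (z := -3) (z' := -2) ?_
          rw [ext0_res (M.cp ax ax') (cp_p h1 h2) (cp_q h1 h2)]
          exact r2
  have hFo : ∀ M, Ncr (Sx S) (psx ps (-1) (-2)) (Ed (Ox O) M) → Fo l v U (capF F) M = 0 := by
    intro M hM
    refine Fo_nc hO hS hinj hev hnn v U (capF F) l (-1) le_rfl (by decide) ?_ hcap M hM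
    intro j hj
    refine ⟨(hl j hj).1, ?_⟩
    rw [(hl j hj).2]
    ring
  rw [Tt_eq]
  unfold cupF
  have e0 : Ncr (Sx S) (psx ps (-1) (-2)) (Ed (Ox O) (ext0 m)) := ext0_nc _ _ hm
  have e1 : Ncr (Sx S) (psx ps (-1) (-2)) (Ed (Ox O) (ext1 m)) := by
    refine e0.cup (p := ax) (q := ax') (psx_inj hinj (by omega) (fun x hx => by have := hnn x hx; omega)
      fun x hx => by have := hnn x hx; omega) trivial trivial ?_
      fun x y hx hy hE => Ed.jn (Sx_not_Ox hS) (ext0_ax m) (ext0_ax' m) trivial trivial hx hy hE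
    rintro (_ | _ | x) hx g1 g2
    · exact absurd rfl g1
    · exact absurd rfl g2
    · show ps x < -1 ↔ ps x < -2
      have := hnn x hx
      omega
  rw [hFo _ e0, hFo _ e1, add_zero]

end Trans

end Pool.Agent.CYL.Pn
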