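import Pool.Agent.CYL.P.Psi
import Pool.Agent.CYL.P.Planar
import Pool.Agent.CYL.P.Rch
import Pool.Agent.CYL.P.PosA
import Pool.Agent.CYL.P.PosB

/-!
# CYL/P: `RealPrim` for the homogeneous system and `FamPrim` for the family (P1 + P3, assembly)
-/

set_option autoImplicit false

namespace Pool.Agent.CYL

open Complex
open Pool.Agent.BEX

/-- Primitivity for real inhomogeneities. -/
theorem prim_gen {L l : ℕ} (hl : l = 1 ∨ l = 2) (hL : l < L) {v : ℝ} {U : Fin L → ℂ} {r : Fin L → ℝ}
    (hU : ∀ i, U i = (r i : ℂ))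
    (h1 : ∀ i, Real.pi / 8 ≤ v - r i) (h2 : ∀ i, v - r i ≤ Real.pi / 4) : RealPrim l (v : ℂ) U :=
  realPrim_of_pos (pla (by rcases hl with h | h <;> omega)) Nat.one_pos
    (posA l (by rcases hl with h | h <;> omega) hU h1 h2) (fun _ _ hm hm' => rch hl hL hm.1 hm')

theorem lam_real : lam = ((Real.pi / 8 : ℝ) : ℂ) := by
  unfold lam; push_cast; rfl

/-- The homogeneous system. -/
theorem primZ {L l : ℕ} (hl : l = 1 ∨ l = 2) (hL : l < L) : RealPrim l lam (fun _ : Fin L => 0) := by
  rw [lam_real]
  have hp := Real.pi_pos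
  exact prim_gen hl hL (r := fun _ => 0) (fun _ => by simp) (fun _ => by simp) (fun _ => by simp; linarith)

/-- The family. -/
theorem famPrim {p l : ℕ} (hl : l = 1 ∨ l = 2) (hp : l ≤ p) : FamPrim (2 * p) l where
  lo w h0 h1 := by
    have hpi := Real.pi_pos
    have hlt : l < 2 * p := by rcases hl with h | h <;> omega
    refine prim_gen hl hlt (r := fun i => if i.val % 2 = 0 then w else -w) (fun i => ?_) (fun i => ?_)
      (fun i => ?_)
    · unfold Uw
      split_ifs <;> simp
    · split_ifs <;> linarith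
    · split_ifs <;> linarith
  hi w h0 h1 := by
    have hlt : l < 2 * p := by rcases hl with h | h <;> omega
    have hp0 : 0 < p := by rcases hl with h | h <;> omega
    exact realPrim_of_pos (pla (by rcases hl with h | h <;> omega)) (by omega : 0 < 2 * p) (posB hp0 h0 h1)
      (fun _ _ hm hm' => rch hl hlt hm.1 hm')

end Pool.Agent.CYL
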